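import Pool.Agent.R984.RatPath

/-!
Existence and uniqueness of the weight with a given irrational optimal ratio, in terms of the
pressure.
-/

namespace R984.Ratio

open Matrix Real Filter Topology

lemma W_eq (t : ℝ) (w : List Bool) : W t w = log (S w) + t * c1 w := rfl

/-- Repetition of `w` followed by `01`. -/
def pw (w : List Bool) : ℕ → List Bool
  | 0 => []
  | k + 1 => w ++ [false, true] ++ pw w k

lemma log_S_pw (w v : List Bool) (k : ℕ) : k * log (S w) + log (S v) ≤ log (S (pw w k ++ v)) := by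
  induction k with
  | zero => simp [pw]
  | succ k ih =>
    have h := log_le_log (mul_pos (S_pos _) (S_pos _)) (S_mid w (pw w k ++ v))
    rw [log_mul (S_pos _).ne' (S_pos _).ne'] at h
    have e : pw w (k + 1) ++ v = w ++ [false, true] ++ (pw w k ++ v) := by
      simp [pw]
    rw [e]
    push_cast
    linarith

lemma len_pw (w : List Bool) (k : ℕ) : (pw w k).length = k * (w.length + 2) := by
  induction k with
  | zero => simp [pw]
  | succ k ih => simp [pw, ih]; ring

lemma count_pw (w : List Bool) (k : ℕ) : (pw w k).count true = k * (w.count true + 1) := by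
  induction k with
  | zero => simp [pw]
  | succ k ih => simp [pw, ih, List.count_append]; ring

/-- If `u` belongs to a Christoffel pair and a combination of two words (each followed by `01`)
has the direction of `u`, then the growth rates satisfy the concavity inequality. -/
lemma concave_aux {u v : List Bool} (h : Reach u v) (w w' : List Bool) (i j : ℕ) (hj : 1 ≤ j)
    (hdir : (i * (w.length + 2) + j * (w'.length + 2)) * u.count true =
      (i * (w.count true + 1) + j * (w'.count true + 1)) * u.length) :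
    ∃ a : ℕ, a * u.length = i * (w.length + 2) + j * (w'.length + 2) ∧
      a * u.count true = i * (w.count true + 1) + j * (w'.count true + 1) ∧
      i * log (S w) + j * log (S w') ≤ a * L u + log 2 := by
  obtain ⟨j, rfl⟩ : ∃ j', j = j' + 1 := ⟨j - 1, by omega⟩
  set M := i * (w.length + 2) + (j + 1) * (w'.length + 2) with hM
  set C := i * (w.count true + 1) + (j + 1) * (w'.count true + 1) with hC
  have hcop : IsCoprime (u.length : ℤ) (u.count true : ℤ) := by
    rcases h.det with hd | hd
    · exact ⟨v.count true, -v.length, by linarith⟩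
    · exact ⟨-v.count true, v.length, by linarith⟩
  have hcop2 : Nat.Coprime u.length (u.count true) := Nat.isCoprime_iff_coprime.mp hcop
  have hdvd : u.length ∣ M := by
    apply hcop2.dvd_of_dvd_mul_right
    rw [hdir]
    exact Dvd.intro_left _ rfl
  obtain ⟨a, ha⟩ := hdvd
  have hlen := h.len_pos.1
  have hlen' : 1 ≤ u.length := by
    rw [ln] at hlen; exact_mod_cast hlen
  have haC : C = u.count true * a := by
    have : C * u.length = (u.count true * a) * u.length := by rw [← hdir, ha]; ring
    exact Nat.eq_of_mul_eq_mul_right hlen' this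
  refine ⟨a, by rw [ha]; ring, by rw [haC]; ring, ?_⟩
  set X := pw w i ++ (pw w' j ++ w') with hX
  have hlX : (X ++ [false, true]).length = a * u.length := by
    rw [hX, mul_comm, ← ha, hM]
    simp [len_pw]; ring
  have hcX : (X ++ [false, true]).count true = a * u.count true := by
    rw [hX, mul_comm, ← haC, hC]
    simp [count_pw, List.count_append]; ring
  have hc0 : (X ++ [false, true]).count false = a * u.count false := by
    have e1 := List.count_false_add_count_true (X ++ [false, true])
    have e2 := List.count_false_add_count_true u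
    rw [hlX, hcX] at e1
    have e3 : a * u.count false + a * u.count true = a * u.length := by rw [← mul_add, e2]
    omega
  have h1 := cone_pow h a _ hc0 hcX
  have h2 := log_le_log (S_pos _) (S_le_T X)
  have h3 := log_S_pw w (pw w' j ++ w') i
  have h4 := log_S_pw w' w' j
  rw [← hX] at h3
  push_cast
  linarith

/-- Long words with ratio at most `ρ` and nearly maximal weight. -/
def FamLow (t ρ : ℝ) : Prop :=
  ∀ ε > 0, ∀ N : ℕ, ∃ w : List Bool, (N : ℝ) ≤ ln w ∧ c1 w ≤ ρ * ln w ∧ ln w * (P t - ε) ≤ W t w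

/-- Long words with ratio at least `ρ` and nearly maximal weight. -/
def FamHigh (t ρ : ℝ) : Prop :=
  ∀ ε > 0, ∀ N : ℕ, ∃ w : List Bool, (N : ℝ) ≤ ln w ∧ ρ * ln w ≤ c1 w ∧ ln w * (P t - ε) ≤ W t w

set_option maxHeartbeats 1600000 in
lemma key_Y {t ρ₁ ρ₂ : ℝ} (hL : FamLow t ρ₁) (hH : FamHigh t ρ₂) {u v : List Bool}
    (h : Reach u v) (h1 : ρ₁ * ln u < c1 u) (h2 : c1 u < ρ₂ * ln u) :
    ln u * P t ≤ L u + t * c1 u := by
  have hlu : 1 ≤ ln u := h.len_pos.1
  have hlu0 : 0 < ln u := by linarith
  by_contra hcon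
  push Not at hcon
  set η := ln u * P t - L u - t * c1 u with hη
  have hη0 : 0 < η := by linarith
  -- choose parameters
  set D := |2 * P t - t| + 1 with hD
  have hD0 : 0 < D := by positivity
  set ε := η / (4 * ln u) with hε
  have hε0 : 0 < ε := by positivity
  -- gap of directions
  obtain ⟨N0, hN0⟩ := exists_nat_gt (D * ln u * 4 / η)
  obtain ⟨N1, hN1⟩ := exists_nat_gt (ln u / (c1 u - ρ₁ * ln u))
  obtain ⟨N2, hN2⟩ := exists_nat_gt (2 * c1 u / (ρ₂ * ln u - c1 u))
  set N := N0 + N1 + N2 with hN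
  obtain ⟨w, hw1, hw2, hw3⟩ := hL ε hε0 N
  obtain ⟨w', hv1, hv2, hv3⟩ := hH ε hε0 N
  have hNN0 : (N0 : ℝ) ≤ N := by rw [hN]; push_cast; linarith [(Nat.cast_nonneg N1 : (0:ℝ) ≤ N1), (Nat.cast_nonneg N2 : (0:ℝ) ≤ N2)]
  have hNN1 : (N1 : ℝ) ≤ N := by rw [hN]; push_cast; linarith [(Nat.cast_nonneg N0 : (0:ℝ) ≤ N0), (Nat.cast_nonneg N2 : (0:ℝ) ≤ N2)]
  have hNN2 : (N2 : ℝ) ≤ N := by rw [hN]; push_cast; linarith [(Nat.cast_nonneg N0 : (0:ℝ) ≤ N0), (Nat.cast_nonneg N1 : (0:ℝ) ≤ N1)]
  have hlw : ln u / (c1 u - ρ₁ * ln u) < ln w := by linarith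
  have hlv : 2 * c1 u / (ρ₂ * ln u - c1 u) < ln w' := by linarith
  rw [div_lt_iff₀ (by linarith)] at hlw hlv
  have hc0 : 0 ≤ c1 u := c1_nonneg u
  -- opposite sides
  have m1 : c1 w * ln u ≤ ρ₁ * ln w * ln u := mul_le_mul_of_nonneg_right hw2 hlu0.le
  have m2 : ρ₂ * ln w' * ln u ≤ c1 w' * ln u := mul_le_mul_of_nonneg_right hv2 hlu0.le
  have hA : (c1 w + 1) * ln u < (ln w + 2) * c1 u := by linarith
  have hB : (ln w' + 2) * c1 u < (c1 w' + 1) * ln u := by linarith
  have hA' : (w.count true + 1) * u.length < (w.length + 2) * u.count true := by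
    rw [c1, ln, ln, c1] at hA; exact_mod_cast hA
  have hB' : (w'.length + 2) * u.count true < (w'.count true + 1) * u.length := by
    rw [c1, ln, ln, c1] at hB; exact_mod_cast hB
  obtain ⟨j, hj⟩ := Nat.exists_eq_add_of_lt hA'
  obtain ⟨i, hi⟩ := Nat.exists_eq_add_of_lt hB'
  -- i' = i + 1, j' = j + 1
  have hdir : ((i + 1) * (w.length + 2) + (j + 1) * (w'.length + 2)) * u.count true =
      ((i + 1) * (w.count true + 1) + (j + 1) * (w'.count true + 1)) * u.length := by
    calc ((i + 1) * (w.length + 2) + (j + 1) * (w'.length + 2)) * u.count true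
        = (i + 1) * ((w.length + 2) * u.count true) +
          (j + 1) * ((w'.length + 2) * u.count true) := by ring
      _ = (i + 1) * ((w.count true + 1) * u.length + j + 1) +
          (j + 1) * ((w'.length + 2) * u.count true) := by rw [hj]
      _ = (i + 1) * ((w.count true + 1) * u.length) +
          (j + 1) * ((w'.length + 2) * u.count true + i + 1) := by ring
      _ = (i + 1) * ((w.count true + 1) * u.length) +
          (j + 1) * ((w'.count true + 1) * u.length) := by rw [← hi]
      _ = _ := by ring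
  obtain ⟨a, ha1, ha2, hle⟩ := concave_aux h w w' (i + 1) (j + 1) (by omega) hdir
  have ra1 : (a : ℝ) * ln u = (i + 1) * (ln w + 2) + (j + 1) * (ln w' + 2) := by
    rw [ln, ln, ln]; exact_mod_cast ha1
  have ra2 : (a : ℝ) * c1 u = (i + 1) * (c1 w + 1) + (j + 1) * (c1 w' + 1) := by
    rw [c1, c1, c1]; exact_mod_cast ha2
  rw [W_eq] at hw3 hv3
  have hi0 : (0 : ℝ) ≤ i := Nat.cast_nonneg i
  have hj0 : (0 : ℝ) ≤ j := Nat.cast_nonneg j
  push_cast at hle
  have s1 : (i + 1 : ℝ) * (ln w * (P t - ε) - t * c1 w) ≤ (i + 1) * log (S w) :=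
    mul_le_mul_of_nonneg_left (by linarith) (by linarith)
  have s2 : (j + 1 : ℝ) * (ln w' * (P t - ε) - t * c1 w') ≤ (j + 1) * log (S w') :=
    mul_le_mul_of_nonneg_left (by linarith) (by linarith)
  -- total
  set k : ℝ := (i + 1) + (j + 1) with hk
  have e1 : (i + 1 : ℝ) * ln w + (j + 1) * ln w' = a * ln u - 2 * k := by rw [ra1, hk]; ring
  have e2 : (i + 1 : ℝ) * c1 w + (j + 1) * c1 w' = a * c1 u - k := by rw [ra2, hk]; ring
  have tot : (a * ln u - 2 * k) * (P t - ε) - t * (a * c1 u - k) ≤ a * L u + log 2 := by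
    rw [← e1, ← e2]; linarith
  have hlog2 : log 2 ≤ 1 := by
    have := Real.log_two_lt_d9; linarith
  have hk2 : 2 ≤ k := by rw [hk]; linarith
  have habs : k * (2 * P t - t) ≤ k * |2 * P t - t| :=
    mul_le_mul_of_nonneg_left (le_abs_self _) (by linarith)
  have f1 : a * η ≤ a * ln u * ε + k * D := by
    have g0 : 0 ≤ 2 * k * ε := by positivity
    have expand : (a * ln u - 2 * k) * (P t - ε) - t * (a * c1 u - k) =
        a * (ln u * P t - L u - t * c1 u) + a * L u - a * ln u * ε - k * (2 * P t - t) +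
          2 * k * ε := by ring
    rw [expand, ← hη] at tot
    have hkD : k * D = k * |2 * P t - t| + k := by rw [hD]; ring
    rw [hkD]
    linarith
  have f2 : k * (N + 2) ≤ a * ln u := by
    rw [ra1, hk]
    have m3 : (i + 1 : ℝ) * N ≤ (i + 1) * ln w := mul_le_mul_of_nonneg_left hw1 (by linarith)
    have m4 : (j + 1 : ℝ) * N ≤ (j + 1) * ln w' := mul_le_mul_of_nonneg_left hv1 (by linarith)
    linarith
  have hk0 : 0 < k := by linarith
  have hapos : (0 : ℝ) < a := by
    have : 0 < a * ln u := lt_of_lt_of_le (by positivity) f2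
    exact (pos_iff_pos_of_mul_pos this).mpr hlu0
  have f3 : a * ln u * ε = a * η / 4 := by rw [hε]; field_simp
  have f4 : k * D * 4 ≤ a * η := by
    have g1 : D * ln u * 4 < N * η := by
      rw [div_lt_iff₀ hη0] at hN0
      have m5 : (N0 : ℝ) * η ≤ N * η := mul_le_mul_of_nonneg_right hNN0 hη0.le
      linarith
    have g2 : k * (D * ln u * 4) ≤ k * (N * η) := mul_le_mul_of_nonneg_left g1.le (by linarith)
    have g3 : k * N * η ≤ a * ln u * η := by
      apply mul_le_mul_of_nonneg_right _ hη0.le
      linarith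
    have g4 : (k * D * 4) * ln u ≤ (a * η) * ln u := by linarith
    exact le_of_mul_le_mul_right g4 hlu0
  linarith [mul_pos hapos hη0]

/-- Nearly optimal words cannot have two different ratios. -/
theorem key_X {t ρ₁ ρ₂ : ℝ} (h0 : 0 ≤ ρ₁) (h12 : ρ₁ < ρ₂) (h2 : ρ₂ ≤ 1) (hL : FamLow t ρ₁)
    (hH : FamHigh t ρ₂) : False := by
  obtain ⟨p, q, h, ⟨hp1, hp2⟩, ⟨hq1, hq2⟩⟩ := exists_pair h0 h12 h2
  have e1 := key_Y hL hH h hp1 hp2
  have e2 := key_Y hL hH h.swap hq1 hq2
  have e3 := L_le t (p ++ q)
  have e4 := L_super h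
  have e5 : ((p ++ q).length : ℝ) = ln p + ln q := ln_append p q
  have e6 : ((p ++ q).count true : ℝ) = c1 p + c1 q := c1_append p q
  rw [e5, e6] at e3
  nlinarith

/-! ### Existence -/

lemma famLow_of_sub {t γ : ℝ} (hmin : ∀ t', P t + γ * (t' - t) ≤ P t') {ρ : ℝ} (hρ : γ < ρ) :
    FamLow t ρ := by
  intro ε hε N
  set δ := ε / (|γ| + 1) with hδ
  have hδ0 : 0 < δ := by positivity
  have hm := hmin (t - δ)
  obtain ⟨M, hM⟩ := exists_nat_gt ((2 * P t - t) / (δ * (ρ - γ)))
  obtain ⟨w, hw, h⟩ := exists_opt (t - δ) (N + M)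
  have hlw : ln w = N + M := by rw [ln, hw]; push_cast; ring
  have hle := W_le t w
  have hrel : W (t - δ) w = W t w - δ * c1 w := by rw [W_eq, W_eq]; ring
  rw [hrel] at h
  push_cast at h
  have hln : (w.length : ℝ) = ln w := rfl
  rw [hln] at hle
  have hN : (0 : ℝ) ≤ N := Nat.cast_nonneg N
  have hM0 : (0 : ℝ) ≤ M := Nat.cast_nonneg M
  rw [← hlw] at h
  have hl0 : 0 ≤ ln w := by rw [hlw]; positivity
  have hmul : ln w * (P t + γ * (t - δ - t)) ≤ ln w * P (t - δ) :=
    mul_le_mul_of_nonneg_left hm hl0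
  refine ⟨w, by rw [hlw]; linarith, ?_, ?_⟩
  · rw [div_lt_iff₀ (mul_pos hδ0 (by linarith))] at hM
    have : M * (δ * (ρ - γ)) ≤ ln w * (δ * (ρ - γ)) := by
      apply mul_le_mul_of_nonneg_right _ (mul_pos hδ0 (by linarith)).le
      rw [hlw]; linarith
    have h3 : δ * c1 w ≤ δ * (ρ * ln w) := by nlinarith
    exact le_of_mul_le_mul_left h3 hδ0
  · have h4 : ln w * (γ * δ) ≤ ln w * ε := by
      apply mul_le_mul_of_nonneg_left _ hl0
      calc γ * δ ≤ (|γ| + 1) * δ := by
            apply mul_le_mul_of_nonneg_right _ hδ0.le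
            linarith [le_abs_self γ]
        _ = ε := by rw [hδ]; field_simp
    have h5 : 0 ≤ δ * c1 w := mul_nonneg hδ0.le (c1_nonneg w)
    nlinarith

lemma famHigh_of_sub {t γ : ℝ} (hmin : ∀ t', P t + γ * (t' - t) ≤ P t') {ρ : ℝ} (hρ : ρ < γ) :
    FamHigh t ρ := by
  intro ε hε N
  set δ := ε / (|1 - γ| + 1) with hδ
  have hδ0 : 0 < δ := by positivity
  have hm := hmin (t + δ)
  obtain ⟨M, hM⟩ := exists_nat_gt ((2 * P t - t) / (δ * (γ - ρ)))
  obtain ⟨w, hw, h⟩ := exists_opt (t + δ) (N + M)
  have hlw : ln w = N + M := by rw [ln, hw]; push_cast; ring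
  have hle := W_le t w
  have hrel : W (t + δ) w = W t w + δ * c1 w := by rw [W_eq, W_eq]; ring
  rw [hrel] at h
  push_cast at h
  have hln : (w.length : ℝ) = ln w := rfl
  rw [hln] at hle
  have hN : (0 : ℝ) ≤ N := Nat.cast_nonneg N
  have hM0 : (0 : ℝ) ≤ M := Nat.cast_nonneg M
  rw [← hlw] at h
  have hl0 : 0 ≤ ln w := by rw [hlw]; positivity
  have hmul : ln w * (P t + γ * (t + δ - t)) ≤ ln w * P (t + δ) :=
    mul_le_mul_of_nonneg_left hm hl0
  refine ⟨w, by rw [hlw]; linarith, ?_, ?_⟩
  · rw [div_lt_iff₀ (mul_pos hδ0 (by linarith))] at hM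
    have : M * (δ * (γ - ρ)) ≤ ln w * (δ * (γ - ρ)) := by
      apply mul_le_mul_of_nonneg_right _ (mul_pos hδ0 (by linarith)).le
      rw [hlw]; linarith
    have h3 : δ * (ρ * ln w) ≤ δ * c1 w := by nlinarith
    exact le_of_mul_le_mul_left h3 hδ0
  · have h4 : ln w * ((1 - γ) * δ) ≤ ln w * ε := by
      apply mul_le_mul_of_nonneg_left _ hl0
      calc (1 - γ) * δ ≤ (|1 - γ| + 1) * δ := by
            apply mul_le_mul_of_nonneg_right _ hδ0.le
            linarith [le_abs_self (1 - γ)]
        _ = ε := by rw [hδ]; field_simp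
    have h5 : δ * c1 w ≤ δ * ln w := mul_le_mul_of_nonneg_left (c1_le_ln w) hδ0.le
    nlinarith

lemma ln_pre (x : ℕ → Bool) (n : ℕ) : ln (pre x n) = n := by rw [ln, pre_length]

/-- At a weight where the pressure has slope `γ`, every extremal word has ratio `γ`. -/
theorem ratio_tendsto {t γ : ℝ} (h0 : 0 < γ) (h1 : γ < 1)
    (hmin : ∀ t', P t + γ * (t' - t) ≤ P t') (x : ℕ → Bool)
    (hx : Tendsto (fun n : ℕ => W t (pre x n) / n) atTop (𝓝 (P t))) :
    Tendsto (fun n : ℕ => c1 (pre x n) / n) atTop (𝓝 γ) := by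
  have upper : ∀ ρ, γ < ρ → ρ ≤ 1 → ∀ᶠ n : ℕ in atTop, c1 (pre x n) / n < ρ := by
    intro ρ hρ hρ1
    by_contra hcon
    rw [Filter.not_eventually] at hcon
    have hL := famLow_of_sub hmin (show γ < (γ + ρ) / 2 by linarith)
    refine key_X (by linarith) (show (γ + ρ) / 2 < ρ by linarith) hρ1 hL ?_
    intro ε hε N
    have hev := (tendsto_order.1 hx).1 (P t - ε) (by linarith)
    obtain ⟨n, hn1, hn2, hn3⟩ := (hcon.and_eventually (hev.and (eventually_gt_atTop N))).exists
    have hn0 : (0 : ℝ) < n := by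
      have : 0 < n := by omega
      exact_mod_cast this
    push Not at hn1
    rw [le_div_iff₀ hn0] at hn1
    rw [lt_div_iff₀ hn0] at hn2
    refine ⟨pre x n, ?_, ?_, ?_⟩
    · rw [ln_pre]; exact_mod_cast hn3.le
    · rw [ln_pre]; exact hn1
    · rw [ln_pre]; linarith
  have lower : ∀ ρ, ρ < γ → 0 ≤ ρ → ∀ᶠ n : ℕ in atTop, ρ < c1 (pre x n) / n := by
    intro ρ hρ hρ1
    by_contra hcon
    rw [Filter.not_eventually] at hcon
    have hL := famHigh_of_sub hmin (show (γ + ρ) / 2 < γ by linarith)
    refine key_X hρ1 (show ρ < (γ + ρ) / 2 by linarith) (by linarith) ?_ hL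
    intro ε hε N
    have hev := (tendsto_order.1 hx).1 (P t - ε) (by linarith)
    obtain ⟨n, hn1, hn2, hn3⟩ := (hcon.and_eventually (hev.and (eventually_gt_atTop N))).exists
    have hn0 : (0 : ℝ) < n := by
      have : 0 < n := by omega
      exact_mod_cast this
    push Not at hn1
    rw [div_le_iff₀ hn0] at hn1
    rw [lt_div_iff₀ hn0] at hn2
    refine ⟨pre x n, ?_, ?_, ?_⟩
    · rw [ln_pre]; exact_mod_cast hn3.le
    · rw [ln_pre]; exact hn1
    · rw [ln_pre]; linarith
  rw [tendsto_order]
  constructor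
  · intro a ha
    rcases le_or_gt 0 a with h | h
    · exact lower a ha h
    · filter_upwards with n
      exact lt_of_lt_of_le h (div_nonneg (c1_nonneg _) (Nat.cast_nonneg n))
  · intro a ha
    rcases le_or_gt a 1 with h | h
    · exact upper a ha h
    · filter_upwards [upper ((γ + 1) / 2) (by linarith) (by linarith)] with n hn
      linarith

/-- For `0 < γ < 1/2` the function `P t - γ t` has a minimiser `t ≤ 0`. -/
theorem exists_min {γ : ℝ} (h0 : 0 < γ) (h1 : γ < 1 / 2) :
    ∃ t ≤ 0, ∀ t', P t + γ * (t' - t) ≤ P t' := by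
  set R := P 0 / γ with hR
  have hR0 : 0 ≤ R := div_nonneg (P_nonneg 0) h0.le
  have hcont : ContinuousOn (fun t => P t - γ * t) (Set.Icc (-R) 0) :=
    (P_cont.sub (continuous_const.mul continuous_id)).continuousOn
  obtain ⟨t, ht, hmin⟩ := isCompact_Icc.exists_isMinOn ⟨0, by constructor <;> linarith⟩ hcont
  have hneg : ∀ t' ≤ 0, P t - γ * t ≤ P t' - γ * t' := by
    intro t' ht'
    rcases le_or_gt (-R) t' with h | h
    · exact hmin ⟨h, ht'⟩
    · have h2 : P t - γ * t ≤ P 0 - γ * 0 := hmin ⟨by linarith, le_rfl⟩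
      have h3 : P 0 = γ * R := by rw [hR]; field_simp
      have h4 := P_nonneg t'
      nlinarith
  refine ⟨t, ht.2, ?_⟩
  intro t'
  rcases le_or_gt t' 0 with h | h
  · have := hneg t' h
    linarith
  · have h2 := hneg (-t') (by linarith)
    have h3 := P_symm t'
    nlinarith

/-! ### Uniqueness -/

/-- An extremal word for `t` with ratio `γ` bounds the pressure from below. -/
lemma slope_le {t γ : ℝ} (x : ℕ → Bool)
    (hx : Tendsto (fun n : ℕ => W t (pre x n) / n) atTop (𝓝 (P t)))
    (hr : Tendsto (fun n : ℕ => c1 (pre x n) / n) atTop (𝓝 γ)) (t' : ℝ) :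
    P t + γ * (t' - t) ≤ P t' := by
  have h1 : Tendsto (fun n : ℕ => W t (pre x n) / n + c1 (pre x n) / n * (t' - t)) atTop
      (𝓝 (P t + γ * (t' - t))) := hx.add (hr.mul_const _)
  have h2 : Tendsto (fun n : ℕ => P t' + (2 * P t' - t') / n) atTop (𝓝 (P t' + 0)) :=
    tendsto_const_nhds.add (tendsto_const_div_atTop_nhds_zero_nat _)
  rw [add_zero] at h2
  refine le_of_tendsto_of_tendsto h1 h2 ?_
  filter_upwards [eventually_gt_atTop 0] with n hn
  have hn0 : (0 : ℝ) < n := by exact_mod_cast hn
  have h3 := W_le t' (pre x n)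
  rw [pre_length] at h3
  have h4 : W t' (pre x n) = W t (pre x n) + c1 (pre x n) * (t' - t) := by
    rw [W_eq, W_eq]; ring
  have h5 : W t (pre x n) / n + c1 (pre x n) / n * (t' - t) =
      (W t (pre x n) + c1 (pre x n) * (t' - t)) / n := by ring
  have h6 : P t' + (2 * P t' - t') / n = (n * P t' + (2 * P t' - t')) / n := by field_simp
  rw [h5, h6, ← h4]
  apply div_le_div_of_nonneg_right _ hn0.le
  linarith

set_option maxHeartbeats 1600000 in
lemma uniq_aux {t t' γ m c : ℝ} (hm : 3 ≤ m)
    (hslope : P t' = P t + γ * (t' - t)) (x : ℕ → Bool)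
    (hx : Tendsto (fun n : ℕ => W t (pre x n) / n) atTop (𝓝 (P t)))
    (hr : Tendsto (fun n : ℕ => c1 (pre x n) / n) atTop (𝓝 γ))
    {p q : List Bool} {s r : ℝ} (h : At γ m c p q s r)
    (hdet : ln p * c1 q - ln q * c1 p = 1) :
    t' - t ≤ (ln p + ln q) * (2 * exp (-(L p + L q))) := by
  set E := 2 * exp (-(L p + L q)) with hE
  have hE0 : 0 < E := by positivity
  -- integer coordinates
  have hdetZ : (p.length : ℤ) * q.count true - q.length * p.count true = 1 := by
    rw [ln, ln, c1, c1] at hdet; exact_mod_cast hdet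
  set A : ℕ → ℝ := fun n => (n + 2) * c1 q - (c1 (pre x n) + 1) * ln q with hA
  set Bn : ℕ → ℝ := fun n => (c1 (pre x n) + 1) * ln p - (n + 2) * c1 p with hB
  have hs : c1 q - γ * ln q = s := by
    rw [← h.h2]
    linear_combination (-(c1 q)) * h.h1 + s * hdet
  have hrr : γ * ln p - c1 p = r := by
    rw [← h.h2]
    linear_combination (c1 p) * h.h1 + r * hdet
  have limA : Tendsto (fun n : ℕ => A n / n) atTop (𝓝 s) := by
    have e : Tendsto (fun n : ℕ => c1 q - c1 (pre x n) / n * ln q + (2 * c1 q - ln q) / n) atTop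
        (𝓝 (c1 q - γ * ln q + 0)) :=
      (tendsto_const_nhds.sub (hr.mul_const _)).add (tendsto_const_div_atTop_nhds_zero_nat _)
    rw [add_zero, hs] at e
    refine e.congr' ?_
    filter_upwards [eventually_gt_atTop 0] with n hn
    have hn0 : (0 : ℝ) < n := by exact_mod_cast hn
    simp only [hA]
    field_simp
    ring
  have limB : Tendsto (fun n : ℕ => Bn n / n) atTop (𝓝 r) := by
    have e : Tendsto (fun n : ℕ => c1 (pre x n) / n * ln p - c1 p + (ln p - 2 * c1 p) / n) atTop
        (𝓝 (γ * ln p - c1 p + 0)) :=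
      ((hr.mul_const _).sub tendsto_const_nhds).add (tendsto_const_div_atTop_nhds_zero_nat _)
    rw [add_zero, hrr] at e
    refine e.congr' ?_
    filter_upwards [eventually_gt_atTop 0] with n hn
    have hn0 : (0 : ℝ) < n := by exact_mod_cast hn
    simp only [hB]
    field_simp
    ring
  -- main estimate
  have main : ∀ᶠ n : ℕ in atTop, W t (pre x n) ≤ n * P t + (2 * P t - t + log 2) -
      Bn n * ((t' - t) * s) + min (A n) (Bn n) * E := by
    have evA := (tendsto_order.1 limA).1 0 h.hs
    have evB := (tendsto_order.1 limB).1 0 h.hr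
    filter_upwards [evA, evB, eventually_gt_atTop 0] with n hnA hnB hn
    have hn0 : (0 : ℝ) < n := by exact_mod_cast hn
    have hApos : 0 < A n := by
      by_contra hc
      push Not at hc
      exact absurd hnA (not_lt.mpr (div_nonpos_of_nonpos_of_nonneg hc hn0.le))
    have hBpos : 0 < Bn n := by
      by_contra hc
      push Not at hc
      exact absurd hnB (not_lt.mpr (div_nonpos_of_nonpos_of_nonneg hc hn0.le))
    set w := pre x n ++ [false, true] with hw
    have hlw : w.length = n + 2 := by rw [hw]; simp [pre_length]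
    have hcw : w.count true = (pre x n).count true + 1 := by rw [hw]; simp
    -- naturals
    have hAz : A n = (((n + 2 : ℤ) * q.count true - ((pre x n).count true + 1) * q.length : ℤ) : ℝ) := by
      simp only [hA, c1, ln]; push_cast; ring
    have hBz : Bn n = ((((pre x n).count true + 1 : ℤ) * p.length - (n + 2) * p.count true : ℤ) : ℝ) := by
      simp only [hB, c1, ln]; push_cast; ring
    have hAz0 : 0 ≤ (n + 2 : ℤ) * q.count true - ((pre x n).count true + 1) * q.length := by
      rw [hAz] at hApos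
      exact (Int.cast_pos.mp hApos).le
    have hBz0 : 0 ≤ ((pre x n).count true + 1 : ℤ) * p.length - (n + 2) * p.count true := by
      rw [hBz] at hBpos
      exact (Int.cast_pos.mp hBpos).le
    obtain ⟨a, ha⟩ := Int.eq_ofNat_of_zero_le hAz0
    obtain ⟨b, hb⟩ := Int.eq_ofNat_of_zero_le hBz0
    have hAa : A n = a := by rw [hAz, ha]; simp
    have hBb : Bn n = b := by rw [hBz, hb]; simp
    have hlen : (w.length : ℤ) = a * p.length + b * q.length := by
      rw [hlw, ← ha, ← hb]
      push_cast
      linear_combination (-(n + 2 : ℤ)) * hdetZ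
    have hcnt : (w.count true : ℤ) = a * p.count true + b * q.count true := by
      rw [hcw, ← ha, ← hb]
      push_cast
      linear_combination (-((pre x n).count true + 1 : ℤ)) * hdetZ
    have hlenN : w.length = a * p.length + b * q.length := by exact_mod_cast hlen
    have hcntN : w.count true = a * p.count true + b * q.count true := by exact_mod_cast hcnt
    have hc0 : w.count false = a * p.count false + b * q.count false := by
      have e1 := List.count_false_add_count_true w
      have e2 := List.count_false_add_count_true p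
      have e3 := List.count_false_add_count_true q
      rw [hlenN, hcntN, ← e2, ← e3] at e1
      have e4 : w.count false + (a * p.count true + b * q.count true) =
        (a * p.count false + b * q.count false) + (a * p.count true + b * q.count true) := by
        rw [e1]; ring
      omega
    have hst := star h.reach (hm.trans h.hp) (hm.trans h.hq) a b w hc0 hcntN
    have hS := log_le_log (S_pos _) (S_le_T (pre x n))
    have hLp := L_le t p
    have hLq := L_le t' q
    have e1 : (p.length : ℝ) = ln p := rfl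
    have e2 : (q.length : ℝ) = ln q := rfl
    have e3 : (p.count true : ℝ) = c1 p := rfl
    have e4 : (q.count true : ℝ) = c1 q := rfl
    rw [e1, e3] at hLp
    rw [e2, e4, hslope] at hLq
    have hLq' : L q ≤ ln q * P t - t * c1 q - (t' - t) * s := by
      rw [← hs]; linarith
    have hLp' : L p ≤ ln p * P t - t * c1 p := by linarith
    have ha0 : (0 : ℝ) ≤ a := Nat.cast_nonneg a
    have hb0 : (0 : ℝ) ≤ b := Nat.cast_nonneg b
    have g1 := mul_le_mul_of_nonneg_left hLp' ha0
    have g2 := mul_le_mul_of_nonneg_left hLq' hb0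
    have g3 : (a : ℝ) * ln p + b * ln q = n + 2 := by
      have : ((w.length : ℕ) : ℝ) = a * ln p + b * ln q := by
        rw [ln, ln]; exact_mod_cast hlenN
      rw [← this, hlw]; push_cast; ring
    have g4 : (a : ℝ) * c1 p + b * c1 q = c1 (pre x n) + 1 := by
      have : ((w.count true : ℕ) : ℝ) = a * c1 p + b * c1 q := by
        rw [c1, c1]; exact_mod_cast hcntN
      rw [← this, hcw, c1]; push_cast; ring
    have g5 : ((min a b : ℕ) : ℝ) = min (A n) (Bn n) := by
      rw [hAa, hBb]; push_cast; rfl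
    rw [g5] at hst
    rw [W_eq]
    rw [hAa, hBb] at hst ⊢
    have g6 : a * (ln p * P t - t * c1 p) + b * (ln q * P t - t * c1 q - (t' - t) * s) =
        (n + 2) * P t - t * (c1 (pre x n) + 1) - b * ((t' - t) * s) := by
      rw [← g3, ← g4]; ring
    linarith
  have lim1 : Tendsto (fun n : ℕ => P t + (2 * P t - t + log 2) / n - Bn n / n * ((t' - t) * s) +
      A n / n * E) atTop (𝓝 (P t + 0 - r * ((t' - t) * s) + s * E)) :=
    ((tendsto_const_nhds.add (tendsto_const_div_atTop_nhds_zero_nat _)).sub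
      (limB.mul_const _)).add (limA.mul_const _)
  have lim2 : Tendsto (fun n : ℕ => P t + (2 * P t - t + log 2) / n - Bn n / n * ((t' - t) * s) +
      Bn n / n * E) atTop (𝓝 (P t + 0 - r * ((t' - t) * s) + r * E)) :=
    ((tendsto_const_nhds.add (tendsto_const_div_atTop_nhds_zero_nat _)).sub
      (limB.mul_const _)).add (limB.mul_const _)
  have k1 : P t ≤ P t + 0 - r * ((t' - t) * s) + s * E := by
    refine le_of_tendsto_of_tendsto hx lim1 ?_
    filter_upwards [main, eventually_gt_atTop 0] with n hn hn1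
    have hn0 : (0 : ℝ) < n := by exact_mod_cast hn1
    rw [div_le_iff₀ hn0]
    have e : (P t + (2 * P t - t + log 2) / n - Bn n / n * ((t' - t) * s) + A n / n * E) * n =
        n * P t + (2 * P t - t + log 2) - Bn n * ((t' - t) * s) + A n * E := by
      field_simp
    rw [e]
    have := mul_le_mul_of_nonneg_right (min_le_left (A n) (Bn n)) hE0.le
    linarith
  have k2 : P t ≤ P t + 0 - r * ((t' - t) * s) + r * E := by
    refine le_of_tendsto_of_tendsto hx lim2 ?_
    filter_upwards [main, eventually_gt_atTop 0] with n hn hn1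
    have hn0 : (0 : ℝ) < n := by exact_mod_cast hn1
    rw [div_le_iff₀ hn0]
    have e : (P t + (2 * P t - t + log 2) / n - Bn n / n * ((t' - t) * s) + Bn n / n * E) * n =
        n * P t + (2 * P t - t + log 2) - Bn n * ((t' - t) * s) + Bn n * E := by
      field_simp
    rw [e]
    have := mul_le_mul_of_nonneg_right (min_le_right (A n) (Bn n)) hE0.le
    linarith
  have j1 : (t' - t) * r ≤ E := by
    have : s * ((t' - t) * r) ≤ s * E := by linarith
    exact le_of_mul_le_mul_left this h.hs
  have j2 : (t' - t) * s ≤ E := by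
    have : r * ((t' - t) * s) ≤ r * E := by linarith
    exact le_of_mul_le_mul_left this h.hr
  have hlp : 0 ≤ ln p := by linarith [h.reach.len_pos.1]
  have hlq : 0 ≤ ln q := by linarith [h.reach.len_pos.2]
  calc t' - t = (t' - t) * s * ln p + (t' - t) * r * ln q := by
        have := h.h1
        linear_combination (-(t' - t)) * this
    _ ≤ E * ln p + E * ln q := by
        have := mul_le_mul_of_nonneg_right j2 hlp
        have := mul_le_mul_of_nonneg_right j1 hlq
        linarith
    _ = (ln p + ln q) * E := by ring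

/-- The pressure is not affine with irrational slope. -/
theorem uniq {t t' γ : ℝ} (hγ : Irrational γ) (h0 : 0 < γ) (h1 : γ < 1 / 2) (htt : t < t')
    (hslope : P t' = P t + γ * (t' - t)) (x : ℕ → Bool)
    (hx : Tendsto (fun n : ℕ => W t (pre x n) / n) atTop (𝓝 (P t)))
    (hr : Tendsto (fun n : ℕ => c1 (pre x n) / n) atTop (𝓝 γ)) : False := by
  obtain ⟨c, hc, p0, q0, s0, r0, hat⟩ := at_start hγ h0 h1
  have hbound : ∀ N : ℕ, ∃ M : ℝ, (N : ℝ) ≤ M ∧ t' - t ≤ M * (2 * exp (-(c * M))) := by
    intro N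
    obtain ⟨p, q, s, r, h, hN⟩ := hat.far hγ N
    refine ⟨ln p + ln q, hN, ?_⟩
    have hexp : exp (-(L p + L q)) ≤ exp (-(c * (ln p + ln q))) := by
      apply exp_le_exp.mpr
      linarith [h.cp, h.cq]
    have hM0 : 0 ≤ ln p + ln q := by linarith [h.reach.len_pos.1, h.reach.len_pos.2]
    have key : t' - t ≤ (ln p + ln q) * (2 * exp (-(L p + L q))) := by
      rcases h.reach.det with hd | hd
      · refine uniq_aux le_rfl hslope x hx hr h ?_
        rw [ln, ln, c1, c1]; exact_mod_cast hd
      · have := uniq_aux le_rfl hslope x hx hr h.swap (by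
          rw [ln, ln, c1, c1]
          have : (q.length : ℤ) * p.count true - p.length * q.count true = 1 := by linarith
          exact_mod_cast this)
        rw [add_comm (ln p), add_comm (L p)]
        exact this
    refine key.trans ?_
    apply mul_le_mul_of_nonneg_left _ hM0
    linarith
  have hlim : Tendsto (fun M : ℝ => M * (2 * exp (-(c * M)))) atTop (𝓝 0) := by
    have e1 := Real.tendsto_pow_mul_exp_neg_atTop_nhds_zero 1
    have e2 : Tendsto (fun M : ℝ => c * M) atTop atTop := tendsto_id.const_mul_atTop hc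
    have e3 := (e1.comp e2).const_mul (2 / c)
    rw [mul_zero] at e3
    refine e3.congr ?_
    intro M
    simp only [Function.comp, pow_one]
    field_simp
  have hev := (tendsto_order.1 hlim).2 (t' - t) (by linarith)
  rw [eventually_atTop] at hev
  obtain ⟨M0, hM0⟩ := hev
  obtain ⟨N, hN⟩ := exists_nat_gt M0
  obtain ⟨M, hM1, hM2⟩ := hbound N
  have := hM0 M (by linarith)
  linarith

end R984.Ratio
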