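import Mathlib

/-!
The averaging process on a finite graph: definitions, expected potentials, edge sums and a
criterion for lower bounds on the second smallest Laplacian eigenvalue.
-/

open scoped ENNReal BigOperators

namespace R984.AvgProc

variable {V : Type} [Fintype V]

open Classical in
/-- Averaging across the edge `e`: both endpoints receive the mean of the two values. -/
noncomputable def avg (v : V → ℝ) (e : Sym2 V) : V → ℝ :=
  fun x => if x ∈ e then (∑ y, if y ∈ e then v y else 0) / 2 else v x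

/-- The state after averaging across `a 0, …, a (t-1)`, in this order. -/
noncomputable def stateAt (v₀ : V → ℝ) : (t : ℕ) → (Fin t → Sym2 V) → V → ℝ
  | 0, _ => v₀
  | t + 1, a => avg (stateAt v₀ t (fun i => a i.castSucc)) (a (Fin.last t))

open Classical in
/-- `E ‖v(t) - v̄‖₁`: the average over all `|E|^t` sequences of `t` edges. -/
noncomputable def expL1 (G : SimpleGraph V) (v₀ : V → ℝ) (t : ℕ) : ℝ :=
  (∑ a : Fin t → G.edgeSet,
    ∑ x, |stateAt v₀ t (fun i => (a i : Sym2 V)) x - (∑ y, v₀ y) / Fintype.card V|) /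
    (Fintype.card G.edgeSet : ℝ) ^ t

/-- The `L¹` mixing time `t_{ε,1}(G)` (`⊤` if there is no such time). -/
noncomputable def mixTime (G : SimpleGraph V) (ε : ℝ) : ℕ∞ :=
  ⨅ (t : ℕ) (_ : ∀ v₀ : V → ℝ, ∑ x, |v₀ x| = 1 → expL1 G v₀ t ≤ ε), (t : ℕ∞)

open Classical in
/-- The second smallest eigenvalue of the Laplacian `D - A` (with multiplicity;
`eigenvalues₀` lists the eigenvalues in decreasing order). -/
noncomputable def lambda2 (G : SimpleGraph V) (hV : 2 ≤ Fintype.card V) : ℝ :=
  (G.isHermitian_lapMatrix (R := ℝ)).eigenvalues₀ ⟨Fintype.card V - 2, by omega⟩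

open Classical in
/-- `γ(G) = |E| / λ₂(G)`. -/
noncomputable def gam (G : SimpleGraph V) (hV : 2 ≤ Fintype.card V) : ℝ :=
  (Fintype.card G.edgeSet : ℝ) / lambda2 G hV

/-! ### Sums over edges -/

open Classical in
lemma sum_dart (G : SimpleGraph V) (g : V → V → ℝ) :
    ∑ d : G.Dart, g d.fst d.snd = ∑ x, ∑ y, if G.Adj x y then g x y else 0 := by
  rw [← Fintype.sum_prod_type' (f := fun x y => if G.Adj x y then g x y else 0),
    ← Finset.sum_filter]
  refine Finset.sum_bij (fun d _ => d.toProd) ?_ ?_ ?_ ?_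
  · intro d _; simp
  · intro d _ d' _ h
    exact SimpleGraph.Dart.ext _ _ h
  · intro b hb
    rw [Finset.mem_filter] at hb
    exact ⟨⟨b, hb.2⟩, Finset.mem_univ _, rfl⟩
  · intro d _; rfl

open Classical in
lemma sum_edges (G : SimpleGraph V) (F : Sym2 V → ℝ) :
    ∑ e : G.edgeSet, F e = (1 / 2) * ∑ x, ∑ y, if G.Adj x y then F s(x, y) else 0 := by
  have h1 : ∑ d : G.Dart, F d.edge = 2 * ∑ e : G.edgeSet, F e := by
    have h2 : ∑ e : G.edgeSet, F e = ∑ e ∈ G.edgeFinset, F e := by
      rw [Finset.sum_subtype G.edgeFinset (p := fun e => e ∈ G.edgeSet)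
        (fun e => SimpleGraph.mem_edgeFinset) F]
    rw [h2, Finset.mul_sum]
    rw [← Finset.sum_fiberwise_of_maps_to (s := (Finset.univ : Finset G.Dart))
      (t := G.edgeFinset) (g := fun d => d.edge) (fun d _ => by
        simp [SimpleGraph.mem_edgeFinset, d.edge_mem])]
    refine Finset.sum_congr rfl (fun e he => ?_)
    rw [SimpleGraph.mem_edgeFinset] at he
    have h3 := G.dart_edge_fiber_card e he
    rw [Finset.sum_congr rfl (g := fun _ => F e)]
    · rw [Finset.sum_const, h3, nsmul_eq_mul]; norm_num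
    · intro d hd
      rw [Finset.mem_filter] at hd
      rw [hd.2]
  have h4 : ∑ d : G.Dart, F d.edge = ∑ x, ∑ y, if G.Adj x y then F s(x, y) else 0 := by
    rw [← sum_dart G (fun x y => F s(x, y))]
    rfl
  rw [← h4, h1]; ring

/-! ### Averaging across one edge -/

open Classical in
lemma avg_pair (v : V → ℝ) (i j : V) (hij : i ≠ j) (x : V) :
    avg v s(i, j) x = if x = i ∨ x = j then (v i + v j) / 2 else v x := by
  unfold avg
  have : (∑ y, if y ∈ s(i, j) then v y else 0) = v i + v j := by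
    rw [← Finset.sum_filter]
    have : Finset.univ.filter (fun y => y ∈ s(i, j)) = {i, j} := by
      ext y; simp
    rw [this, Finset.sum_pair hij]
  rw [this]
  simp [Sym2.mem_iff]

open Classical in
/-- The weighted sum after averaging across `{i,j}`. -/
lemma sum_avg_pair (v φ : V → ℝ) (i j : V) (hij : i ≠ j) :
    ∑ x, φ x * avg v s(i, j) x = ∑ x, φ x * v x - (φ i - φ j) * (v i - v j) / 2 := by
  have h1 : ∀ x, φ x * avg v s(i, j) x = φ x * v x +
      ((if x = i then φ i * ((v j - v i) / 2) else 0) +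
        (if x = j then φ j * ((v i - v j) / 2) else 0)) := by
    intro x
    rw [avg_pair v i j hij]
    by_cases hi : x = i
    · subst hi
      simp only [true_or, if_true, if_neg hij]
      ring
    · by_cases hj : x = j
      · subst hj
        simp only [or_true, if_true, if_neg hi]
        ring
      · simp [hi, hj]
  simp_rw [h1]
  rw [Finset.sum_add_distrib, Finset.sum_add_distrib, Finset.sum_ite_eq' Finset.univ i,
    Finset.sum_ite_eq' Finset.univ j]
  simp only [Finset.mem_univ, if_true]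
  ring

lemma avg_nonneg {v : V → ℝ} (hv : ∀ x, 0 ≤ v x) (e : Sym2 V) (x : V) : 0 ≤ avg v e x := by
  classical
  unfold avg
  split_ifs
  · have : 0 ≤ ∑ y, (if y ∈ e then v y else 0) :=
      Finset.sum_nonneg (fun y _ => by split_ifs <;> simp [hv y])
    linarith
  · exact hv x

lemma sum_avg (G : SimpleGraph V) (v : V → ℝ) (e : G.edgeSet) :
    ∑ x, avg v (e : Sym2 V) x = ∑ x, v x := by
  classical
  obtain ⟨e, he⟩ := e
  induction e with
  | h i j =>
    have hij : i ≠ j := by
      rw [SimpleGraph.mem_edgeSet] at he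
      exact he.ne
    have := sum_avg_pair v (fun _ => 1) i j hij
    simpa using this

open Classical in
/-- One step of the expected potential. -/
lemma sum_edges_potential (G : SimpleGraph V) (v φ : V → ℝ) :
    ∑ e : G.edgeSet, ∑ x, φ x * avg v (e : Sym2 V) x =
      (Fintype.card G.edgeSet : ℝ) * ∑ x, φ x * v x +
        (1 / 2) * ∑ x, v x * ∑ y, (if G.Adj x y then φ y - φ x else 0) := by
  have h0 : ∑ e : G.edgeSet, ∑ x, φ x * avg v (e : Sym2 V) x =
      ∑ e : G.edgeSet, (∑ x, φ x * v x +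
        (fun e : Sym2 V => ∑ x, φ x * avg v e x - ∑ x, φ x * v x) e) := by
    refine Finset.sum_congr rfl (fun e _ => ?_)
    ring
  rw [h0, Finset.sum_add_distrib, Finset.sum_const, Finset.card_univ, nsmul_eq_mul,
    sum_edges G (fun e : Sym2 V => ∑ x, φ x * avg v e x - ∑ x, φ x * v x)]
  congr 1
  have h1 : ∀ x y, (if G.Adj x y then (∑ z, φ z * avg v s(x, y) z - ∑ z, φ z * v z) else 0)
      = (1/2) * (v x * (if G.Adj x y then φ y - φ x else 0))
        + (1/2) * (v y * (if G.Adj y x then φ x - φ y else 0)) := by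
    intro x y
    by_cases h : G.Adj x y
    · rw [if_pos h, if_pos h, if_pos h.symm, sum_avg_pair v φ x y h.ne]
      ring
    · have h' : ¬ G.Adj y x := fun h2 => h h2.symm
      simp [h, h']
  simp_rw [h1, Finset.sum_add_distrib, ← Finset.mul_sum]
  have h2 : ∑ x, ∑ y, v y * (if G.Adj y x then φ x - φ y else 0) =
      ∑ x, v x * ∑ y, (if G.Adj x y then φ y - φ x else 0) := by
    rw [Finset.sum_comm]
    refine Finset.sum_congr rfl (fun x _ => ?_)
    rw [Finset.mul_sum]
  rw [h2]
  ring

/-! ### Sequences of edges -/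

lemma sum_snoc {α : Type} [Fintype α] (t : ℕ) (F : (Fin (t + 1) → α) → ℝ) :
    ∑ a, F a = ∑ a : Fin t → α, ∑ b : α, F (Fin.snoc (α := fun _ => α) a b) := by
  rw [← Fintype.sum_prod_type']
  rw [← (Fin.snocEquiv (fun _ => α)).sum_comp, ← (Equiv.prodComm _ _).sum_comp]
  rfl

lemma stateAt_nonneg (v₀ : V → ℝ) (hv : ∀ x, 0 ≤ v₀ x) (t : ℕ) (a : Fin t → Sym2 V) (x : V) :
    0 ≤ stateAt v₀ t a x := by
  induction t generalizing x with
  | zero => exact hv x
  | succ t ih => exact avg_nonneg (fun x => ih _ x) _ _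

lemma sum_stateAt (G : SimpleGraph V) (v₀ : V → ℝ) (t : ℕ) (a : Fin t → G.edgeSet) :
    ∑ x, stateAt v₀ t (fun i => (a i : Sym2 V)) x = ∑ x, v₀ x := by
  induction t with
  | zero => rfl
  | succ t ih =>
    simp only [stateAt]
    rw [sum_avg G _ (a (Fin.last t))]
    exact ih (fun i => a i.castSucc)

open Classical in
/-- **Potential bound.** If `∑_{y ∼ x} (φ y - φ x) ≤ 2 c φ x` for all `x`, then the average of
`∑ φ v(t)` over all edge sequences is at most `(1 + c/|E|)^t ∑ φ v(0)`, for `v(0) ≥ 0`. -/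
lemma potential_bound (G : SimpleGraph V) (φ : V → ℝ) (c : ℝ) (hc : 0 ≤ c)
    (hφ : ∀ x, ∑ y, (if G.Adj x y then φ y - φ x else 0) ≤ 2 * c * φ x)
    (v₀ : V → ℝ) (hv : ∀ x, 0 ≤ v₀ x) (t : ℕ) :
    ∑ a : Fin t → G.edgeSet, ∑ x, φ x * stateAt v₀ t (fun i => (a i : Sym2 V)) x ≤
      ((Fintype.card G.edgeSet : ℝ) + c) ^ t * ∑ x, φ x * v₀ x := by
  induction t with
  | zero => simp [stateAt]
  | succ t ih =>
    rw [sum_snoc]
    have h1 : ∀ a : Fin t → G.edgeSet, ∑ b : G.edgeSet, ∑ x, φ x * stateAt v₀ (t + 1)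
        (fun i => ((Fin.snoc (α := fun _ => G.edgeSet) a b) i : Sym2 V)) x ≤
        ((Fintype.card G.edgeSet : ℝ) + c) *
          ∑ x, φ x * stateAt v₀ t (fun i => (a i : Sym2 V)) x := by
      intro a
      simp only [stateAt, Fin.snoc_castSucc, Fin.snoc_last]
      rw [sum_edges_potential]
      have h2 : ∑ x, stateAt v₀ t (fun i => (a i : Sym2 V)) x *
          ∑ y, (if G.Adj x y then φ y - φ x else 0) ≤
          ∑ x, 2 * c * (φ x * stateAt v₀ t (fun i => (a i : Sym2 V)) x) := by
        refine Finset.sum_le_sum (fun x _ => ?_)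
        have := mul_le_mul_of_nonneg_left (hφ x)
          (stateAt_nonneg v₀ hv t (fun i => (a i : Sym2 V)) x)
        linarith
      rw [← Finset.mul_sum] at h2
      linarith
    refine (Finset.sum_le_sum (fun a _ => h1 a)).trans ?_
    rw [← Finset.mul_sum, pow_succ]
    have h3 : 0 ≤ (Fintype.card G.edgeSet : ℝ) + c := by positivity
    have := mul_le_mul_of_nonneg_left ih h3
    linarith

/-! ### The second smallest eigenvalue -/

open Classical in
lemma le_lambda2 (G : SimpleGraph V) (hV : 2 ≤ Fintype.card V) (c : ℝ) (hc : 0 < c)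
    (h : ∀ g : V → ℝ, ∃ c₀ : ℝ, c * ∑ x, (g x - c₀) ^ 2 ≤
      (1 / 2) * ∑ x, ∑ y, if G.Adj x y then (g x - g y) ^ 2 else 0) :
    c ≤ lambda2 G hV := by
  set A := G.lapMatrix ℝ with hA
  set H := G.isHermitian_lapMatrix (R := ℝ) with hH
  set n := Fintype.card V with hn
  -- eigenvectors indexed by V
  set E := (Fintype.equivOfCardEq (Fintype.card_fin n) : Fin n ≃ V) with hE
  -- quadratic form
  have hquad : ∀ g : V → ℝ, g ⬝ᵥ (A.mulVec g) =
      (1 / 2) * ∑ x, ∑ y, if G.Adj x y then (g x - g y) ^ 2 else 0 := by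
    intro g
    have := G.lapMatrix_toLinearMap₂' (R := ℝ) g
    rw [Matrix.toLinearMap₂'_apply'] at this
    rw [this]; ring
  -- small eigenvalue implies constant eigenvector
  have hconst : ∀ i : V, H.eigenvalues i < c → ∃ k : ℝ, ∀ x, (H.eigenvectorBasis i) x = k := by
    intro i hi
    set g : V → ℝ := ⇑(H.eigenvectorBasis i) with hg
    set μ := H.eigenvalues i with hμ
    have hev : A.mulVec g = μ • g := H.mulVec_eigenvectorBasis i
    have hq := hquad g
    rw [hev, dotProduct_smul, smul_eq_mul] at hq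
    have hgg : g ⬝ᵥ g = ∑ x, (g x) ^ 2 := by
      simp [dotProduct, sq]
    have hsum : μ * ∑ x, g x = 0 := by
      have h1 : ∑ x, (A.mulVec g) x = 0 := by
        have h2 : ∑ x, (A.mulVec g) x = (fun _ : V => (1:ℝ)) ⬝ᵥ (A.mulVec g) := by
          simp [dotProduct]
        rw [h2, Matrix.dotProduct_mulVec, ← Matrix.mulVec_transpose,
          (G.isSymm_lapMatrix (R := ℝ)).eq]
        have h3 : A.mulVec (fun _ : V => (1:ℝ)) = 0 := G.lapMatrix_mulVec_const_eq_zero (R := ℝ)
        rw [h3]; simp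
      rw [hev] at h1
      simp only [Pi.smul_apply, smul_eq_mul] at h1
      rw [← Finset.mul_sum] at h1
      exact h1
    obtain ⟨c₀, hc₀⟩ := h g
    rw [← hq, hgg] at hc₀
    rcases mul_eq_zero.mp hsum with hμ0 | hs0
    · -- μ = 0
      rw [hμ0, zero_mul] at hc₀
      have h5 : ∑ x, (g x - c₀) ^ 2 ≤ 0 := by
        by_contra hcon
        push Not at hcon
        have := mul_pos hc hcon
        linarith
      have h6 : ∀ x ∈ Finset.univ, (g x - c₀) ^ 2 = 0 := by
        rw [← Finset.sum_eq_zero_iff_of_nonneg (fun x _ => sq_nonneg _)]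
        exact le_antisymm h5 (Finset.sum_nonneg (fun x _ => sq_nonneg _))
      refine ⟨c₀, fun x => ?_⟩
      have := h6 x (Finset.mem_univ x)
      have := pow_eq_zero_iff (two_ne_zero) |>.mp this
      linarith
    · -- sum zero
      have h5 : ∑ x, (g x - c₀) ^ 2 = ∑ x, (g x) ^ 2 + n * c₀ ^ 2 := by
        have : ∀ x, (g x - c₀) ^ 2 = (g x) ^ 2 - 2 * c₀ * g x + c₀ ^ 2 := by intro x; ring
        simp_rw [this]
        rw [Finset.sum_add_distrib, Finset.sum_sub_distrib, ← Finset.mul_sum, hs0]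
        simp [hn]
      rw [h5] at hc₀
      have h6 : 0 ≤ (n:ℝ) * c₀ ^ 2 := by positivity
      have h7 : (c - μ) * ∑ x, (g x) ^ 2 ≤ 0 := by nlinarith [mul_nonneg hc.le h6]
      have h8 : ∑ x, (g x) ^ 2 ≤ 0 := by
        by_contra hcon
        push Not at hcon
        have := mul_pos (sub_pos.mpr hi) hcon
        linarith
      have h6 : ∀ x ∈ Finset.univ, (g x) ^ 2 = 0 := by
        rw [← Finset.sum_eq_zero_iff_of_nonneg (fun x _ => sq_nonneg _)]
        exact le_antisymm h8 (Finset.sum_nonneg (fun x _ => sq_nonneg _))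
      exact ⟨0, fun x => pow_eq_zero_iff (two_ne_zero) |>.mp (h6 x (Finset.mem_univ x))⟩
  by_contra hlt
  push Not at hlt
  let k1 : Fin n := ⟨n - 2, by omega⟩
  let k2 : Fin n := ⟨n - 1, by omega⟩
  have e1 : H.eigenvalues (E k1) < c := by
    have : H.eigenvalues (E k1) = H.eigenvalues₀ k1 := by
      unfold Matrix.IsHermitian.eigenvalues
      congr 1
      exact E.symm_apply_apply k1
    rw [this]
    exact hlt
  have e2 : H.eigenvalues (E k2) < c := by
    have : H.eigenvalues (E k2) = H.eigenvalues₀ k2 := by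
      unfold Matrix.IsHermitian.eigenvalues
      congr 1
      exact E.symm_apply_apply k2
    rw [this]
    refine lt_of_le_of_lt (H.eigenvalues₀_antitone (?_ : k1 ≤ k2)) hlt
    simp only [k1, k2, Fin.mk_le_mk]
    omega
  obtain ⟨a, ha⟩ := hconst _ e1
  obtain ⟨b, hb⟩ := hconst _ e2
  have hne : E k1 ≠ E k2 := by
    intro h
    have := E.injective h
    simp only [k1, k2, Fin.mk.injEq] at this
    omega
  have horth : inner ℝ (H.eigenvectorBasis (E k1)) (H.eigenvectorBasis (E k2)) = 0 :=
    H.eigenvectorBasis.orthonormal.2 hne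
  have hn1 := H.eigenvectorBasis.orthonormal.1 (E k1)
  have hn2 := H.eigenvectorBasis.orthonormal.1 (E k2)
  have hin : inner ℝ (H.eigenvectorBasis (E k1)) (H.eigenvectorBasis (E k2)) = n * (a * b) := by
    rw [PiLp.inner_apply]
    simp only [ha, hb]
    simp [hn, mul_comm]
  rw [hin] at horth
  have hnpos : (0:ℝ) < n := by
    have : 0 < n := by omega
    exact_mod_cast this
  have hab : a * b = 0 := by
    rcases mul_eq_zero.mp horth with h1 | h1
    · exact absurd h1 hnpos.ne'
    · exact h1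
  rcases mul_eq_zero.mp hab with h1 | h1
  · have : H.eigenvectorBasis (E k1) = 0 := by
      ext x; rw [ha x, h1]; rfl
    rw [this, norm_zero] at hn1
    exact zero_ne_one hn1
  · have : H.eigenvectorBasis (E k2) = 0 := by
      ext x; rw [hb x, h1]; rfl
    rw [this, norm_zero] at hn2
    exact zero_ne_one hn2

end R984.AvgProc
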