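import Mathlib
import Pool.Agent.R984.AvgProc

/-!
The graph: a binary tree on `0, …, 2M-1` (the parent of `i` is `i/2`) in which the vertices
`M, …, 2M-1` are made pairwise adjacent.
-/

open scoped ENNReal BigOperators

namespace R984.AvgProc

/-- Binary tree with parent map `i ↦ i/2` on `{0, …, 2M-1}`, plus all edges inside
`{M, …, 2M-1}`. -/
def TC (M : ℕ) : SimpleGraph (Fin (2 * M)) where
  Adj x y := x ≠ y ∧ (x.val = y.val / 2 ∨ y.val = x.val / 2 ∨ (M ≤ x.val ∧ M ≤ y.val))
  symm := ⟨by
    rintro x y ⟨h1, h2⟩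
    refine ⟨h1.symm, ?_⟩
    rcases h2 with h | h | h
    · right; left; exact h
    · left; exact h
    · right; right; exact ⟨h.2, h.1⟩⟩
  loopless := ⟨by
    rintro x ⟨h, _⟩
    exact h rfl⟩

open Classical in
lemma ite_split (M : ℕ) (f : ℕ → ℕ → ℝ) (hf : ∀ x, f x x = 0) (x y : Fin (2 * M)) :
    (if (TC M).Adj x y then f x y else 0) =
      (if M ≤ x.val ∧ M ≤ y.val then f x y else 0) + (if x.val = y.val / 2 then f x y else 0)
        + (if y.val = x.val / 2 then f x y else 0) := by
  have hx := x.2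
  have hy := y.2
  by_cases hxy : x = y
  · subst hxy
    have h1 : ¬ (TC M).Adj x x := (TC M).loopless.irrefl x
    simp [h1, hf]
  · have hxy' : x.val ≠ y.val := fun h => hxy (Fin.ext h)
    by_cases h1 : M ≤ x.val ∧ M ≤ y.val
    · have h2 : ¬ x.val = y.val / 2 := by omega
      have h3 : ¬ y.val = x.val / 2 := by omega
      have h4 : (TC M).Adj x y := ⟨hxy, Or.inr (Or.inr h1)⟩
      rw [if_pos h4, if_pos h1, if_neg h2, if_neg h3]; ring
    · by_cases h2 : x.val = y.val / 2
      · have h3 : ¬ y.val = x.val / 2 := by omega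
        have h4 : (TC M).Adj x y := ⟨hxy, Or.inl h2⟩
        rw [if_pos h4, if_neg h1, if_pos h2, if_neg h3]; ring
      · by_cases h3 : y.val = x.val / 2
        · have h4 : (TC M).Adj x y := ⟨hxy, Or.inr (Or.inl h3)⟩
          rw [if_pos h4, if_neg h1, if_neg h2, if_pos h3]; ring
        · have h4 : ¬ (TC M).Adj x y := by
            rintro ⟨_, h | h | h⟩
            · exact h2 h
            · exact h3 h
            · exact h1 h
          rw [if_neg h4, if_neg h1, if_neg h2, if_neg h3]; ring

lemma sum_half (F : ℕ → ℝ) (M : ℕ) :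
    ∑ i ∈ Finset.range (2 * M), F (i / 2) = 2 * ∑ i ∈ Finset.range M, F i := by
  induction M with
  | zero => simp
  | succ M ih =>
    rw [show 2 * (M + 1) = 2 * M + 1 + 1 by ring, Finset.sum_range_succ, Finset.sum_range_succ, ih,
      Finset.sum_range_succ]
    have h1 : 2 * M / 2 = M := by omega
    have h2 : (2 * M + 1) / 2 = M := by omega
    rw [h1, h2]; ring

/-- The sum over the upper half. -/
lemma sum_upper (F : ℕ → ℝ) (M : ℕ) :
    ∑ i ∈ Finset.range (2 * M), (if M ≤ i then F i else 0) =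
      ∑ i ∈ Finset.range (2 * M), F i - ∑ i ∈ Finset.range M, F i := by
  have h1 : 2 * M = M + M := by ring
  rw [h1, Finset.sum_range_add, Finset.sum_range_add]
  have h2 : ∑ i ∈ Finset.range M, (if M ≤ i then F i else 0) = 0 := by
    refine Finset.sum_eq_zero (fun i hi => ?_)
    rw [Finset.mem_range] at hi
    rw [if_neg (by omega)]
  rw [h2]
  have h3 : ∀ i ∈ Finset.range M, (if M ≤ M + i then F (M + i) else 0) = F (M + i) := by
    intro i _
    rw [if_pos (by omega)]
  rw [Finset.sum_congr rfl h3]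
  ring

/-- Hardy-type inequality on the tree. -/
lemma hardy (g : ℕ → ℝ) (M : ℕ) :
    ∑ i ∈ Finset.range (2 * M), (g i) ^ 2 ≤
      4 * ∑ i ∈ Finset.range (2 * M), (if M ≤ i then (g i) ^ 2 else 0)
        + 6 * ∑ i ∈ Finset.range (2 * M), (g (i / 2) - g i) ^ 2 := by
  rw [sum_upper (fun i => (g i) ^ 2)]
  have h1 : ∑ i ∈ Finset.range (2 * M), (g (i / 2)) ^ 2 ≤
      ∑ i ∈ Finset.range (2 * M), ((3 / 2) * (g i) ^ 2 + 3 * (g (i / 2) - g i) ^ 2) := by
    refine Finset.sum_le_sum (fun i _ => ?_)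
    nlinarith [sq_nonneg (g i - 2 * (g (i / 2) - g i))]
  rw [sum_half (fun i => (g i) ^ 2), Finset.sum_add_distrib, ← Finset.mul_sum,
    ← Finset.mul_sum] at h1
  linarith

lemma sum_sq_sub (w g : ℕ → ℝ) (s : Finset ℕ) :
    ∑ i ∈ s, ∑ j ∈ s, w i * w j * (g i - g j) ^ 2 =
      2 * (∑ i ∈ s, w i) * (∑ i ∈ s, w i * (g i) ^ 2) - 2 * (∑ i ∈ s, w i * g i) ^ 2 := by
  have h1 : ∀ i j, w i * w j * (g i - g j) ^ 2 =
      (w i * (g i) ^ 2) * w j + w i * (w j * (g j) ^ 2) - 2 * ((w i * g i) * (w j * g j)) := by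
    intro i j; ring
  simp_rw [h1, Finset.sum_sub_distrib, Finset.sum_add_distrib, ← Finset.mul_sum,
    ← Finset.sum_mul]
  rw [sq]; ring

open Classical in
/-- The spectral gap of the graph is at least `1/6`. -/
lemma gap (M : ℕ) (hM : 1 ≤ M) (g : Fin (2 * M) → ℝ) : ∃ c₀ : ℝ,
    (1 / 6) * ∑ x, (g x - c₀) ^ 2 ≤
      (1 / 2) * ∑ x, ∑ y, if (TC M).Adj x y then (g x - g y) ^ 2 else 0 := by
  set g' : ℕ → ℝ := fun i => if h : i < 2 * M then g ⟨i, h⟩ else 0 with hg'
  have hgg : ∀ x : Fin (2 * M), g x = g' x.val := by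
    intro x; simp [hg']
  set w : ℕ → ℝ := fun i => if M ≤ i then 1 else 0 with hw
  have hMpos : (0:ℝ) < M := by exact_mod_cast hM
  have hW : ∑ i ∈ Finset.range (2 * M), w i = M := by
    rw [hw, sum_upper (fun _ => (1:ℝ))]
    simp; ring
  set c₀ : ℝ := (∑ i ∈ Finset.range (2 * M), w i * g' i) / M with hc₀
  refine ⟨c₀, ?_⟩
  -- Left side
  have hL : ∑ x, (g x - c₀) ^ 2 = ∑ i ∈ Finset.range (2 * M), (g' i - c₀) ^ 2 := by
    rw [Finset.sum_range]
    exact Finset.sum_congr rfl (fun x _ => by rw [hgg])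
  -- Right side
  have hR : ∑ x, ∑ y, (if (TC M).Adj x y then (g x - g y) ^ 2 else 0) =
      ∑ i ∈ Finset.range (2 * M), ∑ j ∈ Finset.range (2 * M), w i * w j * (g' i - g' j) ^ 2
        + 2 * ∑ i ∈ Finset.range (2 * M), (g' (i / 2) - g' i) ^ 2 := by
    have h1 : ∀ x y : Fin (2 * M), (if (TC M).Adj x y then (g x - g y) ^ 2 else 0) =
        w x * w y * (g' x - g' y) ^ 2
        + (if x.val = y.val / 2 then (g' x - g' y) ^ 2 else 0)
        + (if y.val = x.val / 2 then (g' x - g' y) ^ 2 else 0) := by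
      intro x y
      rw [hgg x, hgg y, ite_split M (fun x y => (g' x - g' y) ^ 2) (by intro x; ring) x y]
      congr 2
      by_cases hx : M ≤ x.val <;> by_cases hy : M ≤ y.val <;> simp [hw, hx, hy]
    simp_rw [h1, Finset.sum_add_distrib]
    have h2 : ∑ x : Fin (2 * M), ∑ y : Fin (2 * M),
        (if x.val = y.val / 2 then (g' x - g' y) ^ 2 else 0) =
        ∑ i ∈ Finset.range (2 * M), (g' (i / 2) - g' i) ^ 2 := by
      rw [Finset.sum_comm, Finset.sum_range]
      refine Finset.sum_congr rfl (fun y _ => ?_)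
      have hy := y.2
      rw [Finset.sum_eq_single (⟨y.val / 2, by omega⟩ : Fin (2 * M))]
      · simp
      · intro b _ hb
        rw [if_neg]
        intro h
        exact hb (Fin.ext h)
      · intro h; exact absurd (Finset.mem_univ _) h
    have h3 : ∑ x : Fin (2 * M), ∑ y : Fin (2 * M),
        (if y.val = x.val / 2 then (g' x - g' y) ^ 2 else 0) =
        ∑ i ∈ Finset.range (2 * M), (g' (i / 2) - g' i) ^ 2 := by
      rw [← h2, Finset.sum_comm]
      refine Finset.sum_congr rfl (fun x _ => Finset.sum_congr rfl (fun y _ => ?_))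
      split_ifs
      · ring
      · rfl
    have h4 : ∑ x : Fin (2 * M), ∑ y : Fin (2 * M), w x * w y * (g' x - g' y) ^ 2 =
        ∑ i ∈ Finset.range (2 * M), ∑ j ∈ Finset.range (2 * M), w i * w j * (g' i - g' j) ^ 2 := by
      rw [Finset.sum_range]
      exact Finset.sum_congr rfl (fun x _ => by rw [Finset.sum_range])
    rw [h2, h3, h4]; ring
  rw [hL, hR]
  have hH := hardy (fun i => g' i - c₀) M
  set S := ∑ i ∈ Finset.range (2 * M), ∑ j ∈ Finset.range (2 * M), w i * w j * (g' i - g' j) ^ 2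
    with hS
  have hS2 : S = 2 * M * ∑ i ∈ Finset.range (2 * M), w i * (g' i - c₀) ^ 2 := by
    have h1 : S = ∑ i ∈ Finset.range (2 * M), ∑ j ∈ Finset.range (2 * M),
        w i * w j * ((g' i - c₀) - (g' j - c₀)) ^ 2 := by
      rw [hS]
      refine Finset.sum_congr rfl (fun i _ => Finset.sum_congr rfl (fun j _ => ?_))
      ring
    rw [h1, sum_sq_sub w (fun i => g' i - c₀), hW]
    have h2 : ∑ i ∈ Finset.range (2 * M), w i * (g' i - c₀) = 0 := by
      have : ∀ i, w i * (g' i - c₀) = w i * g' i - c₀ * w i := by intro i; ring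
      simp_rw [this]
      rw [Finset.sum_sub_distrib, ← Finset.mul_sum, hW, hc₀]
      field_simp
      ring
    rw [h2]; ring
  have hup : ∑ i ∈ Finset.range (2 * M), (if M ≤ i then (g' i - c₀) ^ 2 else 0) =
      ∑ i ∈ Finset.range (2 * M), w i * (g' i - c₀) ^ 2 := by
    refine Finset.sum_congr rfl (fun i _ => ?_)
    by_cases h : M ≤ i <;> simp [hw, h]
  rw [hup] at hH
  set U := ∑ i ∈ Finset.range (2 * M), w i * (g' i - c₀) ^ 2 with hU
  have hU0 : 0 ≤ U := by
    rw [hU]
    refine Finset.sum_nonneg (fun i _ => mul_nonneg ?_ (sq_nonneg _))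
    simp only [hw]; split_ifs <;> norm_num
  have hD : ∑ i ∈ Finset.range (2 * M), (g' (i / 2) - c₀ - (g' i - c₀)) ^ 2 =
      ∑ i ∈ Finset.range (2 * M), (g' (i / 2) - g' i) ^ 2 := by
    refine Finset.sum_congr rfl (fun i _ => ?_)
    ring
  rw [hD] at hH
  rw [hS2]
  have hM1 : (1:ℝ) ≤ M := by exact_mod_cast hM
  nlinarith

lemma TC_connected (M : ℕ) (hM : 1 ≤ M) : (TC M).Connected := by
  have h0 : 0 < 2 * M := by omega
  have key : ∀ k : ℕ, ∀ x : Fin (2 * M), x.val ≤ k → (TC M).Reachable x ⟨0, h0⟩ := by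
    intro k
    induction k with
    | zero =>
      intro x hx
      have : x = ⟨0, h0⟩ := Fin.ext (by simpa using hx)
      rw [this]
    | succ k ih =>
      intro x hx
      by_cases hx0 : x.val = 0
      · exact ih x (by omega)
      · have hlt : x.val / 2 < 2 * M := by have := x.2; omega
        have hadj : (TC M).Adj x ⟨x.val / 2, hlt⟩ := by
          refine ⟨fun h => ?_, Or.inr (Or.inl rfl)⟩
          have := congrArg Fin.val h
          simp only at this
          omega
        exact hadj.reachable.trans (ih ⟨x.val / 2, hlt⟩ (by simp only; omega))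
  exact { preconnected := fun u v => (key _ u le_rfl).trans (key _ v le_rfl).symm,
          nonempty := ⟨⟨0, h0⟩⟩ }

open Classical in
lemma TC_card_edges (M : ℕ) :
    (M : ℝ) * (M - 1) / 2 ≤ (Fintype.card (TC M).edgeSet : ℝ) := by
  have h1 := sum_edges (TC M) (fun _ => (1:ℝ))
  simp only [Finset.sum_const, Finset.card_univ, nsmul_eq_mul, mul_one] at h1
  rw [h1]
  set w : ℕ → ℝ := fun i => if M ≤ i then 1 else 0 with hw
  have hW : ∑ x : Fin (2 * M), w x = M := by
    rw [← Finset.sum_range (f := w), hw, sum_upper (fun _ => (1:ℝ))]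
    simp; ring
  have h2 : ∑ x : Fin (2 * M), ∑ y : Fin (2 * M), (w x * w y - if y = x then w x else 0) ≤
      ∑ x : Fin (2 * M), ∑ y : Fin (2 * M), (if (TC M).Adj x y then (1:ℝ) else 0) := by
    refine Finset.sum_le_sum (fun x _ => Finset.sum_le_sum (fun y _ => ?_))
    by_cases hxy : y = x
    · subst hxy
      have h3 : ¬ (TC M).Adj y y := (TC M).loopless.irrefl y
      rw [if_pos rfl, if_neg h3]
      by_cases hy : M ≤ y.val <;> simp [hw, hy]
    · rw [if_neg hxy]
      by_cases hx : M ≤ x.val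
      · by_cases hy : M ≤ y.val
        · have h4 : (TC M).Adj x y := ⟨fun h => hxy h.symm, Or.inr (Or.inr ⟨hx, hy⟩)⟩
          rw [if_pos h4]
          simp [hw, hx, hy]
        · simp only [hw, hx, hy, if_true, if_false]
          split_ifs <;> norm_num
      · simp only [hw, hx, if_false]
        split_ifs <;> norm_num
  simp_rw [Finset.sum_sub_distrib, ← Finset.mul_sum] at h2
  rw [hW] at h2
  simp only [Finset.sum_ite_eq', Finset.mem_univ, if_true] at h2
  rw [← Finset.sum_mul, hW] at h2
  linarith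

/-- The potential `φ(x) = min(x, M) + 1`. -/
noncomputable def pot (M : ℕ) (x : Fin (2 * M)) : ℝ := ((min x.val M + 1 : ℕ) : ℝ)

open Classical in
lemma pot_drift (M : ℕ) (x : Fin (2 * M)) :
    ∑ y, (if (TC M).Adj x y then pot M y - pot M x else 0) ≤ 2 * 1 * pot M x := by
  have hx := x.2
  set f : ℕ → ℕ → ℝ := fun x y => ((min y M + 1 : ℕ) : ℝ) - ((min x M + 1 : ℕ) : ℝ) with hf
  have h1 : ∀ y, (if (TC M).Adj x y then pot M y - pot M x else 0) ≤
      (if y.val / 2 = x.val then pot M x else 0) := by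
    intro y
    have hy := y.2
    have h2 := ite_split M f (by intro x; simp [hf]) x y
    have h2' : (if (TC M).Adj x y then pot M y - pot M x else 0) =
      (if (TC M).Adj x y then f x y else 0) := rfl
    rw [h2', h2]
    have a1 : (if M ≤ x.val ∧ M ≤ y.val then f x y else 0) = 0 := by
      split_ifs with h
      · simp only [hf]
        rw [min_eq_right h.1, min_eq_right h.2, sub_self]
      · rfl
    have a3 : (if y.val = x.val / 2 then f x y else 0) ≤ 0 := by
      split_ifs with h
      · simp only [hf]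
        rw [sub_nonpos]
        have : min y.val M + 1 ≤ min x.val M + 1 := by omega
        exact_mod_cast this
      · exact le_rfl
    have a2 : (if x.val = y.val / 2 then f x y else 0) ≤
        (if y.val / 2 = x.val then pot M x else 0) := by
      by_cases h : y.val / 2 = x.val
      · rw [if_pos h, if_pos h.symm]
        simp only [hf, pot]
        rw [sub_le_iff_le_add]
        have : min y.val M + 1 ≤ (min x.val M + 1) + (min x.val M + 1) := by omega
        exact_mod_cast this
      · rw [if_neg h, if_neg (fun h' => h h'.symm)]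
    linarith
  refine (Finset.sum_le_sum (fun y _ => h1 y)).trans ?_
  have hp0 : 0 ≤ pot M x := by unfold pot; positivity
  have h3 : ∑ y : Fin (2 * M), (if y.val / 2 = x.val then pot M x else 0) =
      2 * ∑ i ∈ Finset.range M, (if i = x.val then pot M x else 0) := by
    rw [← sum_half (fun i => if i = x.val then pot M x else 0), Finset.sum_range]
  rw [h3, Finset.sum_ite_eq']
  split_ifs <;> linarith

end R984.AvgProc
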