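import Mathlib

/-!
Asynchronous `ℓ^p`-relaxation on a finite graph: definitions and general facts
(existence and uniqueness of the local minimiser, stationarity,
and the fact that stationary functions are `p`-harmonic extensions).
-/

open scoped ENNReal BigOperators
open MeasureTheory

namespace R984.LpRelax

/-- `φ_p(t) = |t|^(p-2) t`. -/
noncomputable def phi (p t : ℝ) : ℝ := |t| ^ (p - 2) * t

variable {V : Type} [Fintype V]

open Classical in
/-- The local energy `∑_{w ∼ v} |f w - y|^p`. -/
noncomputable def localEnergy (G : SimpleGraph V) (p : ℝ) (f : V → ℝ) (v : V) (y : ℝ) : ℝ :=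
  ∑ w, if G.Adj v w then |f w - y| ^ p else 0

open Classical in
/-- The `p`-energy `∑_{{v,w} ∈ E} |f v - f w|^p` (half the sum over ordered pairs). -/
noncomputable def energy (G : SimpleGraph V) (p : ℝ) (f : V → ℝ) : ℝ :=
  (1 / 2) * ∑ v, ∑ w, if G.Adj v w then |f v - f w| ^ p else 0

open Classical in
/-- One relaxation step at `v`: the value at `v` is replaced by the minimiser
of the local energy. -/
noncomputable def relax (G : SimpleGraph V) (p : ℝ) (f : V → ℝ) (v : V) : V → ℝ :=
  Function.update f v
    (Classical.epsilon fun y : ℝ => ∀ y' : ℝ, localEnergy G p f v y ≤ localEnergy G p f v y')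

/-- The profile `f_t` after updating `ω 0, …, ω (t-1)` one after the other. -/
noncomputable def profile (G : SimpleGraph V) (p : ℝ) (f₀ : V → ℝ) (ω : ℕ → V) : ℕ → V → ℝ
  | 0 => f₀
  | t + 1 => relax G p (profile G p f₀ ω t) (ω t)

/-- `h` is the `p`-harmonic extension of `f₀` restricted to the complement of `I`:
it agrees with `f₀` off `I` and minimises the energy among all such functions. -/
def IsPHarmonicExt (G : SimpleGraph V) (p : ℝ) (I : Finset V) (f₀ h : V → ℝ) : Prop :=
  (∀ v, v ∉ I → h v = f₀ v) ∧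
    ∀ g : V → ℝ, (∀ v, v ∉ I → g v = f₀ v) → energy G p h ≤ energy G p g

/-- The approximation time `τ_p(ε)`: the first time the profile is within `ε` of `h`
in the maximum norm (`⊤` if there is none). -/
noncomputable def tau (G : SimpleGraph V) (p : ℝ) (f₀ h : V → ℝ) (ε : ℝ) (ω : ℕ → V) : ℕ∞ :=
  ⨅ (t : ℕ) (_ : ∀ v, |profile G p f₀ ω t v - h v| ≤ ε), (t : ℕ∞)

/-- `E[τ_p(ε)]`, the updated vertices being independent and uniform on `I`. -/
noncomputable def expTau (G : SimpleGraph V) (p : ℝ) (I : Finset V) [Nonempty I]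
    (f₀ h : V → ℝ) (ε : ℝ) : ℝ≥0∞ :=
  letI : MeasurableSpace I := ⊤
  ∫⁻ ω : ℕ → I, (tau G p f₀ h ε (fun t => (ω t : V)) : ℝ≥0∞)
    ∂(Measure.infinitePi fun _ : ℕ => (PMF.uniformOfFintype I).toMeasure)

/-! ### Real-variable facts -/

lemma phi_zero (p : ℝ) : phi p 0 = 0 := by simp [phi]

lemma phi_neg (p t : ℝ) : phi p (-t) = - phi p t := by simp [phi]

lemma phi_mul_self {p : ℝ} (y : ℝ) (hy : y ≠ 0) : phi p y * y = |y| ^ p := by
  have h0 : 0 < |y| := abs_pos.mpr hy
  have : phi p y * y = |y| ^ (p - 2) * |y| ^ 2 := by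
    rw [phi, sq_abs]; ring
  rw [this, ← Real.rpow_natCast, ← Real.rpow_add h0]
  norm_num

lemma phi_of_pos {p : ℝ} {y : ℝ} (hy : 0 < y) : phi p y = y ^ (p - 1) := by
  rw [phi, abs_of_pos hy]
  have : y ^ (p - 2) * y = y ^ (p - 2) * y ^ (1 : ℝ) := by rw [Real.rpow_one]
  rw [this, ← Real.rpow_add hy]
  congr 1; ring

lemma phi_of_nonneg {p : ℝ} (hp : 1 < p) {y : ℝ} (hy : 0 ≤ y) : phi p y = y ^ (p - 1) := by
  rcases hy.eq_or_lt with rfl | h
  · rw [phi_zero, Real.zero_rpow (by linarith)]
  · exact phi_of_pos h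

/-- Strict tangent-line inequality for `|x|^p`. -/
lemma tangent_lt {p : ℝ} (hp : 1 < p) {x y : ℝ} (hxy : x ≠ y) :
    |y| ^ p + p * phi p y * (x - y) < |x| ^ p := by
  by_cases hy : y = 0
  · subst hy
    rw [phi_zero, abs_zero, Real.zero_rpow (by linarith)]
    have : 0 < |x| := abs_pos.mpr hxy
    have := Real.rpow_pos_of_pos this p
    simpa using this
  · have hpos : 0 < |y| := abs_pos.mpr hy
    have hP : 0 < |y| ^ p := Real.rpow_pos_of_pos hpos p
    set s : ℝ := x / y - 1 with hs
    have hx : x = y * (1 + s) := by rw [hs]; field_simp; ring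
    have hs0 : s ≠ 0 := by
      intro h
      apply hxy
      rw [hx, h]; ring
    have e1 : p * phi p y * (x - y) = p * (|y| ^ p) * s := by
      have : p * phi p y * (x - y) = p * (phi p y * y) * s := by rw [hx]; ring
      rw [this, phi_mul_self y hy]
    rw [e1]
    by_cases hs1 : -1 ≤ s
    · have h1 := one_add_mul_self_lt_rpow_one_add hs1 hs0 hp
      have e2 : |x| ^ p = |y| ^ p * (1 + s) ^ p := by
        rw [hx, abs_mul, abs_of_nonneg (by linarith : (0:ℝ) ≤ 1 + s),
          Real.mul_rpow hpos.le (by linarith)]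
      rw [e2]
      nlinarith
    · push Not at hs1
      have : 0 ≤ |x| ^ p := Real.rpow_nonneg (abs_nonneg _) _
      have h2 : |y| ^ p + p * |y| ^ p * s = |y| ^ p * (1 + p * s) := by ring
      rw [h2]
      have h3 : 1 + p * s < 0 := by nlinarith
      nlinarith

lemma tangent_le {p : ℝ} (hp : 1 < p) (x y : ℝ) :
    |y| ^ p + p * phi p y * (x - y) ≤ |x| ^ p := by
  by_cases hxy : x = y
  · subst hxy; simp
  · exact (tangent_lt hp hxy).le

lemma phi_strictMono {p : ℝ} (hp : 1 < p) : StrictMono (phi p) := by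
  intro a b hab
  have h1 := tangent_lt hp (x := b) (y := a) (by exact ne_of_gt hab)
  have h2 := tangent_lt hp (x := a) (y := b) (by exact ne_of_lt hab)
  have h3 : 0 < p * (phi p b - phi p a) * (b - a) := by nlinarith
  have h4 : 0 < b - a := by linarith
  have h5 : 0 < p * (phi p b - phi p a) := (mul_pos_iff_of_pos_right h4).mp h3
  have h6 : 0 < phi p b - phi p a := (mul_pos_iff_of_pos_left (by linarith)).mp h5
  linarith

lemma phi_continuous {p : ℝ} (hp : 2 ≤ p) : Continuous (phi p) := by
  unfold phi
  refine Continuous.mul ?_ continuous_id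
  exact (continuous_abs).rpow_const (fun x => Or.inr (by linarith))

/-! ### The local minimiser -/

open Classical in
lemma exists_root (G : SimpleGraph V) {p : ℝ} (hp : 2 ≤ p) (f : V → ℝ) (v : V) :
    ∃ y : ℝ, ∑ w, (if G.Adj v w then phi p (y - f w) else 0) = 0 := by
  set S : ℝ := ∑ w, |f w| with hS
  have hb : ∀ w, |f w| ≤ S := fun w =>
    Finset.single_le_sum (f := fun w => |f w|) (fun i _ => abs_nonneg _) (Finset.mem_univ w)
  have hS0 : 0 ≤ S := Finset.sum_nonneg (fun i _ => abs_nonneg _)
  have hp1 : 1 < p := by linarith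
  have hcont : Continuous (fun y : ℝ => ∑ w, (if G.Adj v w then phi p (y - f w) else 0)) := by
    refine continuous_finsetSum _ (fun w _ => ?_)
    by_cases h : G.Adj v w
    · simp only [h, if_true]
      exact (phi_continuous hp).comp (continuous_id.sub continuous_const)
    · simp only [h, if_false]
      exact continuous_const
  have hlo : ∑ w, (if G.Adj v w then phi p (-S - f w) else 0) ≤ 0 := by
    refine Finset.sum_nonpos (fun w _ => ?_)
    split_ifs with h
    · have : phi p (-S - f w) ≤ phi p 0 :=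
        (phi_strictMono hp1).monotone (by have := neg_abs_le (f w); have := hb w; linarith)
      rwa [phi_zero] at this
    · exact le_rfl
  have hhi : 0 ≤ ∑ w, (if G.Adj v w then phi p (S - f w) else 0) := by
    refine Finset.sum_nonneg (fun w _ => ?_)
    split_ifs with h
    · have : phi p 0 ≤ phi p (S - f w) :=
        (phi_strictMono hp1).monotone (by have := le_abs_self (f w); have := hb w; linarith)
      rwa [phi_zero] at this
    · exact le_rfl
  have := intermediate_value_Icc (f := fun y : ℝ => ∑ w, (if G.Adj v w then phi p (y - f w) else 0))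
    (by linarith : -S ≤ S) hcont.continuousOn
  obtain ⟨y, _, hy⟩ := this ⟨hlo, hhi⟩
  exact ⟨y, hy⟩

open Classical in
lemma local_min_of_root (G : SimpleGraph V) {p : ℝ} (hp : 1 < p) (f : V → ℝ) (v : V) (y : ℝ)
    (hy : ∑ w, (if G.Adj v w then phi p (y - f w) else 0) = 0) (x : ℝ) :
    localEnergy G p f v y ≤ localEnergy G p f v x := by
  have h1 : ∀ w, (if G.Adj v w then |f w - y| ^ p else 0)
      + p * (x - y) * (if G.Adj v w then phi p (y - f w) else 0)
      ≤ (if G.Adj v w then |f w - x| ^ p else 0) := by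
    intro w
    split_ifs with h
    · have := tangent_le hp (f w - x) (f w - y)
      have e : phi p (f w - y) = - phi p (y - f w) := by
        rw [← phi_neg]; congr 1; ring
      rw [e] at this
      nlinarith
    · simp
  have h2 := Finset.sum_le_sum (s := Finset.univ) (fun w _ => h1 w)
  rw [Finset.sum_add_distrib, ← Finset.mul_sum, hy] at h2
  unfold localEnergy
  linarith

open Classical in
lemma local_min_strict (G : SimpleGraph V) {p : ℝ} (hp : 1 < p) (f : V → ℝ) (v : V) (y : ℝ)
    (hy : ∑ w, (if G.Adj v w then phi p (y - f w) else 0) = 0) (x : ℝ) (hxy : x ≠ y)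
    (w₀ : V) (hw₀ : G.Adj v w₀) :
    localEnergy G p f v y < localEnergy G p f v x := by
  have h1 : ∀ w, (if G.Adj v w then |f w - y| ^ p else 0)
      + p * (x - y) * (if G.Adj v w then phi p (y - f w) else 0)
      ≤ (if G.Adj v w then |f w - x| ^ p else 0) := by
    intro w
    split_ifs with h
    · have := tangent_le hp (f w - x) (f w - y)
      have e : phi p (f w - y) = - phi p (y - f w) := by
        rw [← phi_neg]; congr 1; ring
      rw [e] at this
      nlinarith
    · simp
  have h1' : (if G.Adj v w₀ then |f w₀ - y| ^ p else 0)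
      + p * (x - y) * (if G.Adj v w₀ then phi p (y - f w₀) else 0)
      < (if G.Adj v w₀ then |f w₀ - x| ^ p else 0) := by
    rw [if_pos hw₀, if_pos hw₀, if_pos hw₀]
    have := tangent_lt hp (x := f w₀ - x) (y := f w₀ - y) (by intro h; apply hxy; linarith)
    have e : phi p (f w₀ - y) = - phi p (y - f w₀) := by
      rw [← phi_neg]; congr 1; ring
    rw [e] at this
    nlinarith
  have h2 := Finset.sum_lt_sum (s := Finset.univ) (fun w _ => h1 w) ⟨w₀, Finset.mem_univ _, h1'⟩
  rw [Finset.sum_add_distrib, ← Finset.mul_sum, hy] at h2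
  unfold localEnergy
  linarith

open Classical in
/-- The relaxed value satisfies the stationarity equation. -/
lemma relax_stationary (G : SimpleGraph V) {p : ℝ} (hp : 2 ≤ p) (f : V → ℝ) (v : V) :
    ∑ w, (if G.Adj v w then phi p (relax G p f v v - f w) else 0) = 0 := by
  have hp1 : 1 < p := by linarith
  obtain ⟨y, hy⟩ := exists_root G hp f v
  have hex : ∃ y : ℝ, ∀ y' : ℝ, localEnergy G p f v y ≤ localEnergy G p f v y' :=
    ⟨y, fun x => local_min_of_root G hp1 f v y hy x⟩
  have hspec := Classical.epsilon_spec hex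
  set z := (Classical.epsilon fun y : ℝ => ∀ y' : ℝ, localEnergy G p f v y ≤ localEnergy G p f v y')
    with hz
  have hrel : relax G p f v v = z := by simp [relax, hz]
  rw [hrel]
  by_cases hn : ∃ w₀, G.Adj v w₀
  · obtain ⟨w₀, hw₀⟩ := hn
    by_cases hzy : z = y
    · rw [hzy]; exact hy
    · have h1 := local_min_strict G hp1 f v y hy z hzy w₀ hw₀
      have h2 := hspec y
      exact absurd h1 (not_lt.mpr h2)
  · push Not at hn
    refine Finset.sum_eq_zero (fun w _ => ?_)
    rw [if_neg (hn w)]

lemma relax_of_ne (G : SimpleGraph V) (p : ℝ) (f : V → ℝ) (v w : V) (h : w ≠ v) :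
    relax G p f v w = f w := by
  classical
  simp [relax, Function.update_of_ne h]

open Classical in
/-- A function that satisfies the stationarity equation on `I` is the `p`-harmonic extension. -/
lemma isPHarmonicExt_of_stationary (G : SimpleGraph V) {p : ℝ} (hp : 1 < p) (I : Finset V)
    (f₀ h : V → ℝ) (hB : ∀ v, v ∉ I → h v = f₀ v)
    (hst : ∀ v ∈ I, ∑ w, (if G.Adj v w then phi p (h v - h w) else 0) = 0) :
    IsPHarmonicExt G p I f₀ h := by
  refine ⟨hB, fun g hg => ?_⟩
  unfold energy
  have h1 : ∀ v w, (if G.Adj v w then |h v - h w| ^ p else 0)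
      + (p * (g v - h v) * (if G.Adj v w then phi p (h v - h w) else 0)
        + p * (g w - h w) * (if G.Adj w v then phi p (h w - h v) else 0))
      ≤ (if G.Adj v w then |g v - g w| ^ p else 0) := by
    intro v w
    by_cases hvw : G.Adj v w
    · rw [if_pos hvw, if_pos hvw, if_pos hvw.symm, if_pos hvw]
      have := tangent_le hp (g v - g w) (h v - h w)
      have e : phi p (h w - h v) = - phi p (h v - h w) := by
        rw [← phi_neg]; congr 1; ring
      rw [e]
      nlinarith
    · have hwv : ¬ G.Adj w v := fun h => hvw h.symm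
      simp [hvw, hwv]
  have h2 : ∑ v, ∑ w, ((if G.Adj v w then |h v - h w| ^ p else 0)
      + (p * (g v - h v) * (if G.Adj v w then phi p (h v - h w) else 0)
        + p * (g w - h w) * (if G.Adj w v then phi p (h w - h v) else 0)))
      ≤ ∑ v, ∑ w, (if G.Adj v w then |g v - g w| ^ p else 0) :=
    Finset.sum_le_sum (fun v _ => Finset.sum_le_sum (fun w _ => h1 v w))
  have h3 : ∑ v, ∑ w, (p * (g v - h v) * (if G.Adj v w then phi p (h v - h w) else 0)) = 0 := by
    refine Finset.sum_eq_zero (fun v _ => ?_)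
    rw [← Finset.mul_sum]
    by_cases hv : v ∈ I
    · rw [hst v hv, mul_zero]
    · rw [hg v hv, hB v hv]; ring
  have h4 : ∑ v, ∑ w, (p * (g w - h w) * (if G.Adj w v then phi p (h w - h v) else 0)) = 0 := by
    rw [Finset.sum_comm]; exact h3
  simp only [Finset.sum_add_distrib] at h2
  rw [h3, h4] at h2
  linarith

end R984.LpRelax
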