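import Mathlib
import Pool.Agent.R984.LpRelax

/-!
Counting formulation of the law of the asynchronous relaxation process, and a general lower
bound for `E[τ]` from an invariance property and a one-step drift estimate.
-/

open scoped ENNReal BigOperators
open MeasureTheory

namespace R984.LpRelax

variable {V : Type} [Fintype V]

/-- The profile after `t` updates, as a function of the finite sequence of updated vertices. -/
noncomputable def state (G : SimpleGraph V) (p : ℝ) (f₀ : V → ℝ) :
    (t : ℕ) → (Fin t → V) → V → ℝ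
  | 0, _ => f₀
  | t + 1, a => relax G p (state G p f₀ t (fun i => a i.castSucc)) (a (Fin.last t))

lemma profile_eq_state (G : SimpleGraph V) (p : ℝ) (f₀ : V → ℝ) (ω : ℕ → V) (t : ℕ) :
    profile G p f₀ ω t = state G p f₀ t (fun i => ω i) := by
  induction t with
  | zero => rfl
  | succ t ih => simp only [profile, state]; rw [ih]; rfl

/-- Law of the first `T` coordinates of an i.i.d. uniform sequence. -/
lemma infinitePi_prefix {α : Type} [Fintype α] [Nonempty α] [DecidableEq α] (T : ℕ)
    (S : Finset (Fin T → α)) :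
    letI : MeasurableSpace α := ⊤
    (Measure.infinitePi fun _ : ℕ => (PMF.uniformOfFintype α).toMeasure)
      {ω : ℕ → α | (fun i : Fin T => ω i) ∈ S} = (S.card : ℝ≥0∞) / (Fintype.card α : ℝ≥0∞) ^ T := by
  letI : MeasurableSpace α := ⊤
  haveI : DiscreteMeasurableSpace α := ⟨fun s => by trivial⟩
  set μ := (Measure.infinitePi fun _ : ℕ => (PMF.uniformOfFintype α).toMeasure) with hμ
  let a0 : α := Classical.arbitrary α
  -- cylinder of a
  let C : (Fin T → α) → Set (ℕ → α) := fun a =>
    Set.pi (Finset.range T : Set ℕ) (fun i => if h : i < T then {a ⟨i, h⟩} else Set.univ)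
  have hC : ∀ a ω, ω ∈ C a ↔ (fun i : Fin T => ω i) = a := by
    intro a ω
    simp only [C, Set.mem_pi, Finset.coe_range, Set.mem_Iio]
    constructor
    · intro h
      funext i
      have := h i i.2
      simpa [i.2] using this
    · intro h i hi
      simp only [hi, dif_pos, Set.mem_singleton_iff]
      rw [← h]
  have hmeas : ∀ a, MeasurableSet (C a) := by
    intro a
    refine MeasurableSet.pi (Set.to_countable _) (fun i _ => ?_)
    exact MeasurableSet.of_discrete
  have hval : ∀ a, μ (C a) = ((Fintype.card α : ℝ≥0∞)⁻¹) ^ T := by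
    intro a
    simp only [C, hμ]
    rw [Measure.infinitePi_pi]
    · rw [Finset.prod_congr rfl (g := fun _ => ((Fintype.card α : ℝ≥0∞)⁻¹))]
      · simp
      · intro i hi
        rw [Finset.mem_range] at hi
        simp only [hi, dif_pos]
        rw [PMF.toMeasure_apply_singleton _ _ (MeasurableSet.of_discrete)]
        simp
    · intro i _
      exact MeasurableSet.of_discrete
  have hset : {ω : ℕ → α | (fun i : Fin T => ω i) ∈ S} = ⋃ a ∈ S, C a := by
    ext ω
    simp only [Set.mem_setOf_eq, Set.mem_iUnion, hC, exists_prop]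
    constructor
    · intro h; exact ⟨_, h, rfl⟩
    · rintro ⟨a, ha, h⟩; rw [h]; exact ha
  rw [hset, measure_biUnion_finset]
  · rw [Finset.sum_congr rfl (fun a _ => hval a), Finset.sum_const, nsmul_eq_mul,
      ENNReal.div_eq_inv_mul, mul_comm, ENNReal.inv_pow]
  · intro a _ b _ hab
    rw [Function.onFun, Set.disjoint_left]
    intro ω ha hb
    rw [hC] at ha hb
    exact hab (ha.symm.trans hb)
  · intro a _
    exact hmeas a

/-- Summation over the last coordinate. -/
lemma sum_snoc {α : Type} [Fintype α] (t : ℕ) (F : (Fin (t + 1) → α) → ℝ) :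
    ∑ a, F a = ∑ a : Fin t → α, ∑ b : α, F (Fin.snoc (α := fun _ => α) a b) := by
  rw [← Fintype.sum_prod_type']
  rw [← (Fin.snocEquiv (fun _ => α)).sum_comp, ← (Equiv.prodComm _ _).sum_comp]
  rfl

/-- **Drift bound.**  If `K` is a set of profiles that is invariant under relaxation at vertices
of `I`, and for `f ∈ K` the sum over `v ∈ I` of `Y (relax f v)` is at least `|I| (Y f - D)`, then
the average of `Y` over all update sequences of length `t` is at least `Y f₀ - D t`. -/
lemma sum_state_ge (G : SimpleGraph V) (p : ℝ) (I : Finset V) (K : (V → ℝ) → Prop)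
    (Y : (V → ℝ) → ℝ) (D : ℝ) (f₀ : V → ℝ) (h0 : K f₀)
    (hinv : ∀ f, K f → ∀ v ∈ I, K (relax G p f v))
    (hdrift : ∀ f, K f → (I.card : ℝ) * (Y f - D) ≤ ∑ v : I, Y (relax G p f v)) (t : ℕ) :
    (∀ a : Fin t → I, K (state G p f₀ t (fun i => a i))) ∧
    (I.card : ℝ) ^ t * (Y f₀ - D * t) ≤ ∑ a : Fin t → I, Y (state G p f₀ t (fun i => a i)) := by
  induction t with
  | zero => simp [state, h0]
  | succ t ih =>
    obtain ⟨ihK, ihY⟩ := ih
    refine ⟨fun a => ?_, ?_⟩
    · simp only [state]
      exact hinv _ (ihK (fun i => a i.castSucc)) _ (a (Fin.last t)).2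
    · rw [sum_snoc]
      have h1 : ∀ a : Fin t → I, (I.card : ℝ) * (Y (state G p f₀ t (fun i => a i)) - D) ≤
          ∑ b : I, Y (state G p f₀ (t + 1) (fun i => ((Fin.snoc (α := fun _ => I) a b) i : I))) := by
        intro a
        refine (hdrift _ (ihK a)).trans (le_of_eq ?_)
        refine Finset.sum_congr rfl (fun b _ => ?_)
        simp only [state, Fin.snoc_castSucc, Fin.snoc_last]
      refine le_trans ?_ (Finset.sum_le_sum (fun a _ => h1 a))
      rw [← Finset.mul_sum, Finset.sum_sub_distrib]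
      simp only [Finset.sum_const, Finset.card_univ, Fintype.card_pi, Finset.prod_const,
        Fintype.card_coe, Fintype.card_fin, nsmul_eq_mul]
      push_cast
      have hI : (0:ℝ) ≤ I.card := Nat.cast_nonneg _
      have := mul_le_mul_of_nonneg_left ihY hI
      rw [pow_succ]
      nlinarith

open Classical in
/-- **Lower bound for `E[τ]`.** If at least `|I|^T / 4` of the update sequences of length `T`
lead to profiles that are not `ε`-close to `h`, and `ε`-closeness (within an invariant set `K`) is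
preserved by relaxation, then `E[τ] ≥ (T+1)/4`. -/
lemma expTau_ge (G : SimpleGraph V) (p : ℝ) (I : Finset V) [Nonempty I]
    (f₀ h : V → ℝ) (ε : ℝ) (K : (V → ℝ) → Prop) (h0 : K f₀)
    (hinv : ∀ f, K f → ∀ v ∈ I, K (relax G p f v))
    (hclose : ∀ f, K f → (∀ v, |f v - h v| ≤ ε) → ∀ v ∈ I, ∀ w, |relax G p f v w - h w| ≤ ε)
    (T : ℕ)
    (hT : (I.card : ℝ) ^ T ≤ 4 * ((Finset.univ.filter (fun a : Fin T → I =>
      ¬ ∀ v, |state G p f₀ T (fun i => a i) v - h v| ≤ ε)).card : ℝ)) :
    ENNReal.ofReal (((T : ℝ) + 1) / 4) ≤ expTau G p I f₀ h ε := by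
  set S := (Finset.univ.filter (fun a : Fin T → I =>
      ¬ ∀ v, |state G p f₀ T (fun i => a i) v - h v| ≤ ε)) with hS
  have hcardI : 0 < I.card := Finset.card_pos.mpr (Finset.nonempty_coe_sort.mp inferInstance)
  unfold expTau
  letI : MeasurableSpace I := ⊤
  haveI : DiscreteMeasurableSpace I := ⟨fun s => by trivial⟩
  set μ := (Measure.infinitePi fun _ : ℕ => (PMF.uniformOfFintype I).toMeasure) with hμ
  have hmeasure := infinitePi_prefix (α := I) T S
  rw [← hμ] at hmeasure
  -- K is preserved
  have hK : ∀ (ω : ℕ → V), (∀ t, ω t ∈ I) → ∀ t, K (profile G p f₀ ω t) := by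
    intro ω hω t
    induction t with
    | zero => exact h0
    | succ t ih => exact hinv _ ih _ (hω t)
  have hmono : ∀ (ω : ℕ → V), (∀ t, ω t ∈ I) → ∀ t, (∀ v, |profile G p f₀ ω t v - h v| ≤ ε) →
      ∀ s, (∀ v, |profile G p f₀ ω (t + s) v - h v| ≤ ε) := by
    intro ω hω t ht s
    induction s with
    | zero => exact ht
    | succ s ih =>
      intro v
      exact hclose _ (hK ω hω (t + s)) ih _ (hω (t + s)) v
  have hlow : ∀ ω : ℕ → I, (fun i : Fin T => ω i) ∈ S →
      ((T : ℕ∞) + 1) ≤ tau G p f₀ h ε (fun t => (ω t : V)) := by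
    intro ω hω
    rw [hS, Finset.mem_filter] at hω
    have hbad := hω.2
    unfold tau
    refine le_iInf₂ (fun t ht => ?_)
    by_contra hlt
    push Not at hlt
    have htT : t ≤ T := by
      have : (t : ℕ∞) < ((T + 1 : ℕ) : ℕ∞) := by exact_mod_cast hlt
      have := Nat.cast_lt.mp this
      omega
    apply hbad
    have h2 := hmono (fun t => (ω t : V)) (fun t => (ω t).2) t ht (T - t)
    rw [Nat.add_sub_cancel' htT] at h2
    rw [profile_eq_state] at h2
    exact h2
  have hmeasS : MeasurableSet {ω : ℕ → I | (fun i : Fin T => ω i) ∈ S} := by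
    have : Measurable (fun (ω : ℕ → I) (i : Fin T) => ω i) := by fun_prop
    exact this (MeasurableSet.of_discrete (s := (S : Set (Fin T → I))))
  calc ENNReal.ofReal (((T : ℝ) + 1) / 4)
      ≤ ((T : ℝ≥0∞) + 1) * μ {ω : ℕ → I | (fun i : Fin T => ω i) ∈ S} := by
        rw [hmeasure, Fintype.card_coe]
        have h1 : ((T : ℝ≥0∞) + 1) * ((S.card : ℝ≥0∞) / (I.card : ℝ≥0∞) ^ T)
            = ENNReal.ofReal (((T : ℝ) + 1) * ((S.card : ℝ) / (I.card : ℝ) ^ T)) := by
          rw [ENNReal.ofReal_mul (by positivity),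
            ENNReal.ofReal_div_of_pos (by positivity), ENNReal.ofReal_add (by positivity)
            (by norm_num), ENNReal.ofReal_natCast, ENNReal.ofReal_natCast,
            ENNReal.ofReal_pow (by positivity), ENNReal.ofReal_natCast, ENNReal.ofReal_one]
        rw [h1]
        apply ENNReal.ofReal_le_ofReal
        have h2 : (1:ℝ) / 4 ≤ (S.card : ℝ) / (I.card : ℝ) ^ T := by
          rw [div_le_div_iff₀ (by norm_num) (by positivity)]
          linarith
        have h3 : (0:ℝ) ≤ (T:ℝ) + 1 := by positivity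
        nlinarith [mul_le_mul_of_nonneg_left h2 h3]
    _ = ∫⁻ ω in {ω : ℕ → I | (fun i : Fin T => ω i) ∈ S}, ((T : ℝ≥0∞) + 1) ∂μ := by
        rw [setLIntegral_const]
    _ ≤ ∫⁻ ω in {ω : ℕ → I | (fun i : Fin T => ω i) ∈ S},
          (tau G p f₀ h ε (fun t => (ω t : V)) : ℝ≥0∞) ∂μ := by
        refine setLIntegral_mono' hmeasS (fun ω hω => ?_)
        have := hlow ω hω
        have h2 : (((T : ℕ∞) + 1 : ℕ∞) : ℝ≥0∞) ≤ (tau G p f₀ h ε (fun t => (ω t : V)) : ℝ≥0∞) :=
          ENat.toENNReal_le.mpr this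
        simpa using h2
    _ ≤ ∫⁻ ω, (tau G p f₀ h ε (fun t => (ω t : V)) : ℝ≥0∞) ∂μ := setLIntegral_le_lintegral _ _

end R984.LpRelax
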