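import Mathlib
import Pool.Agent.R984.LpRelaxProb

/-!
The counterexample graph: a path `x_0, …, x_{n+1}`, a pendant-like vertex `b_i` attached to every
`x_i`, and a hub `c` adjacent to all the `b_i`.  (Here `m = n + 1`.)
-/

open scoped ENNReal BigOperators
open MeasureTheory

namespace R984.LpRelax

/-- Vertex type. `some (i, false) = x_i`, `some (i, true) = b_i`, `none = c`. -/
abbrev Vx (n : ℕ) : Type := Option (Fin (n + 2) × Bool)

/-- The path vertex `x_i` (index taken modulo `n+2`; only used for `i ≤ n+1`). -/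
def X (n i : ℕ) : Vx n := some (Fin.ofNat (n + 2) i, false)

/-- The vertex `b_i`. -/
def B (n i : ℕ) : Vx n := some (Fin.ofNat (n + 2) i, true)

/-- The adjacency relation. -/
def adj (n : ℕ) : Vx n → Vx n → Prop
  | some (i, false), some (j, false) => i.val + 1 = j.val ∨ j.val + 1 = i.val
  | some (i, false), some (j, true) => i = j
  | some (i, true), some (j, false) => i = j
  | some (_, true), none => True
  | none, some (_, true) => True
  | _, _ => False

/-- The graph. -/
def Gr (n : ℕ) : SimpleGraph (Vx n) where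
  Adj := adj n
  symm := ⟨by
    rintro (_ | ⟨i, _ | _⟩) (_ | ⟨j, _ | _⟩) h <;> simp only [adj] at h ⊢
    · exact h.symm
    · exact h.symm
    · exact h.symm⟩
  loopless := ⟨by
    rintro (_ | ⟨i, _ | _⟩) h <;> simp only [adj] at h
    omega⟩

lemma X_inj {n i j : ℕ} (hi : i ≤ n + 1) (hj : j ≤ n + 1) (h : X n i = X n j) : i = j := by
  simp only [X, Option.some.injEq, Prod.mk.injEq, and_true, Fin.ext_iff, Fin.val_ofNat] at h
  rwa [Nat.mod_eq_of_lt (by omega), Nat.mod_eq_of_lt (by omega)] at h

/-- The interior `I = {x_1, …, x_n}`. -/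
def Int (n : ℕ) : Finset (Vx n) := (Finset.range n).image (fun i => X n (i + 1))

lemma card_Int (n : ℕ) : (Int n).card = n := by
  rw [Int, Finset.card_image_of_injOn, Finset.card_range]
  intro i hi j hj h
  simp only [Finset.coe_range, Set.mem_Iio] at hi hj
  have := X_inj (by omega) (by omega) h
  omega

lemma sum_Int (n : ℕ) (F : Vx n → ℝ) : ∑ v : Int n, F v = ∑ i ∈ Finset.range n, F (X n (i + 1)) := by
  rw [Finset.sum_coe_sort (Int n) F, Int, Finset.sum_image]
  intro i hi j hj h
  simp only [Finset.coe_range, Set.mem_Iio] at hi hj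
  have := X_inj (by omega) (by omega) h
  omega

open Classical in
lemma sum_nbr (n i : ℕ) (hi : i < n) (F : Vx n → ℝ) :
    ∑ w, (if (Gr n).Adj (X n (i + 1)) w then F w else 0) =
      F (X n i) + F (X n (i + 2)) + F (B n (i + 1)) := by
  rw [← Finset.sum_filter]
  have : Finset.univ.filter (fun w => (Gr n).Adj (X n (i + 1)) w) =
      {X n i, X n (i + 2), B n (i + 1)} := by
    ext w
    simp only [Finset.mem_filter, Finset.mem_univ, true_and, Finset.mem_insert,
      Finset.mem_singleton]
    have e0 : i % (n + 2) = i := Nat.mod_eq_of_lt (by omega)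
    have e1 : (i + 1) % (n + 2) = i + 1 := Nat.mod_eq_of_lt (by omega)
    have e2 : (i + 2) % (n + 2) = i + 2 := Nat.mod_eq_of_lt (by omega)
    rcases w with _ | ⟨j, _ | _⟩
    · simp [Gr, adj, X, B]
    · simp only [Gr, adj, X, B, Option.some.injEq, Prod.mk.injEq, Fin.ext_iff, Fin.val_ofNat,
        and_true, e0, e1, e2]
      constructor
      · rintro (h | h)
        · right; left; omega
        · left; omega
      · rintro (h | h | h)
        · right; omega
        · left; omega
        · simp at h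
    · simp only [Gr, adj, X, B, Option.some.injEq, Prod.mk.injEq, Fin.ext_iff, Fin.val_ofNat,
        and_true, e0, e1, e2]
      constructor
      · intro h; right; right; exact h.symm
      · rintro (h | h | h)
        · simp at h
        · simp at h
        · exact h.symm
  rw [this, Finset.sum_insert, Finset.sum_insert, Finset.sum_singleton]
  · ring
  · simp [X, B]
  · simp only [Finset.mem_insert, Finset.mem_singleton, not_or]
    refine ⟨fun h => ?_, by simp [X, B]⟩
    have := X_inj (by omega) (by omega) h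
    omega

/-- The harmonic extension: `h(x_i) = h(b_i) = i/(n+1)`, `h(c) = 0`. -/
noncomputable def hf (n : ℕ) : Vx n → ℝ
  | none => 0
  | some (i, _) => (i.val : ℝ) / (n + 1)

lemma hf_X (n i : ℕ) (hi : i ≤ n + 1) : hf n (X n i) = (i : ℝ) / (n + 1) := by
  simp only [X, hf, Fin.val_ofNat]
  rw [Nat.mod_eq_of_lt (by omega)]

lemma hf_B (n i : ℕ) (hi : i ≤ n + 1) : hf n (B n i) = (i : ℝ) / (n + 1) := by
  simp only [B, hf, Fin.val_ofNat]
  rw [Nat.mod_eq_of_lt (by omega)]

/-- The class of profiles `h + u` with `0 ≤ u ≤ M` everywhere and `u = 0` off the interior. -/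
def InClass (n : ℕ) (M : ℝ) (f : Vx n → ℝ) : Prop :=
  (∀ v, 0 ≤ f v - hf n v ∧ f v - hf n v ≤ M) ∧ (∀ v, v ∉ Int n → f v = hf n v)

lemma X_not_mem {n i : ℕ} (hi : i = 0 ∨ i = n + 1) : X n i ∉ Int n := by
  intro h
  simp only [Int, Finset.mem_image, Finset.mem_range] at h
  obtain ⟨j, hj, hji⟩ := h
  have := X_inj (by omega) (by omega) hji
  omega

lemma B_not_mem (n i : ℕ) : B n i ∉ Int n := by
  intro h
  simp only [Int, Finset.mem_image, Finset.mem_range] at h
  obtain ⟨j, hj, hji⟩ := h
  simp [X, B] at hji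

/-- `u_i = f(x_i) - i/(n+1)`. -/
noncomputable def uu (n : ℕ) (f : Vx n → ℝ) (i : ℕ) : ℝ := f (X n i) - hf n (X n i)

/-- The analysis of one relaxation step. -/
lemma relax_bounds (n : ℕ) {p : ℝ} (hp : 2 < p) (M : ℝ) (hM : 0 ≤ M) (f : Vx n → ℝ)
    (hf' : InClass n M f) (i : ℕ) (hi : i < n) :
    0 ≤ relax (Gr n) p f (X n (i + 1)) (X n (i + 1)) - hf n (X n (i + 1)) ∧
    relax (Gr n) p f (X n (i + 1)) (X n (i + 1)) - hf n (X n (i + 1)) ≤ M ∧
    (M * (2 * (n + 1)) ≤ 1 →
      (uu n f i + uu n f (i + 2)) / 2 - M * (2 * (n + 1) * M) ^ (p - 2) / 2 ≤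
      relax (Gr n) p f (X n (i + 1)) (X n (i + 1)) - hf n (X n (i + 1))) := by
  have hp1 : 1 < p := by linarith
  have hstat := relax_stationary (Gr n) hp.le f (X n (i + 1))
  rw [sum_nbr n i hi (fun w => phi p (relax (Gr n) p f (X n (i + 1)) (X n (i + 1)) - f w))] at hstat
  set z := relax (Gr n) p f (X n (i + 1)) (X n (i + 1)) - hf n (X n (i + 1)) with hz
  obtain ⟨hcl, hoff⟩ := hf'
  have hB : f (B n (i + 1)) = hf n (B n (i + 1)) := hoff _ (B_not_mem _ _)
  set u1 := uu n f i with hu1
  set u2 := uu n f (i + 2) with hu2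
  have hu1b : 0 ≤ u1 ∧ u1 ≤ M := hcl _
  have hu2b : 0 ≤ u2 ∧ u2 ≤ M := hcl _
  have hn : (0:ℝ) < n + 1 := by positivity
  set s : ℝ := 1 / (n + 1) with hs
  have hspos : 0 < s := by positivity
  have e1 : relax (Gr n) p f (X n (i + 1)) (X n (i + 1)) - f (X n i) = s + z - u1 := by
    rw [hz, hu1, uu, hf_X _ _ (by omega), hf_X _ _ (by omega), hs]
    push_cast; ring
  have e2 : relax (Gr n) p f (X n (i + 1)) (X n (i + 1)) - f (X n (i + 2)) = -(s - z + u2) := by
    rw [hz, hu2, uu, hf_X _ _ (by omega), hf_X _ _ (by omega), hs]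
    push_cast; ring
  have e3 : relax (Gr n) p f (X n (i + 1)) (X n (i + 1)) - f (B n (i + 1)) = z := by
    rw [hz, hB, hf_B _ _ (by omega), hf_X _ _ (by omega)]
  rw [e1, e2, e3, phi_neg] at hstat
  have hmono := phi_strictMono hp1
  have hz0 : 0 ≤ z := by
    by_contra hneg
    push Not at hneg
    have a1 : phi p (s + z - u1) < phi p s := hmono (by linarith)
    have a2 : phi p s < phi p (s - z + u2) := hmono (by linarith)
    have a3 : phi p z < phi p 0 := hmono hneg
    rw [phi_zero] at a3
    linarith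
  have hzM : z ≤ M := by
    by_contra hneg
    push Not at hneg
    have a1 : phi p s < phi p (s + z - u1) := hmono (by linarith)
    have a2 : phi p (s - z + u2) < phi p s := hmono (by linarith)
    have a3 : phi p 0 < phi p z := hmono (by linarith)
    rw [phi_zero] at a3
    linarith
  refine ⟨hz0, hzM, fun hMs => ?_⟩
  have hMs' : M ≤ s / 2 := by
    rw [hs, div_div, le_div_iff₀ (by positivity)]
    linarith
  set a := s + z - u1 with ha
  set b := s - z + u2 with hb
  have ha0 : s / 2 ≤ a := by linarith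
  have hapos : 0 < a := by linarith
  have hbpos : 0 < b := by linarith
  have hkey : b ^ (p - 1) = a ^ (p - 1) + z ^ (p - 1) := by
    rw [phi_of_pos hapos, phi_of_pos hbpos, phi_of_nonneg hp1 hz0] at hstat
    linarith
  have hR : 0 ≤ M * (2 * (n + 1) * M) ^ (p - 2) := by positivity
  by_cases hba : b ≤ a
  · have : u1 + u2 ≤ 2 * z := by linarith
    linarith
  · push Not at hba
    -- tangent: b^(p-1) ≥ a^(p-1) + (p-1) a^(p-2) (b - a)
    have htan := tangent_le (p := p - 1) (by linarith) b a
    rw [phi_of_pos hapos, abs_of_pos hapos, abs_of_pos hbpos, hkey] at htan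
    have e4 : p - 1 - 1 = p - 2 := by ring
    rw [e4] at htan
    have h5 : a ^ (p - 2) * (b - a) ≤ z ^ (p - 1) := by
      have h6 : 0 ≤ a ^ (p - 2) * (b - a) := by
        have := Real.rpow_pos_of_pos hapos (p - 2)
        have : 0 ≤ b - a := by linarith
        positivity
      have : (p - 1) * (a ^ (p - 2) * (b - a)) ≤ z ^ (p - 1) := by linarith
      nlinarith
    have h7 : (s / 2) ^ (p - 2) * (b - a) ≤ M ^ (p - 1) := by
      have h8 : (s / 2) ^ (p - 2) ≤ a ^ (p - 2) :=
        Real.rpow_le_rpow (by linarith) ha0 (by linarith)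
      have h9 : z ^ (p - 1) ≤ M ^ (p - 1) := Real.rpow_le_rpow hz0 hzM (by linarith)
      have h10 : 0 ≤ b - a := by linarith
      nlinarith
    have h11 : b - a ≤ M * (2 * (n + 1) * M) ^ (p - 2) := by
      have h12 : (0:ℝ) < (2 * (n + 1)) ^ (p - 2) := by positivity
      have h13 : (2 * ((n:ℝ) + 1)) ^ (p - 2) * (s / 2) ^ (p - 2) = 1 := by
        rw [← Real.mul_rpow (by positivity) (by positivity)]
        have : 2 * ((n:ℝ) + 1) * (s / 2) = 1 := by rw [hs]; field_simp
        rw [this, Real.one_rpow]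
      have h14 : M ^ (p - 1) = M * M ^ (p - 2) := by
        rcases hM.eq_or_lt with rfl | hMpos
        · rw [Real.zero_rpow (by linarith), zero_mul]
        · rw [← Real.rpow_one_add' hM (by linarith)]
          congr 1; ring
      rw [Real.mul_rpow (by positivity) hM]
      calc b - a = (2 * ((n:ℝ) + 1)) ^ (p - 2) * ((s / 2) ^ (p - 2) * (b - a)) := by
            rw [← mul_assoc, h13, one_mul]
        _ ≤ (2 * ((n:ℝ) + 1)) ^ (p - 2) * M ^ (p - 1) :=
            mul_le_mul_of_nonneg_left h7 h12.le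
        _ = M * ((2 * ((n:ℝ) + 1)) ^ (p - 2) * M ^ (p - 2)) := by rw [h14]; ring
    have h15 : b - a = u1 + u2 - 2 * z := by rw [ha, hb]; ring
    linarith

end R984.LpRelax
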