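import Mathlib
import Pool.Agent.R984.LpRelaxGraph

/-!
Drift of the weighted sum, the counting estimate and graph parameters.
-/

open scoped ENNReal BigOperators
open MeasureTheory

namespace R984.LpRelax

lemma mem_Int {n : ℕ} {v : Vx n} : v ∈ Int n ↔ ∃ i < n, X n (i + 1) = v := by
  simp [Int]

lemma inClass_relax (n : ℕ) {p : ℝ} (hp : 2 < p) (M : ℝ) (hM : 0 ≤ M) (f : Vx n → ℝ)
    (hf' : InClass n M f) (v : Vx n) (hv : v ∈ Int n) :
    InClass n M (relax (Gr n) p f v) := by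
  obtain ⟨i, hi, rfl⟩ := mem_Int.mp hv
  have hb := relax_bounds n hp M hM f hf' i hi
  refine ⟨fun w => ?_, fun w hw => ?_⟩
  · by_cases hw : w = X n (i + 1)
    · subst hw; exact ⟨hb.1, hb.2.1⟩
    · rw [relax_of_ne _ _ _ _ _ hw]; exact hf'.1 w
  · have : w ≠ X n (i + 1) := fun h => hw (h ▸ hv)
    rw [relax_of_ne _ _ _ _ _ this]
    exact hf'.2 w hw

/-- The weight `ψ_i = i (n + 1 - i)`. -/
noncomputable def psi (n i : ℕ) : ℝ := (i : ℝ) * ((n : ℝ) + 1 - i)

/-- `Y f = ∑ ψ_i u_i`. -/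
noncomputable def YY (n : ℕ) (f : Vx n → ℝ) : ℝ :=
  ∑ i ∈ Finset.range n, psi n (i + 1) * uu n f (i + 1)

lemma psi_nonneg {n i : ℕ} (hi : i ≤ n + 1) : 0 ≤ psi n i := by
  unfold psi
  have : (i : ℝ) ≤ n + 1 := by exact_mod_cast hi
  have : 0 ≤ (n:ℝ) + 1 - i := by linarith
  positivity

lemma sum_psi (n : ℕ) : ∑ i ∈ Finset.range n, psi n (i + 1) = (n : ℝ) * (n + 1) * (n + 2) / 6 := by
  have key : ∀ (c : ℝ) (N : ℕ), ∑ i ∈ Finset.range N, (((i + 1 : ℕ) : ℝ) * (c - ((i + 1 : ℕ) : ℝ)))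
      = c * (N * (N + 1)) / 2 - (N * (N + 1) * (2 * N + 1)) / 6 := by
    intro c N
    induction N with
    | zero => simp
    | succ N ih => rw [Finset.sum_range_succ, ih]; push_cast; ring
  have := key ((n : ℝ) + 1) n
  unfold psi
  rw [this]; ring

lemma YY_relax (n : ℕ) {p : ℝ} (f : Vx n → ℝ) (i : ℕ) (hi : i < n) :
    YY n (relax (Gr n) p f (X n (i + 1))) = YY n f +
      psi n (i + 1) * ((relax (Gr n) p f (X n (i + 1)) (X n (i + 1)) - hf n (X n (i + 1)))
        - uu n f (i + 1)) := by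
  unfold YY
  rw [← Finset.add_sum_erase _ _ (Finset.mem_range.mpr hi),
    ← Finset.add_sum_erase (Finset.range n) (fun i => psi n (i + 1) * uu n f (i + 1))
      (Finset.mem_range.mpr hi)]
  have : ∑ x ∈ (Finset.range n).erase i, psi n (x + 1) *
      uu n (relax (Gr n) p f (X n (i + 1))) (x + 1) =
      ∑ x ∈ (Finset.range n).erase i, psi n (x + 1) * uu n f (x + 1) := by
    refine Finset.sum_congr rfl (fun j hj => ?_)
    rw [Finset.mem_erase, Finset.mem_range] at hj
    unfold uu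
    rw [relax_of_ne]
    intro h
    have := X_inj (by omega) (by omega) h
    omega
  rw [this]
  unfold uu
  ring

lemma sum_by_parts (u ψ : ℕ → ℝ) (N : ℕ) :
    ∑ i ∈ Finset.range N, ψ (i + 1) * (u i + u (i + 2)) =
      ∑ i ∈ Finset.range N, (ψ i + ψ (i + 2)) * u (i + 1)
        + (ψ 1 * u 0 - ψ 0 * u 1) - (ψ (N + 1) * u N - ψ N * u (N + 1)) := by
  induction N with
  | zero => simp
  | succ N ih =>
    rw [Finset.sum_range_succ, Finset.sum_range_succ, ih]
    ring

/-- One-step drift. -/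
lemma drift (n : ℕ) {p : ℝ} (hp : 2 < p) (M : ℝ) (hM : 0 ≤ M)
    (hMs : M * (2 * (n + 1)) ≤ 1) (hκ : (2 * ((n : ℝ) + 1) * M) ^ (p - 2) ≤ 1 / ((n : ℝ) + 1) ^ 2)
    (f : Vx n → ℝ) (hf' : InClass n M f) :
    ((Int n).card : ℝ) * (YY n f - 2 * M) ≤ ∑ v : Int n, YY n (relax (Gr n) p f v) := by
  rw [card_Int, sum_Int n (fun v => YY n (relax (Gr n) p f v))]
  set κ := (2 * ((n : ℝ) + 1) * M) ^ (p - 2) with hκdef
  have hκ0 : 0 ≤ κ := by rw [hκdef]; positivity
  set u := uu n f with hu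
  have h1 : ∀ i ∈ Finset.range n, YY n f + psi n (i + 1) * ((u i + u (i + 2)) / 2 - M * κ / 2)
      - psi n (i + 1) * u (i + 1) ≤ YY n (relax (Gr n) p f (X n (i + 1))) := by
    intro i hi
    rw [Finset.mem_range] at hi
    rw [YY_relax n f i hi]
    have hb := (relax_bounds n hp M hM f hf' i hi).2.2 hMs
    have hψ : 0 ≤ psi n (i + 1) := psi_nonneg (by omega)
    have := mul_le_mul_of_nonneg_left hb hψ
    rw [← hκdef] at this
    have e : M * κ / 2 = M * κ / 2 := rfl
    nlinarith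
  refine le_trans ?_ (Finset.sum_le_sum h1)
  have hsplit : ∑ i ∈ Finset.range n, (YY n f + psi n (i + 1) * ((u i + u (i + 2)) / 2 - M * κ / 2)
      - psi n (i + 1) * u (i + 1)) = n * YY n f
      + (1/2) * ∑ i ∈ Finset.range n, psi n (i + 1) * (u i + u (i + 2))
      - (M * κ / 2) * ∑ i ∈ Finset.range n, psi n (i + 1)
      - ∑ i ∈ Finset.range n, psi n (i + 1) * u (i + 1) := by
    have he : ∀ i ∈ Finset.range n, (YY n f + psi n (i + 1) * ((u i + u (i + 2)) / 2 - M * κ / 2)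
        - psi n (i + 1) * u (i + 1)) = YY n f + (1/2) * (psi n (i + 1) * (u i + u (i + 2)))
        - (M * κ / 2) * psi n (i + 1) - psi n (i + 1) * u (i + 1) := by
      intro i _; ring
    rw [Finset.sum_congr rfl he, Finset.sum_sub_distrib, Finset.sum_sub_distrib,
      Finset.sum_add_distrib, ← Finset.mul_sum, ← Finset.mul_sum, Finset.sum_const,
      Finset.card_range, nsmul_eq_mul]
  rw [hsplit, sum_by_parts, sum_psi]
  have hu0 : u 0 = 0 := by
    rw [hu, uu, hf'.2 _ (X_not_mem (Or.inl rfl)), sub_self]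
  have hun : u (n + 1) = 0 := by
    rw [hu, uu, hf'.2 _ (X_not_mem (Or.inr rfl)), sub_self]
  have hψ0 : psi n 0 = 0 := by simp [psi]
  have hψn : psi n (n + 1) = 0 := by simp [psi]
  rw [hu0, hun, hψ0, hψn]
  have hlap : ∑ i ∈ Finset.range n, (psi n i + psi n (i + 2)) * u (i + 1)
      = 2 * ∑ i ∈ Finset.range n, psi n (i + 1) * u (i + 1)
        - 2 * ∑ i ∈ Finset.range n, u (i + 1) := by
    rw [Finset.mul_sum, Finset.mul_sum, ← Finset.sum_sub_distrib]
    refine Finset.sum_congr rfl (fun i _ => ?_)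
    unfold psi
    push_cast
    ring
  rw [hlap]
  have husum : ∑ i ∈ Finset.range n, u (i + 1) ≤ n * M := by
    calc ∑ i ∈ Finset.range n, u (i + 1) ≤ ∑ i ∈ Finset.range n, M :=
          Finset.sum_le_sum (fun i _ => (hf'.1 _).2)
      _ = n * M := by rw [Finset.sum_const, Finset.card_range, nsmul_eq_mul]
  have hn0 : (0:ℝ) ≤ n := Nat.cast_nonneg _
  have hk : M * κ / 2 * ((n : ℝ) * (n + 1) * (n + 2) / 6) ≤ n * M := by
    have h2 : κ * ((n : ℝ) + 1) ^ 2 ≤ 1 := by
      rwa [le_div_iff₀ (by positivity)] at hκ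
    have h3 : ((n : ℝ) + 1) * (n + 2) ≤ 2 * ((n : ℝ) + 1) ^ 2 := by nlinarith
    have h4 : κ * (((n : ℝ) + 1) * (n + 2)) ≤ 2 := by
      calc κ * (((n : ℝ) + 1) * (n + 2)) ≤ κ * (2 * ((n : ℝ) + 1) ^ 2) :=
            mul_le_mul_of_nonneg_left h3 hκ0
        _ ≤ 2 := by linarith
    have h5 : 0 ≤ (n:ℝ) * M := by positivity
    have h6 : M * κ / 2 * ((n : ℝ) * (n + 1) * (n + 2) / 6)
        = (n * M) * (κ * (((n : ℝ) + 1) * (n + 2))) / 12 := by ring
    rw [h6]
    nlinarith
  nlinarith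

/-- The initial profile: `h` plus `δ` on the interior. -/
noncomputable def f0 (n : ℕ) (δ : ℝ) : Vx n → ℝ := by
  classical exact fun v => hf n v + if v ∈ Int n then δ else 0

lemma f0_inClass (n : ℕ) {δ : ℝ} (hδ : 0 ≤ δ) : InClass n δ (f0 n δ) := by
  classical
  refine ⟨fun v => ?_, fun v hv => ?_⟩
  · by_cases h : v ∈ Int n <;> simp [f0, h, hδ]
  · simp [f0, hv]

lemma YY_f0 (n : ℕ) (δ : ℝ) : YY n (f0 n δ) = δ * ((n : ℝ) * (n + 1) * (n + 2) / 6) := by
  classical
  rw [← sum_psi, Finset.mul_sum]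
  unfold YY
  refine Finset.sum_congr rfl (fun i hi => ?_)
  rw [Finset.mem_range] at hi
  have : X n (i + 1) ∈ Int n := mem_Int.mpr ⟨i, hi, rfl⟩
  simp only [uu, f0, this, if_true]
  ring

lemma YY_le (n : ℕ) (M : ℝ) (f : Vx n → ℝ) (h : ∀ i < n, uu n f (i + 1) ≤ M) :
    YY n f ≤ M * ((n : ℝ) * (n + 1) * (n + 2) / 6) := by
  rw [← sum_psi, Finset.mul_sum]
  unfold YY
  refine Finset.sum_le_sum (fun i hi => ?_)
  rw [Finset.mem_range] at hi
  have h1 : 0 ≤ psi n (i + 1) := psi_nonneg (by omega)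
  have := mul_le_mul_of_nonneg_left (h i hi) h1
  linarith

open Classical in
/-- At least a quarter of the update sequences of length `T` stay far from `h`. -/
lemma many_bad (n : ℕ) {p : ℝ} (hp : 2 < p) (δ : ℝ) (hδ : 0 < δ)
    (hMs : δ * (2 * (n + 1)) ≤ 1) (hκ : (2 * ((n : ℝ) + 1) * δ) ^ (p - 2) ≤ 1 / ((n : ℝ) + 1) ^ 2)
    (T : ℕ) (hn : 1 ≤ n) (hT : (24 : ℝ) * T ≤ (n : ℝ) * (n + 1) * (n + 2)) :
    ((Int n).card : ℝ) ^ T ≤ 4 * ((Finset.univ.filter (fun a : Fin T → Int n =>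
      ¬ ∀ v, |state (Gr n) p (f0 n δ) T (fun i => a i) v - hf n v| ≤ δ / 4)).card : ℝ) := by
  obtain ⟨hK, hY⟩ := sum_state_ge (Gr n) p (Int n) (InClass n δ) (YY n) (2 * δ) (f0 n δ)
    (f0_inClass n hδ.le) (fun f hf' v hv => inClass_relax n hp δ hδ.le f hf' v hv)
    (fun f hf' => drift n hp δ hδ.le hMs hκ f hf') T
  set N := ((Int n).card : ℝ) ^ T with hN
  have hN0 : 0 ≤ N := by positivity
  set S := (Finset.univ.filter (fun a : Fin T → Int n =>
      ¬ ∀ v, |state (Gr n) p (f0 n δ) T (fun i => a i) v - hf n v| ≤ δ / 4)) with hS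
  set P : ℝ := (n : ℝ) * (n + 1) * (n + 2) / 6 with hP
  have hnpos : (0:ℝ) < n := by exact_mod_cast hn
  have hPpos : 0 < P := by rw [hP]; positivity
  have h1 : ∀ a : Fin T → Int n, YY n (state (Gr n) p (f0 n δ) T (fun i => a i)) ≤
      δ / 4 * P + if a ∈ S then δ * P else 0 := by
    intro a
    by_cases ha : a ∈ S
    · rw [if_pos ha]
      have := YY_le n δ _ (fun i _ => ((hK a).1 (X n (i + 1))).2)
      rw [← hP] at this
      have h2 : 0 ≤ δ / 4 * P := by positivity
      linarith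
    · rw [if_neg ha, add_zero]
      rw [hS, Finset.mem_filter] at ha
      push Not at ha
      have ha' := ha (Finset.mem_univ _)
      exact YY_le n (δ / 4) _ (fun i _ => (le_abs_self _).trans (ha' (X n (i + 1))))
  have h2 := Finset.sum_le_sum (s := Finset.univ) (fun a _ => h1 a)
  rw [Finset.sum_add_distrib, ← Finset.sum_filter] at h2
  simp only [Finset.sum_const, Finset.card_univ, Fintype.card_pi, Finset.prod_const,
        Fintype.card_coe, Fintype.card_fin, nsmul_eq_mul, Finset.filter_mem_eq_inter,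
        Finset.univ_inter] at h2
  have h3 : (((Int n).card ^ T : ℕ) : ℝ) = N := by rw [hN]; push_cast; rfl
  rw [h3] at h2
  have h4 := hY.trans h2
  rw [YY_f0, ← hP] at h4
  -- N (δ P - 2 δ T) ≤ N δ/4 P + |S| δ P
  have h5 : 2 * δ * T ≤ δ * P / 2 := by
    have : (4:ℝ) * T ≤ P := by rw [hP]; linarith
    nlinarith
  have h6 : N * (δ * P / 2) ≤ N * (δ / 4 * P) + (S.card : ℝ) * (δ * P) := by
    have := mul_le_mul_of_nonneg_left (show δ * P / 2 ≤ δ * P - 2 * δ * T by linarith) hN0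
    linarith
  have h7 : (N / 4) * (δ * P) ≤ (S.card : ℝ) * (δ * P) := by linarith
  have h8 := le_of_mul_le_mul_right h7 (by positivity)
  linarith

/-! ### Graph parameters -/

lemma adj_X_B (n i : ℕ) : (Gr n).Adj (X n i) (B n i) := by
  simp [Gr, adj, X, B]

lemma vx_cases {n : ℕ} (v : Vx n) : v = none ∨ (∃ i : Fin (n+2), v = some (i, false)) ∨
    ∃ i : Fin (n+2), v = some (i, true) := by
  rcases v with _ | ⟨i, _ | _⟩
  · left; rfl
  · right; left; exact ⟨i, rfl⟩
  · right; right; exact ⟨i, rfl⟩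

lemma edist_le_two (n : ℕ) (v : Vx n) : (Gr n).edist none v ≤ 2 := by
  rcases vx_cases v with rfl | ⟨i, rfl⟩ | ⟨i, rfl⟩
  · simp
  · have h1 : (Gr n).Adj none (some (i, true)) := by simp [Gr, adj]
    have h2 : (Gr n).Adj (some (i, true)) (some (i, false)) := by simp [Gr, adj]
    have := SimpleGraph.Walk.edist_le (SimpleGraph.Walk.cons h1 (SimpleGraph.Walk.cons h2
      SimpleGraph.Walk.nil))
    simpa using this
  · have h1 : (Gr n).Adj none (some (i, true)) := by simp [Gr, adj]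
    have := SimpleGraph.Walk.edist_le (SimpleGraph.Walk.cons h1 SimpleGraph.Walk.nil)
    refine this.trans ?_
    simp only [SimpleGraph.Walk.length_cons, SimpleGraph.Walk.length_nil]
    norm_num

lemma gr_ediam (n : ℕ) : (Gr n).ediam ≤ 4 := by
  refine (SimpleGraph.ediam_le_two_mul_eccent (none : Vx n)).trans ?_
  have : (Gr n).eccent none ≤ 2 := by
    rw [SimpleGraph.eccent_le_iff]
    exact edist_le_two n
  calc 2 * (Gr n).eccent none ≤ 2 * 2 := by gcongr
    _ = 4 := by norm_num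

lemma gr_diam (n : ℕ) : (Gr n).diam ≤ 4 := by
  have h := gr_ediam n
  unfold SimpleGraph.diam
  have h2 : (Gr n).ediam.toNat ≤ (4 : ℕ∞).toNat := ENat.toNat_le_toNat h (by simp)
  simpa using h2

lemma gr_connected (n : ℕ) : (Gr n).Connected := by
  have : ∀ v, (Gr n).Reachable none v := by
    intro v
    apply SimpleGraph.reachable_of_edist_ne_top
    exact ne_top_of_le_ne_top (by simp) (edist_le_two n v)
  exact { preconnected := fun u v => (this u).symm.trans (this v), nonempty := ⟨none⟩ }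

open Classical in
lemma gr_edges (n : ℕ) : (Gr n).edgeFinset.card ≤ 3 * (n + 2) := by
  have hsub : (Gr n).edgeFinset ⊆ (Finset.univ : Finset (Fin (n + 2) × Fin 3)).image
      (fun ik => if ik.2 = 0 then s((some (ik.1, false) : Vx n), X n (ik.1.val + 1))
        else if ik.2 = 1 then s(some (ik.1, false), some (ik.1, true))
        else s(some (ik.1, true), none)) := by
    intro e he
    rw [SimpleGraph.mem_edgeFinset] at he
    induction e with
    | h u v =>
      rw [SimpleGraph.mem_edgeSet] at he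
      simp only [Finset.mem_image, Finset.mem_univ, true_and, Prod.exists]
      have main : ∀ (i j : Fin (n+2)), i.val + 1 = j.val → X n (i.val + 1) = some (j, false) := by
        intro i j h
        simp only [X, Option.some.injEq, Prod.mk.injEq, and_true]
        ext
        simp only [Fin.val_ofNat]
        rw [Nat.mod_eq_of_lt (by omega)]
        exact h
      rcases vx_cases u with rfl | ⟨i, rfl⟩ | ⟨i, rfl⟩ <;>
        rcases vx_cases v with rfl | ⟨j, rfl⟩ | ⟨j, rfl⟩ <;>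
        simp only [Gr, adj] at he
      · exact ⟨j, 2, by simp [Sym2.eq_swap]⟩
      · rcases he with h | h
        · refine ⟨i, 0, ?_⟩
          simp only [if_true]
          rw [main i j h]
        · refine ⟨j, 0, ?_⟩
          simp only [if_true]
          rw [main j i h, Sym2.eq_swap]
      · subst he
        exact ⟨i, 1, by simp⟩
      · exact ⟨i, 2, by simp⟩
      · subst he
        exact ⟨i, 1, by simp [Sym2.eq_swap]⟩
  refine (Finset.card_le_card hsub).trans (Finset.card_image_le.trans ?_)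
  simp [mul_comm]

lemma card_Vx (n : ℕ) : Fintype.card (Vx n) = 2 * n + 5 := by
  simp
  ring

/-- `hf n` is the `p`-harmonic extension. -/
lemma hf_isPHarmonicExt (n : ℕ) {p : ℝ} (hp : 1 < p) (δ : ℝ) :
    IsPHarmonicExt (Gr n) p (Int n) (f0 n δ) (hf n) := by
  classical
  refine isPHarmonicExt_of_stationary (Gr n) hp (Int n) (f0 n δ) (hf n) (fun v hv => ?_)
    (fun v hv => ?_)
  · simp [f0, hv]
  · obtain ⟨i, hi, rfl⟩ := mem_Int.mp hv
    rw [sum_nbr n i hi (fun w => phi p (hf n (X n (i + 1)) - hf n w))]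
    rw [hf_X _ _ (by omega), hf_X _ _ (by omega), hf_X _ _ (by omega), hf_B _ _ (by omega)]
    have e1 : ((i + 1 : ℕ) : ℝ) / (n + 1) - (i : ℝ) / (n + 1) = 1 / (n + 1) := by
      push_cast; ring
    have e2 : ((i + 1 : ℕ) : ℝ) / ((n : ℝ) + 1) - ((i + 2 : ℕ) : ℝ) / (n + 1) = -(1 / (n + 1)) := by
      push_cast; ring
    rw [e1, e2, sub_self, phi_zero, phi_neg]
    ring

end R984.LpRelax
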