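import Pool.Agent.R984.RatWords

/-!
Logarithmic spectral radii of Christoffel words: strict superadditivity, exponentially small
defects, and the resulting upper bound for the trace of every word in the cone of a pair.
-/

namespace R984.Ratio

open Matrix Real

/-- Trace of a word. -/
noncomputable def T (w : List Bool) : ℝ := (ev w).trace

/-- Logarithm of the spectral radius of a word. -/
noncomputable def L (w : List Bool) : ℝ := Real.arcosh (T w / 2)

lemma two_le_T (w : List Bool) : 2 ≤ T w := by
  have h := big_ev w
  rw [T, Matrix.trace_fin_two]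
  linarith [h.h00, h.h11]

lemma T_pos (w : List Bool) : 0 < T w := by linarith [two_le_T w]

lemma L_nonneg (w : List Bool) : 0 ≤ L w :=
  Real.arcosh_nonneg (by linarith [two_le_T w])

lemma T_eq (w : List Bool) : T w = 2 * cosh (L w) := by
  rw [L, Real.cosh_arcosh (by linarith [two_le_T w])]
  ring

lemma trace_rec {X : M2} (Y : M2) (hX : X.det = 1) :
    (X * (X * Y)).trace = X.trace * (X * Y).trace - Y.trace := by
  rw [Matrix.det_fin_two] at hX
  simp only [Matrix.trace_fin_two, Matrix.mul_apply, Fin.sum_univ_two]
  linear_combination (-(Y 0 0) - Y 1 1) * hX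

lemma trace_pow (w : List Bool) : ∀ n : ℕ, ((ev w) ^ n).trace = 2 * cosh (n * L w)
  | 0 => by simp
  | 1 => by simpa [T] using T_eq w
  | n + 2 => by
    have h0 := trace_pow w n
    have h1 := trace_pow w (n + 1)
    have h2 := trace_rec ((ev w) ^ n) (det_ev w)
    have e1 : ev w * (ev w * ev w ^ n) = ev w ^ (n + 2) := by
      rw [← pow_succ', ← pow_succ']
    have e2 : ev w * ev w ^ n = ev w ^ (n + 1) := by
      rw [← pow_succ']
    rw [e1, e2, h0, h1] at h2
    rw [h2]
    have h3 : (ev w).trace = 2 * cosh (L w) := T_eq w
    rw [h3]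
    have e3 : ((n + 2 : ℕ) : ℝ) * L w = (n + 1 : ℕ) * L w + L w := by push_cast; ring
    have e4 : (n : ℝ) * L w = (n + 1 : ℕ) * L w - L w := by push_cast; ring
    rw [e3, e4, cosh_add, cosh_sub]
    ring

lemma T_comm (p q : List Bool) : T (p ++ q) = T (q ++ p) := by
  rw [T, T, ev_append, ev_append, Matrix.trace_mul_comm]

lemma T_ppq (p q : List Bool) : T (p ++ (p ++ q)) = T p * T (p ++ q) - T q := by
  rw [T, T, T, T, ev_append, ev_append, trace_rec _ (det_ev p)]

lemma T_le_left (p q : List Bool) : T p ≤ T (p ++ q) := by
  rw [T, T, ev_append]; exact trace_mul_ge (big_ev p) (big_ev q)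

lemma T_le_right (p q : List Bool) : T q ≤ T (p ++ q) := by
  rw [T_comm]; exact T_le_left q p

lemma markov {p q : List Bool} (h : Reach p q) :
    T p ^ 2 + T q ^ 2 + T (p ++ q) ^ 2 - T p * T q * T (p ++ q) = 5 := by
  induction h with
  | base =>
    simp only [T, List.cons_append, List.nil_append, ev_cons, ev_nil, mul_one, B,
      Matrix.trace_fin_two, Matrix.mul_apply, Fin.sum_univ_two]
    simp
    norm_num
  | @step p q h ih =>
    rw [T_ppq]
    linear_combination ih
  | @swap p q h ih =>
    rw [T_comm q p]
    linear_combination ih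

lemma factor {p q : List Bool} (h : Reach p q) :
    (2 * cosh (L (p ++ q)) - 2 * cosh (L p + L q)) *
      (2 * cosh (L (p ++ q)) - 2 * cosh (L p - L q)) = 1 := by
  have hm := markov h
  rw [T_eq p, T_eq q, T_eq (p ++ q)] at hm
  rw [cosh_add, cosh_sub]
  have h1 := cosh_sq (L p)
  have h2 := cosh_sq (L q)
  linear_combination hm + 4 * (cosh (L q) ^ 2 - 1) * h1 + 4 * (sinh (L p)) ^ 2 * h2

lemma second_pos {p q : List Bool} (h : Reach p q) :
    0 < 2 * cosh (L (p ++ q)) - 2 * cosh (L p - L q) := by
  have h1 : cosh (L p - L q) ≤ cosh (L (p ++ q)) := by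
    rcases le_total (L p) (L q) with hle | hle
    · have : cosh (L p - L q) ≤ cosh (L q) := by
        rw [cosh_le_cosh, abs_of_nonpos (by linarith), abs_of_nonneg (L_nonneg q)]
        linarith [L_nonneg p]
      have h2 := T_le_right p q
      rw [T_eq, T_eq (p ++ q)] at h2
      linarith
    · have : cosh (L p - L q) ≤ cosh (L p) := by
        rw [cosh_le_cosh, abs_of_nonneg (by linarith), abs_of_nonneg (L_nonneg p)]
        linarith [L_nonneg q]
      have h2 := T_le_left p q
      rw [T_eq, T_eq (p ++ q)] at h2
      linarith
  have h2 := factor h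
  rcases (sub_nonneg.mpr (by linarith : 2 * cosh (L p - L q) ≤ 2 * cosh (L (p ++ q)))).lt_or_eq
    with h3 | h3
  · exact h3
  · rw [← h3] at h2
    simp at h2

lemma first_pos {p q : List Bool} (h : Reach p q) :
    0 < 2 * cosh (L (p ++ q)) - 2 * cosh (L p + L q) := by
  have h1 := factor h
  have h2 := second_pos h
  by_contra hcon
  push Not at hcon
  nlinarith

theorem L_super {p q : List Bool} (h : Reach p q) : L p + L q < L (p ++ q) := by
  have h1 := first_pos h
  have h2 : cosh (L p + L q) < cosh (L (p ++ q)) := by linarith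
  rw [cosh_lt_cosh, abs_of_nonneg (by linarith [L_nonneg p, L_nonneg q]),
    abs_of_nonneg (L_nonneg _)] at h2
  exact h2

lemma sinh_ge {w : List Bool} (h : 3 ≤ T w) : 1 ≤ sinh (L w) := by
  have h1 := T_eq w
  have h2 := cosh_sq (L w)
  have h3 : 0 ≤ sinh (L w) := sinh_nonneg_iff.mpr (L_nonneg w)
  nlinarith

lemma exp_ge {w : List Bool} (h : 3 ≤ T w) : 5 / 2 ≤ exp (L w) := by
  have h1 := T_eq w
  have h2 := sinh_ge h
  rw [← cosh_add_sinh]
  linarith

theorem L_defect {p q : List Bool} (h : Reach p q) (hp : 3 ≤ T p) (hq : 3 ≤ T q) :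
    L (p ++ q) ≤ L p + L q + exp (-(L p + L q)) := by
  set a := L p with ha
  set b := L q with hb
  set c := L (p ++ q) with hc
  have h1 := factor h
  rw [← ha, ← hb, ← hc] at h1
  have h2 := L_super h
  rw [← ha, ← hb, ← hc] at h2
  have hsa := sinh_ge hp
  have hsb := sinh_ge hq
  rw [← ha] at hsa
  rw [← hb] at hsb
  have hea := exp_ge hp
  have heb := exp_ge hq
  rw [← ha] at hea
  rw [← hb] at heb
  have hes : 25 / 4 ≤ exp (a + b) := by
    rw [exp_add]; nlinarith
  have hsinh : exp (a + b) / 4 ≤ sinh (a + b) := by
    rw [sinh_eq]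
    have : exp (-(a + b)) ≤ 1 := by
      rw [exp_le_one_iff]
      have := L_nonneg p
      have := L_nonneg q
      linarith
    linarith
  -- c = (a + b) + d
  set d := c - (a + b) with hd
  have hd0 : 0 < d := by linarith
  have hcosh : cosh (a + b) + d * sinh (a + b) ≤ cosh c := by
    have e : c = (a + b) + d := by linarith
    have e' : cosh c = cosh (a + b) * cosh d + sinh (a + b) * sinh d := by
      rw [e]; exact cosh_add _ _
    rw [e']
    have h3 : 1 ≤ cosh d := one_le_cosh d
    have h4 : d ≤ sinh d := self_le_sinh_iff.mpr hd0.le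
    have h5 : 0 < cosh (a + b) := cosh_pos _
    have h6 : 0 < sinh (a + b) := by linarith
    nlinarith
  have hsec : 4 ≤ 2 * cosh c - 2 * cosh (a - b) := by
    have h3 : 2 * cosh (a + b) - 2 * cosh (a - b) = 4 * sinh a * sinh b := by
      rw [cosh_add, cosh_sub]; ring
    have h4 : cosh (a + b) ≤ cosh c := by
      have : 0 < sinh (a + b) := by linarith
      nlinarith
    nlinarith
  have hfirst : 2 * (d * sinh (a + b)) ≤ 2 * cosh c - 2 * cosh (a + b) := by linarith
  have h6 : 0 < sinh (a + b) := by linarith
  have h7 : 2 * (d * sinh (a + b)) * 4 ≤ 1 := by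
    have h8 : 0 ≤ 2 * (d * sinh (a + b)) := by positivity
    calc 2 * (d * sinh (a + b)) * 4 ≤ (2 * cosh c - 2 * cosh (a + b)) *
          (2 * cosh c - 2 * cosh (a - b)) := by
          apply mul_le_mul hfirst hsec (by norm_num) (by linarith)
      _ = 1 := h1
  have h8 : d * exp (a + b) ≤ 1 := by nlinarith [mul_le_mul_of_nonneg_left hsinh hd0.le]
  have h9 : d ≤ exp (-(a + b)) := by
    rw [Real.exp_neg]
    rw [← one_div, le_div_iff₀ (exp_pos _)]
    exact h8
  linarith

lemma f_eq_T (p q w : List Bool) : f p q w = T (sb p q w) := rfl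

lemma two_le_f (p q w : List Bool) : 2 ≤ f p q w := two_le_T _

lemma f_replicate (p q : List Bool) (a : ℕ) :
    f p q (List.replicate a false) = 2 * cosh (a * L p) := by
  rw [← trace_pow, f]
  congr 1
  induction a with
  | zero => simp
  | succ a ih => rw [List.replicate_succ, sb_cons_false, ev_append, ih, pow_succ']

lemma eq_replicate_of_count {w : List Bool} (h : w.count true = 0) :
    w = List.replicate (w.count false) false := by
  have hlen := List.count_false_add_count_true w
  have : w.count false = w.length := by omega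
  rw [this]
  rw [List.count_eq_zero] at h
  exact List.eq_replicate_of_mem (fun b hb => by cases b <;> simp_all)

lemma log_two_cosh_le (x : ℝ) (hx : 0 ≤ x) : log (2 * cosh x) ≤ x + log 2 := by
  have h : 2 * cosh x ≤ 2 * exp x := by
    rw [cosh_eq]
    have : exp (-x) ≤ exp x := exp_le_exp.mpr (by linarith)
    linarith
  calc log (2 * cosh x) ≤ log (2 * exp x) := log_le_log (by have := cosh_pos x; positivity) h
    _ = x + log 2 := by rw [log_mul (by norm_num) (exp_ne_zero _), log_exp]; ring

lemma star_aux (n : ℕ) : ∀ p q : List Bool, Reach p q → 3 ≤ T p → 3 ≤ T q →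
    ∀ (a b : ℕ) (w : List Bool), w.count false = a → w.count true = b → a + b ≤ n →
    log (f p q w) ≤ a * L p + b * L q + (min a b : ℕ) * (2 * exp (-(L p + L q))) + log 2 := by
  induction n with
  | zero =>
    intro p q h hp hq a b w h0 h1 hn
    have hlen := List.count_false_add_count_true w
    have : w = [] := List.length_eq_zero_iff.mp (by omega)
    subst this
    have ha : a = 0 := by omega
    have hb : b = 0 := by omega
    subst ha hb
    simp [f]
  | succ n ih =>
    have main : ∀ p q : List Bool, Reach p q → 3 ≤ T p → 3 ≤ T q →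
        ∀ (a b : ℕ) (w : List Bool), w.count false = a → w.count true = b → a + b ≤ n + 1 →
        b ≤ a → log (f p q w) ≤ a * L p + b * L q + b * (2 * exp (-(L p + L q))) + log 2 := by
      intro p q h hp hq a b w h0 h1 hn hba
      rcases Nat.eq_zero_or_pos b with hb | hb
      · subst hb
        rw [eq_replicate_of_count h1, h0, f_replicate]
        have := log_two_cosh_le (a * L p) (mul_nonneg (Nat.cast_nonneg _) (L_nonneg p))
        simp
        linarith
      · obtain ⟨w', g0, g1, hle⟩ := step_max h.good hba w h0 h1
        have h3 : 3 ≤ T (p ++ q) := hp.trans (T_le_left p q)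
        have h4 := ih p (p ++ q) h.step hp h3 (a - b) b w' g0 g1 (by omega)
        have h5 := L_defect h hp hq
        have h6 := L_super h
        have h7 : log (f p q w) ≤ log (f p (p ++ q) w') :=
          log_le_log (by linarith [two_le_f p q w]) hle
        have h8 : ((a - b : ℕ) : ℝ) = a - b := by push_cast [hba]; ring
        have hb' : (0 : ℝ) ≤ b := Nat.cast_nonneg _
        have h9 : ((min (a - b) b : ℕ) : ℝ) ≤ b := by exact_mod_cast min_le_right _ _
        have h10 : 2 * exp (-(L p + L (p ++ q))) ≤ exp (-(L p + L q)) := by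
          have e1 : exp (-(L p + L (p ++ q))) ≤ exp (-(L p + L q)) * exp (-(L p)) := by
            rw [← exp_add]
            apply exp_le_exp.mpr
            linarith
          have e2 : exp (-(L p)) ≤ 1 / 2 := by
            rw [Real.exp_neg, ← one_div]
            apply one_div_le_one_div_of_le (by norm_num)
            linarith [exp_ge hp]
          nlinarith [exp_pos (-(L p + L q))]
        rw [h8] at h4
        have h11 : ((min (a - b) b : ℕ) : ℝ) * (2 * exp (-(L p + L (p ++ q)))) ≤
            b * exp (-(L p + L q)) := by
          apply mul_le_mul h9 h10 (by positivity) hb'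
        have h12 : (b : ℝ) * L (p ++ q) ≤ b * (L p + L q + exp (-(L p + L q))) :=
          mul_le_mul_of_nonneg_left h5 hb'
        nlinarith
    intro p q h hp hq a b w h0 h1 hn
    rcases le_total b a with hba | hba
    · rw [min_eq_right hba]
      exact main p q h hp hq a b w h0 h1 hn hba
    · rw [min_eq_left hba]
      have h2 : (w.map not).count false = b := by
        rw [← h1]
        clear h0 h1
        induction w with
        | nil => simp
        | cons c w ih2 => cases c <;> simp [ih2]
      have h3 : (w.map not).count true = a := by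
        rw [← h0]
        clear h0 h1 h2
        induction w with
        | nil => simp
        | cons c w ih2 => cases c <;> simp [ih2]
      have := main q p h.swap hq hp b a (w.map not) h2 h3 (by omega) hba
      rw [f, sb_not] at this
      rw [f]
      have e : L q + L p = L p + L q := add_comm _ _
      rw [e] at this
      linarith

/-- Upper bound for the trace of every word whose type lies in the cone of a pair. -/
theorem star {p q : List Bool} (h : Reach p q) (hp : 3 ≤ T p) (hq : 3 ≤ T q) (a b : ℕ)
    (w : List Bool) (h0 : w.count false = a * p.count false + b * q.count false)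
    (h1 : w.count true = a * p.count true + b * q.count true) :
    log (T w) ≤ a * L p + b * L q + (min a b : ℕ) * (2 * exp (-(L p + L q))) + log 2 := by
  obtain ⟨w', g0, g1, hle⟩ := cone h a b w h0 h1
  refine (log_le_log (T_pos w) hle).trans ?_
  exact star_aux (a + b) p q h hp hq a b w' g0 g1 le_rfl

/-- A word of type `a` times the type of a Christoffel word is dominated by its power. -/
theorem cone_pow {p q : List Bool} (h : Reach p q) (a : ℕ) (w : List Bool)
    (h0 : w.count false = a * p.count false) (h1 : w.count true = a * p.count true) :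
    log (T w) ≤ a * L p + log 2 := by
  obtain ⟨w', g0, g1, hle⟩ := cone h a 0 w (by simpa using h0) (by simpa using h1)
  refine (log_le_log (T_pos w) hle).trans ?_
  rw [eq_replicate_of_count g1, g0, f_replicate]
  exact log_two_cosh_le _ (mul_nonneg (Nat.cast_nonneg _) (L_nonneg p))

end R984.Ratio
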