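import Pool.Agent.R984.RatPress

/-!
Christoffel pairs around an irrational direction.
-/

namespace R984.Ratio

open Matrix Real Filter Topology

/-- Number of ones, as a real number. -/
noncomputable def c1 (w : List Bool) : ℝ := (w.count true : ℝ)
/-- Length, as a real number. -/
noncomputable def ln (w : List Bool) : ℝ := (w.length : ℝ)

lemma c1_append (p q : List Bool) : c1 (p ++ q) = c1 p + c1 q := by simp [c1]
lemma ln_append (p q : List Bool) : ln (p ++ q) = ln p + ln q := by simp [ln]
lemma c1_nonneg (p : List Bool) : 0 ≤ c1 p := Nat.cast_nonneg _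
lemma c1_le_ln (p : List Bool) : c1 p ≤ ln p := by
  rw [c1, ln]; exact_mod_cast List.count_le_length

lemma Reach.len_pos {p q : List Bool} (h : Reach p q) : 1 ≤ ln p ∧ 1 ≤ ln q := by
  induction h with
  | base => simp [ln]
  | step _ ih => rw [ln_append]; exact ⟨ih.1, by linarith [ih.1, ih.2]⟩
  | swap _ ih => exact ⟨ih.2, ih.1⟩

/-- The determinant of the types. -/
lemma Reach.det {p q : List Bool} (h : Reach p q) :
    (p.length : ℤ) * q.count true - q.length * p.count true = 1 ∨
    (p.length : ℤ) * q.count true - q.length * p.count true = -1 := by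
  induction h with
  | base => left; simp
  | @step p q _ ih =>
    rcases ih with ih | ih
    · left
      rw [List.length_append, List.count_append]; push_cast; linarith
    · right
      rw [List.length_append, List.count_append]; push_cast; linarith
  | @swap p q _ ih =>
    rcases ih with ih | ih
    · right; linarith
    · left; linarith

/-- A Christoffel pair around the direction `γ`, with coordinates `s, r` of the direction,
trace bound `m` and growth bound `c`. -/
structure At (γ m c : ℝ) (p q : List Bool) (s r : ℝ) : Prop where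
  reach : Reach p q
  hs : 0 < s
  hr : 0 < r
  h1 : s * ln p + r * ln q = 1
  h2 : s * c1 p + r * c1 q = γ
  hp : m ≤ T p
  hq : m ≤ T q
  cp : c * ln p ≤ L p
  cq : c * ln q ≤ L q

lemma At.swap {γ m c : ℝ} {p q : List Bool} {s r : ℝ} (h : At γ m c p q s r) :
    At γ m c q p r s :=
  ⟨h.reach.swap, h.hr, h.hs, by linarith [h.h1], by linarith [h.h2], h.hq, h.hp, h.cq, h.cp⟩

lemma At.step_aux {γ m c : ℝ} {p q : List Bool} {s r : ℝ} (h : At γ m c p q s r)
    (hrs : r < s) : At γ m c p (p ++ q) (s - r) r := by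
  refine ⟨h.reach.step, by linarith, h.hr, ?_, ?_, h.hp, ?_, h.cp, ?_⟩
  · rw [ln_append]; linarith [h.h1]
  · rw [c1_append]; linarith [h.h2]
  · exact h.hp.trans (T_le_left p q)
  · rw [ln_append]
    have := L_super h.reach
    linarith [h.cp, h.cq]

lemma At.ne {γ m c : ℝ} (hγ : Irrational γ) {p q : List Bool} {s r : ℝ}
    (h : At γ m c p q s r) : r ≠ s := by
  intro e
  subst e
  have h1 := h.h1
  have h2 := h.h2
  have hl := h.reach.len_pos
  apply hγ
  refine ⟨((p.count true + q.count true : ℕ) : ℚ) / ((p.length + q.length : ℕ) : ℚ), ?_⟩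
  have h3 : r * (ln p + ln q) = 1 := by linarith
  have h4 : r * (c1 p + c1 q) = γ := by linarith
  have h5 : (0 : ℝ) < ln p + ln q := by linarith [hl.1, hl.2]
  push_cast
  have h6 : r = 1 / (ln p + ln q) := by field_simp; linarith
  rw [← h4, h6, c1, c1, ln, ln]
  field_simp

lemma At.step {γ m c : ℝ} (hγ : Irrational γ) {p q : List Bool} {s r : ℝ}
    (h : At γ m c p q s r) : ∃ p' q' s' r', At γ m c p' q' s' r' ∧
      ln p + ln q + 1 ≤ ln p' + ln q' := by
  have hl := h.reach.len_pos
  rcases lt_or_gt_of_ne (h.ne hγ) with hlt | hlt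
  · exact ⟨_, _, _, _, h.step_aux hlt, by rw [ln_append]; linarith [hl.1]⟩
  · exact ⟨_, _, _, _, h.swap.step_aux hlt, by rw [ln_append]; linarith [hl.2]⟩

lemma At.far {γ m c : ℝ} (hγ : Irrational γ) {p q : List Bool} {s r : ℝ}
    (h : At γ m c p q s r) (N : ℕ) : ∃ p' q' s' r', At γ m c p' q' s' r' ∧
      (N : ℝ) ≤ ln p' + ln q' := by
  induction N with
  | zero =>
    exact ⟨p, q, s, r, h, by
      have := h.reach.len_pos
      push_cast
      linarith [this.1, this.2]⟩
  | succ N ih =>
    obtain ⟨p', q', s', r', h', hN⟩ := ih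
    obtain ⟨p2, q2, s2, r2, h2, hN2⟩ := h'.step hγ
    exact ⟨p2, q2, s2, r2, h2, by push_cast; linarith⟩

lemma at_base {γ : ℝ} (h0 : 0 < γ) (h1 : γ < 1) :
    At γ 2 0 [false] [true] (1 - γ) γ := by
  refine ⟨Reach.base, by linarith, h0, ?_, ?_, two_le_T _, two_le_T _, ?_, ?_⟩
  · simp [ln]
  · simp [c1]
  · simpa using L_nonneg _
  · simpa using L_nonneg _

lemma reach_k (k : ℕ) : Reach [false] (List.replicate k false ++ [true]) := by
  induction k with
  | zero => simpa using Reach.base
  | succ k ih =>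
    have := ih.step
    rw [List.replicate_succ]
    simpa using this

lemma T_k {k : ℕ} (hk : 1 ≤ k) : 3 ≤ T (List.replicate k false ++ [true]) := by
  obtain ⟨j, rfl⟩ : ∃ j, k = j + 1 := ⟨k - 1, by omega⟩
  rw [List.replicate_succ', List.append_assoc]
  have h1 : T [false, true] = 3 := by
    simp only [T, ev_cons, ev_nil, mul_one, B, Matrix.trace_fin_two, Matrix.mul_apply,
      Fin.sum_univ_two]
    simp
    norm_num
  have := T_le_right (List.replicate j false) ([false] ++ [true])
  simp only [List.cons_append, List.nil_append] at this ⊢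
  rw [h1] at this
  exact this

lemma L_pos_of {w : List Bool} (h : 3 ≤ T w) : 0 < L w :=
  Real.arcosh_pos (by linarith)

/-- Starting pair with hyperbolic matrices. -/
lemma at_start {γ : ℝ} (hγ : Irrational γ) (h0 : 0 < γ) (h1 : γ < 1 / 2) :
    ∃ c > 0, ∃ p q s r, At γ 3 c p q s r := by
  set k := ⌊(1 - γ) / γ⌋₊ with hk
  have e1 : (k : ℝ) ≤ (1 - γ) / γ := Nat.floor_le (div_nonneg (by linarith) h0.le)
  have e2 : (1 - γ) / γ < k + 1 := Nat.lt_floor_add_one _
  rw [le_div_iff₀ h0] at e1
  rw [div_lt_iff₀ h0] at e2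
  have hk1 : 1 ≤ k := by
    rw [hk]
    apply Nat.le_floor
    rw [le_div_iff₀ h0]
    push_cast
    linarith
  have hne : (k : ℝ) * γ ≠ 1 - γ := by
    intro e
    apply hγ
    refine ⟨1 / (k + 1), ?_⟩
    push_cast
    have : (0 : ℝ) < k + 1 := by positivity
    field_simp
    linarith
  have e3 : (k : ℝ) * γ < 1 - γ := lt_of_le_of_ne e1 hne
  set p := List.replicate k false ++ [true] with hp
  have hR : Reach p [false] := (reach_k k).swap
  have hT : 3 ≤ T p := T_k hk1
  have hT2 : 3 ≤ T (p ++ [false]) := hT.trans (T_le_left _ _)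
  have hlp : ln p = k + 1 := by simp [hp, ln]
  have hcp : c1 p = 1 := by simp [hp, c1, List.count_replicate]
  have hlq : ln (p ++ [false]) = k + 2 := by rw [ln_append, hlp]; simp [ln]; ring
  have hcq : c1 (p ++ [false]) = 1 := by rw [c1_append, hcp]; simp [c1]
  have hL1 := L_pos_of hT
  have hL2 := L_pos_of hT2
  refine ⟨min (L p / ln p) (L (p ++ [false]) / ln (p ++ [false])), ?_, p, p ++ [false],
    γ - (1 - γ - k * γ), 1 - γ - k * γ, hR.step, by linarith, by linarith, ?_, ?_, hT, hT2, ?_, ?_⟩
  · apply lt_min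
    · apply div_pos hL1; rw [hlp]; positivity
    · apply div_pos hL2; rw [hlq]; positivity
  · rw [hlp, hlq]; ring
  · rw [hcp, hcq]; ring
  · have : 0 < ln p := by rw [hlp]; positivity
    calc _ ≤ (L p / ln p) * ln p := mul_le_mul_of_nonneg_right (min_le_left _ _) this.le
      _ = L p := by field_simp
  · have : 0 < ln (p ++ [false]) := by rw [hlq]; positivity
    calc _ ≤ (L (p ++ [false]) / ln (p ++ [false])) * ln (p ++ [false]) :=
          mul_le_mul_of_nonneg_right (min_le_right _ _) this.le
      _ = L (p ++ [false]) := by field_simp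

/-- Distance of the direction of `p` to `γ`. -/
lemma At.dist {γ m c : ℝ} {p q : List Bool} {s r : ℝ} (h : At γ m c p q s r) :
    |γ * ln p - c1 p| = r := by
  have h1 := h.h1
  have h2 := h.h2
  have e : γ * ln p - c1 p = r * (ln p * c1 q - ln q * c1 p) := by
    rw [← h2]
    linear_combination (c1 p) * h1
  rw [e, abs_mul, abs_of_pos h.hr]
  have hd : |ln p * c1 q - ln q * c1 p| = 1 := by
    rcases h.reach.det with hd | hd
    · have : ln p * c1 q - ln q * c1 p = 1 := by
        rw [ln, ln, c1, c1]; exact_mod_cast hd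
      rw [this, abs_one]
    · have : ln p * c1 q - ln q * c1 p = -1 := by
        rw [ln, ln, c1, c1]; exact_mod_cast hd
      rw [this]; simp
  rw [hd, mul_one]

lemma At.close {γ m c : ℝ} {p q : List Bool} {s r ε : ℝ} (h : At γ m c p q s r)
    (hε : 0 < ε) (hN : 2 / ε < ln p + ln q) : |γ * ln p - c1 p| < ε * ln p := by
  rw [h.dist]
  have hl := h.reach.len_pos
  have h1 : r * ln q < 1 := by
    have := mul_pos h.hs (by linarith [hl.1] : 0 < ln p)
    linarith [h.h1]
  have h2 : ln p + ln q ≤ 2 * (ln p * ln q) := by nlinarith [hl.1, hl.2]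
  have h3 : 2 < ε * (ln p + ln q) := by
    rw [div_lt_iff₀ hε] at hN; linarith
  have h4 : 1 < ε * (ln p * ln q) := by nlinarith
  have hq : 0 < ln q := by linarith [hl.2]
  by_contra hcon
  push Not at hcon
  nlinarith

/-- A Christoffel pair, all of whose directions (with the mediant) lie in a given interval. -/
lemma exists_pair {a b : ℝ} (ha : 0 ≤ a) (hab : a < b) (hb : b ≤ 1) :
    ∃ p q : List Bool, Reach p q ∧ (a * ln p < c1 p ∧ c1 p < b * ln p) ∧
      (a * ln q < c1 q ∧ c1 q < b * ln q) := by
  obtain ⟨γ, hγ, h1, h2⟩ := exists_irrational_btwn hab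
  set ε := min (γ - a) (b - γ) with hε
  have hε0 : 0 < ε := lt_min (by linarith) (by linarith)
  obtain ⟨N, hN⟩ := exists_nat_gt (2 / ε)
  obtain ⟨p, q, s, r, h, hN2⟩ := (at_base (by linarith : 0 < γ) (by linarith)).far hγ N
  have hp := h.close hε0 (by linarith)
  have hq := h.swap.close hε0 (by linarith)
  have hl := h.reach.len_pos
  rw [abs_lt] at hp hq
  have e1 : ε ≤ γ - a := min_le_left _ _
  have e2 : ε ≤ b - γ := min_le_right _ _
  refine ⟨p, q, h.reach, ⟨?_, ?_⟩, ⟨?_, ?_⟩⟩ <;> nlinarith [hl.1, hl.2, hp.1, hp.2, hq.1, hq.2]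

end R984.Ratio
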