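import Pool.Agent.R984.RatNum

/-!
The pressure of the pair of matrices (logarithm of the joint spectral radius as a function of the
logarithm of the weight), its basic properties, and the existence of extremal infinite words.
-/

namespace R984.Ratio

open Matrix Real Filter Topology

/-- Sum of the entries. -/
noncomputable def S (w : List Bool) : ℝ := ev w 0 0 + ev w 0 1 + ev w 1 0 + ev w 1 1

lemma two_le_S (w : List Bool) : 2 ≤ S w := by
  obtain ⟨a, b, c, d⟩ := big_ev w
  rw [S]; linarith

lemma S_pos (w : List Bool) : 0 < S w := by linarith [two_le_S w]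

lemma T_le_S (w : List Bool) : T w ≤ S w := by
  obtain ⟨a, b, c, d⟩ := big_ev w
  rw [S, T, Matrix.trace_fin_two]; linarith

lemma S_append_le (w w' : List Bool) : S (w ++ w') ≤ S w * S w' := by
  obtain ⟨a, b, c, d⟩ := big_ev w
  obtain ⟨e, f, g, h⟩ := big_ev w'
  rw [S, S, S, ev_append]
  simp only [Matrix.mul_apply, Fin.sum_univ_two]
  generalize ev w = X at *
  generalize ev w' = Y at *
  have h1 : 0 ≤ (X 0 0 + X 1 0) * (Y 1 0 + Y 1 1) := by
    apply mul_nonneg <;> linarith
  have h2 : 0 ≤ (X 0 1 + X 1 1) * (Y 0 0 + Y 0 1) := by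
    apply mul_nonneg <;> linarith
  nlinarith

lemma S_mid (w w' : List Bool) : S w * S w' ≤ S (w ++ [false, true] ++ w') := by
  obtain ⟨a, b, c, d⟩ := big_ev w
  obtain ⟨e, f, g, h⟩ := big_ev w'
  rw [S, S, S, ev_append, ev_append]
  have h0 : ev [false, true] = !![2, 1; 1, 1] := by
    simp only [ev_cons, ev_nil, mul_one, B]
    ext i j
    fin_cases i <;> fin_cases j <;> simp [Matrix.mul_apply, Fin.sum_univ_two] <;> norm_num
  rw [h0]
  simp only [Matrix.mul_apply, Fin.sum_univ_two]
  generalize ev w = X at *
  generalize ev w' = Y at *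
  simp
  have h1 : 0 ≤ (X 0 0 + X 1 0) * (Y 0 0 + Y 0 1) := by
    apply mul_nonneg <;> linarith
  nlinarith

lemma S_le_T (w : List Bool) : S w ≤ T (w ++ [false, true]) := by
  obtain ⟨a, b, c, d⟩ := big_ev w
  rw [S, T, ev_append]
  have h0 : ev [false, true] = !![2, 1; 1, 1] := by
    simp only [ev_cons, ev_nil, mul_one, B]
    ext i j
    fin_cases i <;> fin_cases j <;> simp [Matrix.mul_apply, Fin.sum_univ_two] <;> norm_num
  rw [h0, Matrix.trace_fin_two]
  simp only [Matrix.mul_apply, Fin.sum_univ_two]
  simp
  linarith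

lemma S_not (w : List Bool) : S (w.map not) = S w := by
  have key : ∀ w : List Bool, ev (w.map not) 0 0 = ev w 1 1 ∧ ev (w.map not) 0 1 = ev w 1 0 ∧
      ev (w.map not) 1 0 = ev w 0 1 ∧ ev (w.map not) 1 1 = ev w 0 0 := by
    intro w
    induction w with
    | nil => simp
    | cons b w ih =>
      obtain ⟨h1, h2, h3, h4⟩ := ih
      cases b <;>
      simp [B, Matrix.mul_apply, Fin.sum_univ_two, h1, h2, h3, h4, add_comm]
  obtain ⟨h1, h2, h3, h4⟩ := key w
  rw [S, S, h1, h2, h3, h4]
  ring

/-- Logarithmic weight of a word. -/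
noncomputable def W (t : ℝ) (w : List Bool) : ℝ := log (S w) + t * w.count true

lemma W_append_le (t : ℝ) (w w' : List Bool) : W t (w ++ w') ≤ W t w + W t w' := by
  have h := log_le_log (S_pos _) (S_append_le w w')
  rw [log_mul (S_pos _).ne' (S_pos _).ne'] at h
  rw [W, W, W, List.count_append]
  push_cast
  linarith

lemma W_mid (t : ℝ) (w w' : List Bool) :
    W t w + W t w' + t ≤ W t (w ++ [false, true] ++ w') := by
  have h := log_le_log (mul_pos (S_pos _) (S_pos _)) (S_mid w w')
  rw [log_mul (S_pos _).ne' (S_pos _).ne'] at h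
  have h2 : ((w ++ [false, true] ++ w').count true : ℝ) = w.count true + 1 + w'.count true := by
    rw [List.count_append, List.count_append]
    simp
  rw [W, W, W, h2]
  linarith

/-- Largest weight of a word of length `n`. -/
noncomputable def cn (t : ℝ) (n : ℕ) : ℝ := sSup (W t '' {w : List Bool | w.length = n})

lemma fin_img (t : ℝ) (n : ℕ) : (W t '' {w : List Bool | w.length = n}).Finite :=
  (List.finite_length_eq Bool n).image _

lemma W_le_cn (t : ℝ) (w : List Bool) : W t w ≤ cn t w.length :=
  le_csSup (fin_img t _).bddAbove ⟨w, rfl, rfl⟩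

lemma cn_attained (t : ℝ) (n : ℕ) : ∃ w : List Bool, w.length = n ∧ W t w = cn t n := by
  have hne : (W t '' {w : List Bool | w.length = n}).Nonempty :=
    ⟨_, List.replicate n false, by simp, rfl⟩
  obtain ⟨w, hw, h⟩ := hne.csSup_mem (fin_img t n)
  exact ⟨w, hw, h⟩

lemma cn_sub (t : ℝ) : Subadditive (cn t) := by
  intro m n
  obtain ⟨w, hw, h⟩ := cn_attained t (m + n)
  rw [← h, ← List.take_append_drop m w]
  refine (W_append_le t _ _).trans ?_
  have h1 := W_le_cn t (w.take m)
  have h2 := W_le_cn t (w.drop m)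
  rw [List.length_take, min_eq_left (by omega)] at h1
  rw [List.length_drop, show w.length - m = n by omega] at h2
  linarith

lemma cn_nonneg (t : ℝ) (n : ℕ) : 0 ≤ cn t n := by
  have h := W_le_cn t (List.replicate n false)
  rw [List.length_replicate] at h
  have h2 : 0 ≤ W t (List.replicate n false) := by
    rw [W, List.count_replicate]
    simp
    exact log_nonneg (by linarith [two_le_S (List.replicate n false)])
  linarith

lemma cn_bdd (t : ℝ) : BddBelow (Set.range fun n => cn t n / n) := by
  refine ⟨0, ?_⟩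
  rintro _ ⟨n, rfl⟩
  exact div_nonneg (cn_nonneg t n) (Nat.cast_nonneg n)

/-- The pressure. -/
noncomputable def P (t : ℝ) : ℝ := (cn_sub t).lim

lemma P_tendsto (t : ℝ) : Tendsto (fun n : ℕ => cn t n / n) atTop (𝓝 (P t)) :=
  (cn_sub t).tendsto_lim (cn_bdd t)

lemma P_nonneg (t : ℝ) : 0 ≤ P t :=
  ge_of_tendsto' (P_tendsto t) (fun n => div_nonneg (cn_nonneg t n) (Nat.cast_nonneg n))

lemma P_le_cn (t : ℝ) (n : ℕ) : n * P t ≤ cn t n := by
  rcases Nat.eq_zero_or_pos n with h | h
  · subst h; simpa using cn_nonneg t 0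
  · have h1 := (cn_sub t).lim_le_div (cn_bdd t) h.ne'
    have h2 : (0 : ℝ) < n := by exact_mod_cast h
    rw [le_div_iff₀ h2] at h1
    rw [P]; linarith

/-- Near optimal words. -/
lemma exists_opt (t : ℝ) (n : ℕ) : ∃ w : List Bool, w.length = n ∧ n * P t ≤ W t w := by
  obtain ⟨w, hw, h⟩ := cn_attained t n
  exact ⟨w, hw, by rw [h]; exact P_le_cn t n⟩

lemma cn_super (t : ℝ) (m n : ℕ) : cn t m + cn t n + t ≤ cn t (m + n + 2) := by
  obtain ⟨w, hw, h⟩ := cn_attained t m
  obtain ⟨w', hw', h'⟩ := cn_attained t n
  have h1 := W_mid t w w'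
  have h2 := W_le_cn t (w ++ [false, true] ++ w')
  have h3 : (w ++ [false, true] ++ w').length = m + n + 2 := by simp; omega
  rw [h3] at h2
  linarith

lemma cn_mul (t : ℝ) (n k : ℕ) : k * (cn t n + t) ≤ cn t ((n + 2) * k) := by
  induction k with
  | zero => simpa using cn_nonneg t 0
  | succ k ih =>
    have h1 := cn_super t ((n + 2) * k) n
    have h2 : (n + 2) * k + n + 2 = (n + 2) * (k + 1) := by ring
    rw [h2] at h1
    push_cast
    linarith

lemma cn_le (t : ℝ) (n : ℕ) : cn t n + t ≤ (n + 2) * P t := by
  have h1 : Tendsto (fun k : ℕ => (n + 2) * k) atTop atTop :=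
    tendsto_id.const_mul_atTop' (by omega)
  have h2 := (P_tendsto t).comp h1
  have h3 : (cn t n + t) / (n + 2) ≤ P t := by
    refine ge_of_tendsto h2 ?_
    filter_upwards [eventually_gt_atTop 0] with k hk
    simp only [Function.comp]
    have hk' : (0 : ℝ) < k := by exact_mod_cast hk
    rw [div_le_div_iff₀ (by positivity) (by positivity)]
    have := cn_mul t n k
    push_cast
    nlinarith [mul_le_mul_of_nonneg_right this (by positivity : (0 : ℝ) ≤ n + 2)]
  rw [div_le_iff₀ (by positivity)] at h3
  linarith

lemma W_le (t : ℝ) (w : List Bool) : W t w + t ≤ (w.length + 2) * P t :=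
  (add_le_add_left (W_le_cn t w) t).trans (cn_le t w.length) |> fun h => by simpa using h

/-- Comparison of linear growth rates. -/
lemma le_of_lin {x y C : ℝ} (h : ∀ n : ℕ, n * x ≤ n * y + C) : x ≤ y := by
  by_contra hcon
  push Not at hcon
  obtain ⟨n, hn⟩ := exists_nat_gt (C / (x - y))
  have h1 := h n
  rw [div_lt_iff₀ (by linarith)] at hn
  nlinarith

lemma P_lip (t t' : ℝ) : P t' ≤ P t + |t' - t| := by
  apply le_of_lin (C := 2 * P t - t)
  intro n
  obtain ⟨w, hw, h⟩ := exists_opt t' n
  have h1 := W_le t w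
  rw [hw] at h1
  have h2 : W t' w = W t w + (t' - t) * w.count true := by rw [W, W]; ring
  have h3 : (t' - t) * w.count true ≤ |t' - t| * n := by
    have h4 : (w.count true : ℝ) ≤ n := by
      rw [← hw]; exact_mod_cast List.count_le_length
    calc (t' - t) * w.count true ≤ |t' - t| * w.count true :=
          mul_le_mul_of_nonneg_right (le_abs_self _) (Nat.cast_nonneg _)
      _ ≤ |t' - t| * n := mul_le_mul_of_nonneg_left h4 (abs_nonneg _)
  linarith

lemma P_cont : Continuous P := by
  have : LipschitzWith 1 P := by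
    apply LipschitzWith.of_le_add
    intro x y
    rw [Real.dist_eq]
    exact P_lip y x
  exact this.continuous

lemma count_not_true (w : List Bool) : (w.map not).count true = w.count false := by
  induction w with
  | nil => simp
  | cons c w ih2 => cases c <;> simp [ih2]

lemma P_symm (t : ℝ) : P (-t) ≤ P t - t := by
  apply le_of_lin (C := 2 * P t - t)
  intro n
  obtain ⟨w, hw, h⟩ := exists_opt (-t) n
  have h1 := W_le t (w.map not)
  rw [List.length_map, hw] at h1
  have h2 : W t (w.map not) = W (-t) w + t * n := by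
    rw [W, W, S_not, count_not_true]
    have := List.count_false_add_count_true w
    have h3 : (w.count false : ℝ) = n - w.count true := by
      rw [← hw, ← this]; push_cast; ring
    rw [h3]; ring
  linarith

lemma W_pow_ge (t : ℝ) (w : List Bool) (k : ℕ) :
    k * (L w + t * w.count true) ≤ W t (List.replicate k w).flatten := by
  have h1 : ev (List.replicate k w).flatten = (ev w) ^ k := by
    induction k with
    | zero => simp
    | succ k ih => rw [List.replicate_succ, List.flatten_cons, ev_append, ih, pow_succ']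
  have h2 : T (List.replicate k w).flatten = 2 * cosh (k * L w) := by
    rw [T, h1, trace_pow]
  have h3 : k * L w ≤ log (S (List.replicate k w).flatten) := by
    rw [← Real.log_exp (k * L w)]
    apply log_le_log (exp_pos _)
    have h4 := T_le_S (List.replicate k w).flatten
    rw [h2, cosh_eq] at h4
    linarith [exp_pos (-(k * L w))]
  have h5 : ((List.replicate k w).flatten.count true) = k * w.count true := by
    rw [List.count_flatten]; simp
  rw [W, h5]
  push_cast
  linarith

lemma L_le (t : ℝ) (w : List Bool) : L w + t * w.count true ≤ w.length * P t := by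
  apply le_of_lin (C := 2 * P t - t)
  intro k
  have h1 := W_pow_ge t w k
  have h2 := W_le t (List.replicate k w).flatten
  have h3 : (List.replicate k w).flatten.length = k * w.length := by
    rw [List.length_flatten]; simp
  rw [h3] at h2
  push_cast at h2
  linarith

/-! ### Infinite words -/

/-- The word `x_{n-1} ⋯ x_0`. -/
def pre (x : ℕ → Bool) : ℕ → List Bool
  | 0 => []
  | n + 1 => x n :: pre x n

lemma pre_length (x : ℕ → Bool) (n : ℕ) : (pre x n).length = n := by
  induction n with
  | zero => rfl
  | succ n ih => simp [pre, ih]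

lemma pre_congr {x y : ℕ → Bool} {n : ℕ} (h : ∀ i < n, x i = y i) : pre x n = pre y n := by
  induction n with
  | zero => rfl
  | succ n ih => rw [pre, pre, ih (fun i hi => h i (by omega)), h n (by omega)]

lemma exists_pre (w : List Bool) : ∃ x : ℕ → Bool, pre x w.length = w := by
  induction w with
  | nil => exact ⟨fun _ => false, rfl⟩
  | cons b w ih =>
    obtain ⟨x, hx⟩ := ih
    refine ⟨Function.update x w.length b, ?_⟩
    rw [List.length_cons, pre]
    congr 1
    · simp
    · rw [← hx]
      simp only [pre_length]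
      apply pre_congr
      intro i hi
      rw [Function.update_of_ne]
      omega

lemma pre_suffix (x : ℕ → Bool) {m n : ℕ} (h : n ≤ m) : ∃ u, pre x m = u ++ pre x n ∧
    u.length = m - n := by
  induction m with
  | zero =>
    have : n = 0 := by omega
    subst this
    exact ⟨[], by simp, by simp⟩
  | succ m ih =>
    rcases Nat.lt_or_ge m n with h1 | h1
    · have : n = m + 1 := by omega
      subst this
      exact ⟨[], by simp, by simp⟩
    · obtain ⟨u, hu, hl⟩ := ih h1
      exact ⟨x m :: u, by rw [pre, hu]; simp, by simp [hl]; omega⟩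

lemma pre_eq_ofFn (x : ℕ → Bool) (n : ℕ) :
    pre x n = (List.ofFn (fun i : Fin n => x i)).reverse := by
  induction n with
  | zero => simp [pre]
  | succ n ih => rw [pre, ih, List.ofFn_succ']; simp

lemma cont_W (t : ℝ) (n : ℕ) : Continuous (fun x : ℕ → Bool => W t (pre x n)) := by
  have h1 : (fun x : ℕ → Bool => W t (pre x n)) =
      (fun y : Fin n → Bool => W t (List.ofFn y).reverse) ∘ (fun x (i : Fin n) => x i) := by
    funext x
    simp [pre_eq_ofFn]
  rw [h1]
  refine continuous_of_discreteTopology.comp ?_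
  exact continuous_pi (fun i => continuous_apply _)

/-- There are infinite words all of whose prefixes are optimal up to a constant. -/
theorem exists_extremal (t : ℝ) : ∃ x : ℕ → Bool, ∀ n : ℕ,
    n * P t + t - 2 * P t ≤ W t (pre x n) := by
  let K : ℕ → Set (ℕ → Bool) := fun N => {x | ∀ n ≤ N, n * P t + t - 2 * P t ≤ W t (pre x n)}
  have hcl : ∀ N, IsClosed (K N) := by
    intro N
    have : K N = ⋂ n ∈ Set.Iic N, {x | n * P t + t - 2 * P t ≤ W t (pre x n)} := by
      ext x; simp [K]
    rw [this]
    exact isClosed_biInter (fun n _ => isClosed_le continuous_const (cont_W t n))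
  have hne : ∀ N, (K N).Nonempty := by
    intro N
    obtain ⟨w, hw, h⟩ := exists_opt t N
    obtain ⟨x, hx⟩ := exists_pre w
    refine ⟨x, fun n hn => ?_⟩
    rw [hw] at hx
    obtain ⟨u, hu, hl⟩ := pre_suffix x hn
    have h1 := W_append_le t u (pre x n)
    rw [← hu, hx] at h1
    have h2 := W_le t u
    rw [hl] at h2
    push_cast [hn] at h2
    nlinarith
  have hmono : ∀ N, K (N + 1) ⊆ K N := fun N x hx n hn => hx n (by omega)
  obtain ⟨x, hx⟩ := IsCompact.nonempty_iInter_of_sequence_nonempty_isCompact_isClosed K hmono hne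
    (hcl 0).isCompact hcl
  rw [Set.mem_iInter] at hx
  exact ⟨x, fun n => hx n n le_rfl⟩

end R984.Ratio
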