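import Mathlib

/-!
Words over two letters, the matrices of the pair, Christoffel pairs of words, and the
reversal (swap) argument: powers of Christoffel words maximise the trace.
-/

namespace R984.Ratio

open Matrix

/-- `2 × 2` real matrices. -/
abbrev M2 := Matrix (Fin 2) (Fin 2) ℝ

/-- The pair of matrices with `α = 1`: `false` is the letter `0`, `true` the letter `1`. -/
def B : Bool → M2
  | false => !![1, 1; 0, 1]
  | true => !![1, 0; 1, 1]

/-- The matrix product along a word. -/
def ev (w : List Bool) : M2 := (w.map B).prod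

@[simp] lemma ev_nil : ev [] = 1 := by simp [ev]
@[simp] lemma ev_cons (b : Bool) (w : List Bool) : ev (b :: w) = B b * ev w := by simp [ev]
lemma ev_append (w w' : List Bool) : ev (w ++ w') = ev w * ev w' := by simp [ev]
lemma ev_single (b : Bool) : ev [b] = B b := by simp [ev]

lemma det_B (b : Bool) : (B b).det = 1 := by
  cases b <;> simp [B, Matrix.det_fin_two]

lemma det_ev (w : List Bool) : (ev w).det = 1 := by
  induction w with
  | nil => simp
  | cons b w ih => rw [ev_cons, Matrix.det_mul, det_B, ih, one_mul]

/-- Entrywise at least the identity matrix. -/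
structure Big (X : M2) : Prop where
  h00 : 1 ≤ X 0 0
  h01 : 0 ≤ X 0 1
  h10 : 0 ≤ X 1 0
  h11 : 1 ≤ X 1 1

lemma big_mul {X Y : M2} (hX : Big X) (hY : Big Y) : Big (X * Y) := by
  obtain ⟨a, b, c, d⟩ := hX
  obtain ⟨e, f, g, h⟩ := hY
  constructor <;> rw [Matrix.mul_apply, Fin.sum_univ_two] <;> nlinarith [mul_nonneg b g, mul_nonneg c f]

lemma big_B (b : Bool) : Big (B b) := by
  cases b <;> constructor <;> simp [B]

lemma big_one : Big (1 : M2) := by constructor <;> simp

lemma big_ev (w : List Bool) : Big (ev w) := by
  induction w with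
  | nil => simpa using big_one
  | cons b w ih => rw [ev_cons]; exact big_mul (big_B b) ih

lemma trace_mul_ge {X Y : M2} (hX : Big X) (hY : Big Y) : X.trace ≤ (X * Y).trace := by
  obtain ⟨a, b, c, d⟩ := hX
  obtain ⟨e, f, g, h⟩ := hY
  rw [Matrix.trace_fin_two, Matrix.trace_fin_two, Matrix.mul_apply, Matrix.mul_apply,
    Fin.sum_univ_two, Fin.sum_univ_two]
  nlinarith [mul_nonneg b g, mul_nonneg c f, mul_nonneg (by linarith : (0:ℝ) ≤ X 0 0)
    (by linarith : (0:ℝ) ≤ Y 0 0 - 1), mul_nonneg (by linarith : (0:ℝ) ≤ X 1 1)
    (by linarith : (0:ℝ) ≤ Y 1 1 - 1)]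

/-- Substitute `p` for `0` and `q` for `1`. -/
def sb (p q : List Bool) (w : List Bool) : List Bool :=
  w.flatMap (fun b => if b then q else p)

@[simp] lemma sb_nil (p q : List Bool) : sb p q [] = [] := by simp [sb]
@[simp] lemma sb_cons_false (p q w : List Bool) : sb p q (false :: w) = p ++ sb p q w := by
  simp [sb]
@[simp] lemma sb_cons_true (p q w : List Bool) : sb p q (true :: w) = q ++ sb p q w := by
  simp [sb]
lemma sb_append (p q w w' : List Bool) : sb p q (w ++ w') = sb p q w ++ sb p q w' := by
  simp [sb]

lemma sb_id (w : List Bool) : sb [false] [true] w = w := by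
  induction w with
  | nil => simp
  | cons b w ih => cases b <;> simp [ih]

lemma sb_not (p q w : List Bool) : sb q p (w.map not) = sb p q w := by
  induction w with
  | nil => simp
  | cons b w ih => cases b <;> simp [ih]

lemma sb_sb (p q w : List Bool) : sb p q (sb [false] [false, true] w) = sb p (p ++ q) w := by
  induction w with
  | nil => simp
  | cons b w ih => cases b <;> simp [ih]

lemma count_sb (p q w : List Bool) (c : Bool) :
    (sb p q w).count c = w.count false * p.count c + w.count true * q.count c := by
  induction w with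
  | nil => simp
  | cons b w ih => cases b <;> simp [List.count_append, ih] <;> ring

/-- The commutator matrix. -/
def Kc (U V : M2) : M2 := U * V - V * U

lemma Kc_trace (U V : M2) : (Kc U V).trace = 0 := by
  rw [Kc, Matrix.trace_sub, Matrix.trace_mul_comm, sub_self]

/-- The properties of Christoffel pairs used in the swap argument. -/
structure Good (p q : List Bool) : Prop where
  kk : Kc (ev p) (ev q) * Kc (ev p) (ev q) = 1
  uku : ev p * Kc (ev p) (ev q) * ev p = Kc (ev p) (ev q)
  vkv : ev q * Kc (ev p) (ev q) * ev q = Kc (ev p) (ev q)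
  pos : ∀ w, 0 < (Kc (ev p) (ev q) * ev p * ev (sb p q w) * ev q).trace
  neg : ∀ w, (Kc (ev p) (ev q) * ev q * ev (sb p q w) * ev p).trace < 0

lemma Kc_base : Kc (B false) (B true) = !![1, 0; 0, -1] := by
  ext i j
  fin_cases i <;> fin_cases j <;> simp [Kc, B]

lemma good_base : Good [false] [true] := by
  have hK : Kc (ev [false]) (ev [true]) = !![1, 0; 0, -1] := by
    rw [ev_single, ev_single, Kc_base]
  refine ⟨?_, ?_, ?_, ?_, ?_⟩
  · rw [hK]
    ext i j
    fin_cases i <;> fin_cases j <;> simp [Matrix.mul_apply, Fin.sum_univ_two]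
  · rw [hK, ev_single]
    ext i j
    fin_cases i <;> fin_cases j <;> simp [B, Matrix.mul_apply, Fin.sum_univ_two]
  · rw [hK, ev_single]
    ext i j
    fin_cases i <;> fin_cases j <;> simp [B, Matrix.mul_apply, Fin.sum_univ_two]
  · intro w
    rw [hK, ev_single, ev_single, sb_id]
    obtain ⟨a, b, c, d⟩ := big_ev w
    generalize ev w = X at a b c d
    rw [Matrix.trace_fin_two]
    simp only [B, Matrix.mul_apply, Fin.sum_univ_two]
    simp
    linarith
  · intro w
    rw [hK, ev_single, ev_single, sb_id]
    obtain ⟨a, b, c, d⟩ := big_ev w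
    generalize ev w = X at a b c d
    rw [Matrix.trace_fin_two]
    simp only [B, Matrix.mul_apply, Fin.sum_univ_two]
    simp
    linarith

lemma good_swap {p q : List Bool} (h : Good p q) : Good q p := by
  have hK : Kc (ev q) (ev p) = - Kc (ev p) (ev q) := by simp [Kc]
  refine ⟨?_, ?_, ?_, ?_, ?_⟩
  · rw [hK]; simpa using h.kk
  · rw [hK]
    have := h.vkv
    rw [mul_neg, neg_mul, this]
  · rw [hK]
    have := h.uku
    rw [mul_neg, neg_mul, this]
  · intro w
    have := h.neg (w.map not)
    rw [hK, ← sb_not q p w]
    simp only [neg_mul, Matrix.trace_neg]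
    linarith
  · intro w
    have := h.pos (w.map not)
    rw [hK, ← sb_not q p w]
    simp only [neg_mul, Matrix.trace_neg]
    linarith

lemma sb_shift (p q : List Bool) (w : List Bool) :
    ∃ w', sb p (p ++ q) w ++ p = p ++ sb p q w' := by
  induction w with
  | nil => exact ⟨[], by simp⟩
  | cons b w ih =>
    obtain ⟨w', hw'⟩ := ih
    cases b
    · exact ⟨false :: w', by simp [hw']⟩
    · exact ⟨true :: false :: w', by simp [hw']⟩

lemma sb_in (p q : List Bool) (w : List Bool) : ∃ w', sb p (p ++ q) w = sb p q w' :=
  ⟨_, (sb_sb p q w).symm⟩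

lemma good_step {p q : List Bool} (h : Good p q) : Good p (p ++ q) := by
  have hK : Kc (ev p) (ev (p ++ q)) = ev p * Kc (ev p) (ev q) := by
    simp only [Kc, ev_append, mul_sub, mul_assoc]
  obtain ⟨kk, uku, vkv, pos, neg⟩ := h
  rw [show Good p (p ++ q) ↔ Good p (p ++ q) from Iff.rfl]
  set U := ev p with hU
  set V := ev q with hV
  set K := Kc U V with hKd
  refine ⟨?_, ?_, ?_, ?_, ?_⟩
  · rw [hK, mul_assoc, ← mul_assoc K U K, ← mul_assoc U, ← mul_assoc U, uku, kk]
  · rw [hK, ← hU, mul_assoc U (U * K) U, uku]
  · rw [hK, ev_append, ← hU, ← hV]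
    calc U * V * (U * K) * (U * V) = U * V * (U * K * U) * V := by simp only [mul_assoc]
      _ = U * (V * K * V) := by rw [uku]; simp only [mul_assoc]
      _ = U * K := by rw [vkv]
  · intro w
    obtain ⟨w', hw'⟩ := sb_shift p q w
    have := pos w'
    rw [hK, ev_append, ← hU, ← hV]
    have e : U * K * U * ev (sb p (p ++ q) w) * (U * V) = K * U * ev (sb p q w') * V := by
      rw [uku]
      have h2 : ev (sb p (p ++ q) w) * U = U * ev (sb p q w') := by
        rw [hU, ← ev_append, hw', ev_append]
      calc K * ev (sb p (p ++ q) w) * (U * V) = K * (ev (sb p (p ++ q) w) * U) * V := by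
            simp only [mul_assoc]
        _ = K * U * ev (sb p q w') * V := by rw [h2]; simp only [mul_assoc]
    rw [e]
    exact this
  · intro w
    obtain ⟨w', hw'⟩ := sb_in p q w
    have := neg w'
    rw [hK, ev_append, ← hU, ← hV, hw']
    have e : U * K * (U * V) * ev (sb p q w') * U = K * V * ev (sb p q w') * U := by
      rw [← mul_assoc (U * K) U V, uku]
    rw [e]
    exact this

/-- Christoffel pairs (up to order and conjugation). -/
inductive Reach : List Bool → List Bool → Prop
  | base : Reach [false] [true]
  | step {p q : List Bool} : Reach p q → Reach p (p ++ q)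
  | swap {p q : List Bool} : Reach p q → Reach q p

lemma Reach.good {p q : List Bool} (h : Reach p q) : Good p q := by
  induction h with
  | base => exact good_base
  | step _ ih => exact good_step ih
  | swap _ ih => exact good_swap ih

/-! ### The swap argument -/

lemma rev_identity {p q : List Bool} (h : Good p q) (w : List Bool) :
    ev (sb p q w.reverse) * Kc (ev p) (ev q) * ev (sb p q w) = Kc (ev p) (ev q) := by
  induction w with
  | nil => simp
  | cons b w ih =>
    rw [List.reverse_cons, sb_append, ev_append]
    cases b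
    · simp only [sb_cons_false, sb_nil, List.append_nil, ev_append]
      calc ev (sb p q w.reverse) * ev p * Kc (ev p) (ev q) * (ev p * ev (sb p q w))
          = ev (sb p q w.reverse) * (ev p * Kc (ev p) (ev q) * ev p) * ev (sb p q w) := by
            simp only [mul_assoc]
        _ = _ := by rw [h.uku, ih]
    · simp only [sb_cons_true, sb_nil, List.append_nil, ev_append]
      calc ev (sb p q w.reverse) * ev q * Kc (ev p) (ev q) * (ev q * ev (sb p q w))
          = ev (sb p q w.reverse) * (ev q * Kc (ev p) (ev q) * ev q) * ev (sb p q w) := by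
            simp only [mul_assoc]
        _ = _ := by rw [h.vkv, ih]

lemma trace_swap {K X X' Y : M2} (hK : K.trace = 0) (hKK : K * K = 1) (hX : X.det = 1)
    (h : X' * K * X = K) :
    (X' * Y).trace = (X * Y).trace - (K * X).trace * (K * Y).trace := by
  have hX' : X' = K * X.adjugate * K := by
    have h1 : X' * K * X * X.adjugate = K * X.adjugate := by rw [h]
    rw [mul_assoc, Matrix.mul_adjugate, hX, one_smul, mul_one] at h1
    rw [← h1, mul_assoc, hKK, mul_one]
  have h1 : K 0 0 + K 1 1 = 0 := by rw [← Matrix.trace_fin_two]; exact hK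
  have h2 : K 0 0 * K 0 0 + K 0 1 * K 1 0 = 1 := by
    have := congrFun (congrFun hKK 0) 0
    rw [Matrix.mul_apply, Fin.sum_univ_two] at this
    simpa using this
  have h3 : K 1 1 = - K 0 0 := by linarith
  rw [hX', Matrix.adjugate_fin_two]
  simp only [Matrix.trace_fin_two, Matrix.mul_apply, Fin.sum_univ_two, h3]
  simp
  linear_combination
    (X 0 0 * Y 0 0 + X 0 1 * Y 1 0 + X 1 0 * Y 0 1 + X 1 1 * Y 1 1) * h2

/-- The trace of the product along the substituted word. -/
noncomputable def f (p q w : List Bool) : ℝ := (ev (sb p q w)).trace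

lemma f_append_comm (p q w w' : List Bool) : f p q (w ++ w') = f p q (w' ++ w) := by
  rw [f, f, sb_append, sb_append, ev_append, ev_append, Matrix.trace_mul_comm]

lemma f_rotate (p q : List Bool) (n : ℕ) (l : List Bool) : f p q (l.rotate n) = f p q l := by
  induction n generalizing l with
  | zero => simp
  | succ n ih =>
    cases l with
    | nil => simp
    | cons b l =>
      rw [List.rotate_cons_succ, ih, f_append_comm]
      simp

lemma f_isRotated {p q l l' : List Bool} (h : l ~r l') : f p q l = f p q l' := by
  obtain ⟨n, rfl⟩ := h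
  rw [f_rotate]

lemma swap_lt {p q : List Bool} (h : Good p q) (y1 y2 : List Bool) :
    f p q (true :: true :: (y1 ++ false :: false :: y2)) <
      f p q ((true :: (y1 ++ [false])).reverse ++ (false :: (y2 ++ [true]))) := by
  have e1 : f p q (true :: true :: (y1 ++ false :: false :: y2)) =
      f p q ((true :: (y1 ++ [false])) ++ (false :: (y2 ++ [true]))) := by
    have : (true :: true :: (y1 ++ false :: false :: y2)) =
      [true] ++ ((true :: (y1 ++ [false])) ++ (false :: y2)) := by simp
    rw [this, f_append_comm]
    congr 1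
    simp
  rw [e1]
  have h1 := rev_identity h (true :: (y1 ++ [false]))
  have h2 := trace_swap (Y := ev (sb p q (false :: (y2 ++ [true])))) (Kc_trace _ _) h.kk
    (det_ev _) h1
  rw [f, f, sb_append, sb_append, ev_append, ev_append, h2]
  have h3 : (Kc (ev p) (ev q) * ev (sb p q (true :: (y1 ++ [false])))).trace < 0 := by
    have := h.neg y1
    simpa [sb_append, ev_append, mul_assoc] using this
  have h4 : 0 < (Kc (ev p) (ev q) * ev (sb p q (false :: (y2 ++ [true])))).trace := by
    have := h.pos y2
    simpa [sb_append, ev_append, mul_assoc] using this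
  nlinarith

lemma count_noFF : ∀ z : List Bool, (∀ y1 y2, z ≠ y1 ++ false :: false :: y2) →
    z.count false ≤ z.count true + 1
  | [], _ => by simp
  | true :: z, h => by
    have := count_noFF z (fun y1 y2 e => h (true :: y1) y2 (by simp [e]))
    simp; omega
  | [false], _ => by simp
  | false :: true :: z, h => by
    have := count_noFF z (fun y1 y2 e => h (false :: true :: y1) y2 (by simp [e]))
    simp; omega
  | false :: false :: z, h => absurd rfl (h [] z)

lemma dec_noTT : ∀ z : List Bool, (∀ y1 y2, z ≠ y1 ++ true :: true :: y2) →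
    (∀ y, z ≠ true :: y) → ∃ w, z = sb [false] [false, true] w
  | [], _, _ => ⟨[], by simp⟩
  | true :: z, _, h' => absurd rfl (h' z)
  | [false], _, _ => ⟨[false], by simp⟩
  | false :: false :: z, h, _ => by
    obtain ⟨w, hw⟩ := dec_noTT (false :: z) (fun y1 y2 e => h (false :: y1) y2 (by simp [e]))
      (fun y e => by simp at e)
    exact ⟨false :: w, by simp [← hw]⟩
  | false :: true :: z, h, _ => by
    obtain ⟨w, hw⟩ := dec_noTT z (fun y1 y2 e => h (false :: true :: y1) y2 (by simp [e]))
      (fun y e => h [false] y (by simp [e]))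
    exact ⟨true :: w, by simp [← hw]⟩

lemma exists_max (p q : List Bool) (a b : ℕ) (w : List Bool) (h0 : w.count false = a)
    (h1 : w.count true = b) : ∃ m : List Bool, m.count false = a ∧ m.count true = b ∧
      ∀ w' : List Bool, w'.count false = a → w'.count true = b → f p q w' ≤ f p q m := by
  have hfin : {w : List Bool | w.count false = a ∧ w.count true = b}.Finite := by
    refine (List.finite_length_eq Bool (a + b)).subset ?_
    rintro w ⟨h0, h1⟩
    have := List.count_false_add_count_true w
    simp only [Set.mem_ofPred_eq]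
    omega
  obtain ⟨m, hm, hmax⟩ := Set.exists_max_image _ (f p q) hfin ⟨w, h0, h1⟩
  exact ⟨m, hm.1, hm.2, fun w' h0 h1 => hmax w' ⟨h0, h1⟩⟩

lemma step_max {p q : List Bool} (h : Good p q) {a b : ℕ} (hab : b ≤ a) (w : List Bool)
    (h0 : w.count false = a) (h1 : w.count true = b) :
    ∃ w' : List Bool, w'.count false = a - b ∧ w'.count true = b ∧
      f p q w ≤ f p (p ++ q) w' := by
  obtain ⟨m, hm0, hm1, hmax⟩ := exists_max p q a b w h0 h1
  have key : ∀ y, ¬ m ~r (true :: true :: y) := by
    intro y hy
    have c0 := hy.perm.count_eq false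
    have c1 := hy.perm.count_eq true
    simp at c0 c1
    have : ∃ y1 y2, y = y1 ++ false :: false :: y2 := by
      by_contra hcon
      push Not at hcon
      have := count_noFF y hcon
      omega
    obtain ⟨y1, y2, rfl⟩ := this
    have hlt := swap_lt h y1 y2
    rw [← f_isRotated hy] at hlt
    refine absurd (hmax _ ?_ ?_) (not_le.mpr hlt)
    · simp [List.count_append] at c0 ⊢
      omega
    · simp [List.count_append] at c1 ⊢
      omega
  rcases Nat.eq_zero_or_pos a with ha | ha
  · have hb : b = 0 := by omega
    subst ha hb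
    have : w = [] := by
      have := List.count_false_add_count_true w
      exact List.length_eq_zero_iff.mp (by omega)
    subst this
    exact ⟨[], by simp, by simp, by simp [f]⟩
  · have hmem : false ∈ m := by
      rw [← List.count_pos_iff]; omega
    obtain ⟨m1, m2, hm⟩ := List.append_of_mem hmem
    have hrot : m ~r (false :: m2) ++ m1 := by
      rw [hm]; exact List.isRotated_append
    obtain ⟨w', hw'⟩ := dec_noTT ((false :: m2) ++ m1) (by
      intro y1 y2 e
      apply key (y2 ++ y1)
      refine hrot.trans ?_
      rw [e]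
      have : true :: true :: (y2 ++ y1) = (true :: true :: y2) ++ y1 := by simp
      rw [this]
      exact List.isRotated_append) (by intro y e; simp at e)
    have c0 := hrot.perm.count_eq false
    have c1 := hrot.perm.count_eq true
    rw [hw', count_sb] at c0 c1
    simp at c0 c1
    have hlen := List.count_false_add_count_true w'
    refine ⟨w', by omega, by omega, ?_⟩
    calc f p q w ≤ f p q m := hmax w h0 h1
      _ = f p q (sb [false] [false, true] w') := by rw [f_isRotated hrot, hw']
      _ = f p (p ++ q) w' := by rw [f, f, sb_sb]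

/-- Every word whose type lies in the cone of a Christoffel pair is dominated (in trace) by a
product of words of the pair. -/
theorem cone {p q : List Bool} (h : Reach p q) : ∀ (a b : ℕ) (w : List Bool),
    w.count false = a * p.count false + b * q.count false →
    w.count true = a * p.count true + b * q.count true →
    ∃ w' : List Bool, w'.count false = a ∧ w'.count true = b ∧ (ev w).trace ≤ f p q w' := by
  induction h with
  | base =>
    intro a b w h0 h1
    exact ⟨w, by simpa using h0, by simpa using h1, by rw [f, sb_id]⟩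
  | @step p q h ih =>
    intro a b w h0 h1
    obtain ⟨w1, e0, e1, hle⟩ := ih (a + b) b w (by rw [h0, List.count_append]; ring)
      (by rw [h1, List.count_append]; ring)
    obtain ⟨w2, g0, g1, hle2⟩ := step_max h.good (Nat.le_add_left b a) w1 e0 e1
    exact ⟨w2, by omega, g1, hle.trans hle2⟩
  | @swap p q h ih =>
    intro a b w h0 h1
    obtain ⟨w1, e0, e1, hle⟩ := ih b a w (by rw [h0]; ring) (by rw [h1]; ring)
    refine ⟨w1.map not, ?_, ?_, ?_⟩
    · rw [← e1]
      clear e0 e1 hle h0 h1
      induction w1 with
      | nil => simp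
      | cons c w1 ih2 => cases c <;> simp [ih2]
    · rw [← e0]
      clear e0 e1 hle h0 h1
      induction w1 with
      | nil => simp
      | cons c w1 ih2 => cases c <;> simp [ih2]
    · rw [f, sb_not]
      exact hle

end R984.Ratio
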